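import Pool.Agent.Lib.MP_d439b2_co.X3.H1T.Spec

/-!
# MP_d439b2_co, X3/H1T: maximal hubs with the same base are equal or disjoint (helper56)
-/

set_option autoImplicit false

namespace Pool.Agent.MPd439b2.H1T

open Pool.Agent.MPd439b2

namespace AAux

variable {V : Type} {G : SimpleGraph V} {b n : ℕ} {F X X' : Set V} {p : V}

/-- (1) the clique of the second hub does not meet the cells of the first one -/
theorem one (h : HS G b n F X) (h' : HS G b n F X') (hp : p ∈ X) (hp' : p ∈ X') {x u : V}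
    (hx : x ∈ X) (hu' : u ∈ X') (hu : u ∈ Cell G F X x) : False := by
  have hpu : p ≠ u := fun e => cell_X hu (e ▸ hp)
  have hpx : p = x := cell_x h.dF hp hu (h'.cl p hp' u hu' hpu)
  subst hpx
  obtain ⟨f, hf, y, hy, hyp, hfy⟩ := h.ne p
  have hyu : y ≠ u := fun e => cell_X hu (e ▸ hy)
  have hnyu : ¬ G.Adj y u := fun e => hyp (cell_x h.dF hy hu e)
  have hyX' : y ∉ X' := fun e => hnyu (h'.cl y e u hu' hyu)
  have hyF : y ∉ F := h.dF y hy
  have hyadj : G.Adj y p := h.cl y hy p hx hyp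
  rcases h'.tr y hyX' hyF with h1 | h1
  · refine hfy (h'.FW y hyX' hyF p hp' hyadj (fun z hz hyz => ?_) f hf)
    exact h1 z hz p hp' hyz hyadj
  · exact hnyu (h1 u hu')

/-- (2) the elements of the second clique miss the cells of the first one -/
theorem two (h : HS G b n F X) (h' : HS G b n F X') (hp : p ∈ X) (hp' : p ∈ X') {x y r : V}
    (hx : x ∈ X) (hy' : y ∈ X') (hy : y ∉ X) (hr : r ∈ Cell G F X x) : ¬ G.Adj y r := by
  intro hyr
  rcases cell_nb hr hyr.symm with h1 | h1 | h1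
  · exact one h h' hp hp' hx hy' h1
  · exact h'.dF y hy' h1
  · exact hy (h1 ▸ hx)

/-- (2) the elements of the first clique miss the cells of the new elements of the second one -/
theorem two' (h : HS G b n F X) (h' : HS G b n F X') (hp : p ∈ X) (hp' : p ∈ X') {x y r : V}
    (hx : x ∈ X) (hy' : y ∈ X') (hy : y ∉ X) (hr : r ∈ Cell G F X' y) : ¬ G.Adj x r := by
  intro hxr
  rcases cell_nb hr hxr.symm with h1 | h1 | h1
  · exact one h' h hp' hp hy' hx h1
  · exact h.dF x hx h1
  · exact hy (h1 ▸ hx)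

/-- (2) the cells do not touch -/
theorem two2 (h : HS G b n F X) (h' : HS G b n F X') (hp : p ∈ X) (hp' : p ∈ X') {x y r c : V}
    (hx : x ∈ X) (hy' : y ∈ X') (hy : y ∉ X) (hr : r ∈ Cell G F X x) (hc : c ∈ Cell G F X' y)
    (hyc : G.Adj y c) : ¬ G.Adj c r := by
  intro hcr
  rcases cell_nb hr hcr.symm with h1 | h1 | h1
  · exact two h h' hp hp' hx hy' hy h1 hyc
  · exact cell_F hc h1
  · exact one h' h hp' hp hy' hx (h1 ▸ hc)

/-- (3) the new elements of the second clique are complete to the first one -/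
theorem three (hG : FH G) (hn : b + 4 ≤ n) (h : HS G b n F X) (h' : HS G b n F X') (hp : p ∈ X)
    (hp' : p ∈ X') {y : V} (hy' : y ∈ X') (hy : y ∉ X) : ∀ x ∈ X, G.Adj y x := by
  have hyF : y ∉ F := h'.dF y hy'
  have hyp : y ≠ p := fun e => hy (e ▸ hp)
  have hpy : G.Adj y p := h'.cl y hy' p hp' hyp
  rcases h.tr y hy hyF with h1 | h1
  swap
  · exact h1
  exfalso
  have hfy : ∀ f ∈ F, G.Adj f y :=
    h.FW y hy hyF p hp hpy (fun z hz hyz => h1 z hz p hp hyz hpy)
  obtain ⟨f, hf, v, hv, hvp, hfv⟩ := h.ne p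
  obtain ⟨cp, hcp, hpcp⟩ := h.leg p hp
  obtain ⟨u, hu, hup, huv⟩ := pick2 (X := X) (by have := h.big; omega) p v
  obtain ⟨cu, hcu, hucu⟩ := h.leg u hu
  obtain ⟨c, hc, hyc⟩ := h'.leg y hy'
  have hfF : f ∉ X := fun e => h.dF f e hf
  have hvy : ¬ G.Adj v y := fun e => hvp (h1 v hv p hp e.symm hpy)
  refine mdlV hG (P := {f}) (Q := {p, cp}) (R := {y}) (x := cu) (y := v) (z := c)
    (Conn.singleton G f) (Conn.pair hpcp) (Conn.singleton G y) ?_ ?_ ?_ ?_ ?_ ?_ ?_ ?_ ?_ ?_ ?_ ?_
    ?_ ?_ ?_ ?_ ?_ ?_ ?_ ?_ ?_ ?_ ?_ ?_ ?_ ?_ ?_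
  · rw [Set.disjoint_singleton_left]
    rintro (e | e)
    · exact hfF (e ▸ hp)
    · exact cell_F hcp ((Set.mem_singleton_iff.mp e) ▸ hf)
  · rw [Set.disjoint_singleton_left]
    intro e
    exact hyF ((Set.mem_singleton_iff.mp e) ▸ hf)
  · rw [Set.disjoint_singleton_right]
    rintro (e | e)
    · exact hyp e
    · exact one h h' hp hp' hp hy' ((Set.mem_singleton_iff.mp e) ▸ hcp)
  · intro e
    exact cell_F hcu ((Set.mem_singleton_iff.mp e) ▸ hf)
  · rintro (e | e)
    · exact cell_X hcu (e ▸ hp)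
    · exact (cell_dis h.dF hu hp hup hcu hcp).1 (Set.mem_singleton_iff.mp e)
  · intro e
    exact one h h' hp hp' hu hy' ((Set.mem_singleton_iff.mp e) ▸ hcu)
  · intro e
    exact hfF ((Set.mem_singleton_iff.mp e) ▸ hv)
  · rintro (e | e)
    · exact hvp e
    · exact cell_X hcp ((Set.mem_singleton_iff.mp e) ▸ hv)
  · intro e
    exact hy ((Set.mem_singleton_iff.mp e) ▸ hv)
  · intro e
    exact cell_F hc ((Set.mem_singleton_iff.mp e) ▸ hf)
  · rintro (e | e)
    · exact cell_X hc (e ▸ hp')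
    · exact two h h' hp hp' hp hy' hy hcp ((Set.mem_singleton_iff.mp e) ▸ hyc)
  · intro e
    exact G.irrefl ((Set.mem_singleton_iff.mp e) ▸ hyc)
  · exact ⟨f, rfl, cp, Or.inr rfl, h.FL p hp cp hcp f hf⟩
  · exact ⟨f, rfl, y, rfl, hfy f hf⟩
  · exact ⟨p, Or.inl rfl, y, rfl, hpy.symm⟩
  · exact ⟨f, rfl, (h.FL u hu cu hcu f hf).symm⟩
  · rintro q (e | e) hq
    · subst e
      exact hup (cell_x h.dF hp hcu hq.symm).symm
    · rw [Set.mem_singleton_iff] at e
      subst e
      exact (cell_dis h.dF hu hp hup hcu hcp).2 hq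
  · rintro q e hq
    rw [Set.mem_singleton_iff] at e
    subst e
    exact two h h' hp hp' hu hy' hy hcu hq.symm
  · exact ⟨p, Or.inl rfl, h.cl v hv p hp hvp⟩
  · rintro q e hq
    rw [Set.mem_singleton_iff] at e
    subst e
    exact hfv hq.symm
  · rintro q e hq
    rw [Set.mem_singleton_iff] at e
    subst e
    exact hvy hq
  · exact ⟨f, rfl, (h'.FL y hy' c hc f hf).symm⟩
  · exact ⟨y, rfl, hyc.symm⟩
  · rintro q (e | e) hq
    · subst e
      exact two' h h' hp hp' hp hy' hy hc hq.symm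
    · rw [Set.mem_singleton_iff] at e
      subst e
      exact two2 h h' hp hp' hp hy' hy hcp hc hyc hq
  · intro hq
    exact huv (cell_x h.dF hv hcu hq.symm).symm
  · intro hq
    exact two2 h h' hp hp' hu hy' hy hcu hc hyc hq.symm
  · intro hq
    exact two' h h' hp hp' hv hy' hy hc hq

/-- (4) the union is a hub -/
theorem four (hG : FH G) (hn : b + 4 ≤ n) (h : HS G b n F X) (h' : HS G b n F X') (hp : p ∈ X)
    (hp' : p ∈ X') : Hb G n F (X ∪ X') := by
  classical
  have hfin : X.Finite := Set.finite_of_ncard_pos (by have := h.big; omega)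
  have hfin' : X'.Finite := Set.finite_of_ncard_pos (by have := h'.big; omega)
  have hex : ∀ v : V, ∃ c : V, v ∈ X ∪ X' → (v ∈ X → c ∈ Cell G F X v) ∧
      (v ∉ X → v ∈ X' ∧ c ∈ Cell G F X' v) ∧ G.Adj v c := by
    intro v
    by_cases hv : v ∈ X
    · obtain ⟨c, hc, hvc⟩ := h.leg v hv
      exact ⟨c, fun _ => ⟨fun _ => hc, fun h1 => absurd hv h1, hvc⟩⟩
    · by_cases hv' : v ∈ X'
      · obtain ⟨c, hc, hvc⟩ := h'.leg v hv'
        exact ⟨c, fun _ => ⟨fun h1 => absurd h1 hv, fun _ => ⟨hv', hc⟩, hvc⟩⟩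
      · exact ⟨v, fun h1 => absurd h1 (by rintro (h2 | h2); exacts [hv h2, hv' h2])⟩
  choose c hc using hex
  refine ⟨h.big.trans (Set.ncard_le_ncard Set.subset_union_left (hfin.union hfin')), c, ?_, ?_⟩
  · refine ⟨?_, ?_, ?_, ?_⟩
    · intro x hx y hy hxy
      by_cases hxX : x ∈ X
      · by_cases hyX : y ∈ X
        · exact h.cl x hxX y hyX hxy
        · exact (three hG hn h h' hp hp' (((hc y hy).2.1 hyX).1) hyX x hxX).symm
      · by_cases hyX : y ∈ X
        · exact three hG hn h h' hp hp' (((hc x hx).2.1 hxX).1) hxX y hyX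
        · exact h'.cl x (((hc x hx).2.1 hxX).1) y (((hc y hy).2.1 hyX).1) hxy
    · intro x hx y hy
      constructor
      · intro hxy
        by_cases hyX : y ∈ X
        · have h1 := (hc y hy).1 hyX
          by_cases hxX : x ∈ X
          · exact cell_x h.dF hxX h1 hxy
          · exact absurd hxy (two h h' hp hp' hyX (((hc x hx).2.1 hxX).1) hxX h1)
        · have h1 := (hc y hy).2.1 hyX
          by_cases hxX : x ∈ X
          · exact absurd hxy (two' h h' hp hp' hxX h1.1 hyX h1.2)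
          · exact cell_x h'.dF (((hc x hx).2.1 hxX).1) h1.2 hxy
      · intro hxy
        subst hxy
        exact (hc x hx).2.2
    · intro x hx y hy hxy
      by_cases hxX : x ∈ X
      · have h1 := (hc x hx).1 hxX
        by_cases hyX : y ∈ X
        · have h2 := (hc y hy).1 hyX
          by_cases hne : x = y
          · subst hne
            exact G.irrefl hxy
          · exact (cell_dis h.dF hxX hyX hne h1 h2).2 hxy
        · have h2 := (hc y hy).2.1 hyX
          exact two2 h h' hp hp' hxX h2.1 hyX h1 h2.2 (hc y hy).2.2 hxy.symm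
      · have h1 := (hc x hx).2.1 hxX
        by_cases hyX : y ∈ X
        · have h2 := (hc y hy).1 hyX
          exact two2 h h' hp hp' hyX h1.1 hxX h2 h1.2 (hc x hx).2.2 hxy
        · have h2 := (hc y hy).2.1 hyX
          by_cases hne : x = y
          · subst hne
            exact G.irrefl hxy
          · exact (cell_dis h'.dF h1.1 h2.1 hne h1.2 h2.2).2 hxy
    · intro x hx
      by_cases hxX : x ∈ X
      · have h1 := (hc x hx).1 hxX
        rintro (h2 | h2)
        · exact cell_X h1 h2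
        · exact one h h' hp hp' hxX h2 h1
      · have h1 := (hc x hx).2.1 hxX
        rintro (h2 | h2)
        · exact one h' h hp' hp h1.1 h2 h1.2
        · exact cell_X h1.2 h2
  · ext v
    constructor
    · intro hv
      obtain ⟨q, hq, hqp⟩ := pick1 (X := X) (by have := h.big; omega) p
      exact cell_two h.dF hp hq hqp.symm ((hc p (Or.inl hp)).1 hp) ((hc q (Or.inl hq)).1 hq)
        (hv p (Or.inl hp)) (hv q (Or.inl hq))
    · intro hv x hx
      by_cases hxX : x ∈ X
      · exact h.FL x hxX _ ((hc x hx).1 hxX) v hv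
      · have h1 := (hc x hx).2.1 hxX
        exact h'.FL x h1.1 _ h1.2 v hv

end AAux

theorem tA : S_A := by
  intro V _ G b n F X X' hG hHS hn hM hM' hne
  obtain ⟨p, hp, hp'⟩ := hne
  have h := hHS F X hM.1
  have h' := hHS F X' hM'.1
  have h4 := AAux.four hG hn h h' hp hp'
  exact (hM.2 _ h4 Set.subset_union_left).symm.trans (hM'.2 _ h4 Set.subset_union_right)

end Pool.Agent.MPd439b2.H1T
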