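import Pool.Agent.Lib.MP_d439b2_co.X3.H1T.Spec

/-!
# MP_d439b2_co, X3/H1T/B: the cliques do not meet the cells (helper59)
-/

set_option autoImplicit false

namespace Pool.Agent.MPd439b2.H1T

open Pool.Agent.MPd439b2

theorem tB : S_B := by
  intro V _ G b n F X F' X' x x' hs hs' hbn hx hx' hxc
  have hn := hs.big
  have hn' := hs'.big
  -- the set `J`
  set J : Set V := {i | i ∈ X ∧ i ∈ F'} with hJ
  have hxF' : x ∉ F' := cell_F hxc
  have hXsub : X ⊆ J ∪ insert x' (Cell G F' X' x') := by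
    intro i hi
    by_cases hix : i = x
    · rw [hix]
      exact Or.inr (Set.mem_insert_of_mem _ hxc)
    · rcases cell_nb hxc (hs.cl x hx i hi (Ne.symm hix)) with h1 | h1 | h1
      · exact Or.inr (Set.mem_insert_of_mem _ h1)
      · exact Or.inl ⟨hi, h1⟩
      · rw [h1]
        exact Or.inr (Set.mem_insert _ _)
  have hJ2 : 2 ≤ J.ncard := by
    have h1 := Set.ncard_le_ncard hXsub (Set.toFinite _)
    have h2 := Set.ncard_union_le J (insert x' (Cell G F' X' x'))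
    have h3 := Set.ncard_insert_le x' (Cell G F' X' x')
    have h4 := hs'.sm x' hx'
    omega
  obtain ⟨i₁, hi₁, -⟩ := pick1 hJ2 x
  obtain ⟨i₂, hi₂, hi₂₁⟩ := pick1 hJ2 i₁
  have hix : ∀ i ∈ J, i ≠ x := fun i hi h => hxF' (h ▸ hi.2)
  -- the legs
  have hcF : ∀ i ∈ J, ∀ c ∈ Cell G F X i, c ∉ F' := by
    intro i hi c hc h
    have h1 := hs'.FL x' hx' x hxc c h
    exact hix i hi (cell_x hs.dF hx hc h1.symm).symm
  obtain ⟨c, hc, hxc'⟩ := hs.leg x hx
  obtain ⟨j, hj, hjx⟩ := pick1 (X := X') (by omega) x'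
  obtain ⟨d, hd, hjd⟩ := hs'.leg j hj
  have hdx := cell_dis hs'.dF hj hx' hjx hd hxc
  have hid : ∀ i ∈ J, G.Adj i d := fun i hi => hs'.FL j hj d hd i hi.2
  rcases cell_nb hxc hxc' with h1 | h1 | h1
  · -- (a)
    have h2 := hs'.FL x' hx' c h1 i₁ hi₁.2
    exact hix i₁ hi₁ (cell_x hs.dF hi₁.1 hc h2)
  · -- (b)
    have h2 : G.Adj c d := hs'.FL j hj d hd c h1
    have hdF : d ∈ F := by
      rcases cell_nb hc h2 with h3 | h3 | h3
      · exact absurd (cell_x hs.dF hi₁.1 h3 (hid i₁ hi₁)) (hix i₁ hi₁)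
      · exact h3
      · exact absurd h3 hdx.1
    have key : ∀ i ∈ J, ∀ i' ∈ J, i' ≠ i → ∀ e ∈ Cell G F X i, e = j := by
      intro i hi i' hi' hne e he
      have h3 : G.Adj d e := hs.FL i hi.1 e he d hdF
      rcases cell_nb hd h3 with h4 | h4 | h4
      · have h5 := hs'.FL j hj e h4 i' hi'.2
        exact absurd (cell_x hs.dF hi'.1 he h5) hne
      · exact absurd h4 (hcF i hi e he)
      · exact h4
    obtain ⟨e₁, he₁, -⟩ := hs.leg i₁ hi₁.1
    obtain ⟨e₂, he₂, -⟩ := hs.leg i₂ hi₂.1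
    have h3 := key i₁ hi₁ i₂ hi₂ hi₂₁ e₁ he₁
    have h4 := key i₂ hi₂ i₁ hi₁ hi₂₁.symm e₂ he₂
    exact (cell_dis hs.dF hi₁.1 hi₂.1 hi₂₁.symm he₁ he₂).1 (h3.trans h4.symm)
  · -- (c)
    have hdc : ¬ G.Adj d c := by
      intro h
      rw [h1] at h
      exact hjx (cell_x hs'.dF hx' hd h.symm).symm
    have hdX : d ∉ X := by
      intro h
      exact hdx.2 (hs.cl d h x hx hdx.1)
    have hdF : d ∉ F := fun h => hdc (hs.FL x hx c hc d h)
    rcases hs.tr d hdX hdF with h2 | h2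
    · exact hi₂₁ (h2 i₂ hi₂.1 i₁ hi₁.1 (hid i₂ hi₂).symm (hid i₁ hi₁).symm)
    · exact hdx.2 (h2 x hx)

end Pool.Agent.MPd439b2.H1T
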