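import Pool.Agent.Lib.MP_d439b2_co.X3.H1T.Spec

/-!
# MP_d439b2_co, X3/H1T/Bad: there are few bad hubs with different bases (helper77)
-/

set_option autoImplicit false

namespace Pool.Agent.MPd439b2.H1T

open Pool.Agent.MPd439b2

namespace BadAux

variable {V : Type} {G : SimpleGraph V} {A B : Set V} {F X : ℕ → Set V} {y z z' k k' : ℕ → V}
  {b n m c t : ℕ}

/-- a subfamily -/
theorem sub {N : ℕ} (h : BD G b n A B N F X y z z' k k') {s : ℕ → ℕ}
    (hs : ∀ i j, i < j → j < m → s i < s j) (hN : ∀ i < m, s i < N) :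
    BD G b n A B m (fun i => F (s i)) (fun i => X (s i)) (fun i => y (s i)) (fun i => z (s i))
      (fun i => z' (s i)) (fun i => k (s i)) (fun i => k' (s i)) where
  hs := fun i hi => h.hs (s i) (hN i hi)
  ne := by
    intro i hi j hj hij
    have h1 := h.ne (s i) (hN i hi) (s j) (hN j hj) hij
    rcases lt_trichotomy i j with h2 | h2 | h2
    · have := hs i j h2 hj
      omega
    · exact h2
    · have := hs j i h2 hi
      omega
  yX := fun i hi => h.yX (s i) (hN i hi)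
  df := fun i hi => h.df (s i) (hN i hi)
  kC := fun i hi => h.kC (s i) (hN i hi)
  kz := fun i hi => h.kz (s i) (hN i hi)
  yA := fun i hi => h.yA (s i) (hN i hi)
  zA := fun i hi => h.zA (s i) (hN i hi)

/-- the cells of two hubs of the family are disjoint -/
theorem dic [Finite V] (h2 : S_C) (hG : FH G) (h : BD G b n A B m F X y z z' k k')
    (hn : b + 10 ≤ n) {i j : ℕ} (hi : i < m) (hj : j < m) (hij : i ≠ j) : DiC G (F i) (X i) (F j) (X j) :=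
  fun x hx x' hx' v hv hv' => hij (h.ne i hi j hj
    (h2 V G b n _ _ _ _ x x' v hG (h.hs i hi) (h.hs j hj) (by omega) hx hx' hv hv').1)

/-- the core: a homogeneous family -/
theorem core [Finite V] (h1 : S_B) (h2 : S_C) (h3 : S_D) (h4 : S_E) (h5 : S_TS) (h6 : S_Pz)
    (hG : FH G) (hJ : FJ t G) (hn : b + 10 ≤ n) (hrk : LK.rk G A B ≤ c)
    (hm : 2 ^ c + t + 4 ≤ m) (h : BD G b n A B m F X y z z' k k')
    (r1 : Hg m fun i j => G.Adj (y i) (k j)) (r2 : Hg m fun i j => G.Adj (y i) (k' j))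
    (r3 : Hg m fun i j => G.Adj (y i) (z j)) (r4 : Hg m fun i j => G.Adj (y i) (z' j))
    (r5 : Hg m fun i j => G.Adj (z i) (k j)) (r6 : Hg m fun i j => G.Adj (z i) (k' j))
    (r7 : Hg m fun i j => G.Adj (z' i) (k' j)) (r8 : Hg m fun i j => G.Adj (z' i) (k j))
    (r9 : Hg m fun i j => z i = z j) (r10 : Hg m fun i j => z' i = z' j)
    (r11 : Hg m fun i _ => z i ∈ A) (r12 : Hg m fun i _ => z' i ∈ A)
    (r13 : Hg m fun i j => CoC G (F i) (X i) (F j) (X j)) : False := by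
  have hpos : 0 < 2 ^ c := by positivity
  have hm2 : 2 ^ c < m := by omega
  -- (2)
  have e1 : ∀ i < m, ∀ j < m, ¬ G.Adj (y i) (k j) := by
    have e := rk_hg (d := False) hm2 hrk (fun i hi => (h.yA i hi).1)
      (fun i hi => (h.yA i hi).2.1)
      (fun i hi => iff_false_intro fun hadj => (h.df i hi).1
        (cell_x (h.hs i hi).dF (h.yX i hi).1 (h.kC i hi).1 hadj)) r1
    exact fun i hi j hj hadj => (e i hi j hj).1 hadj
  have e2 : ∀ i < m, ∀ j < m, ¬ G.Adj (y i) (k' j) := by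
    have e := rk_hg (d := False) hm2 hrk (fun i hi => (h.yA i hi).1)
      (fun i hi => (h.yA i hi).2.2)
      (fun i hi => iff_false_intro fun hadj => (h.df i hi).2.1
        (cell_x (h.hs i hi).dF (h.yX i hi).1 (h.kC i hi).2 hadj)) r2
    exact fun i hi j hj hadj => (e i hi j hj).1 hadj
  -- (3)
  have e3 : ∀ i < m, ∀ j < m, i ≠ j → G.Adj (y i) (z j) := by
    refine h6 c m V G A B y z k k' hm2 (by omega) hrk
      (fun i hi => ⟨(h.yA i hi).1, (h.yA i hi).2.1, (h.yA i hi).2.2, (h.zA i hi).1⟩)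
      (fun i hi => ⟨(h.hs i hi).cl _ (h.yX i hi).1 _ (h.yX i hi).2.1 (h.df i hi).1,
        (h.kz i hi).1, fun hadj => (h.df i hi).2.2
          (cell_x (h.hs i hi).dF (h.yX i hi).2.1 (h.kC i hi).2 hadj)⟩)
      ?_ r11 r3 r5 r6 r9
    intro i hi j hj hij hadj
    rcases cell_nb (h.kC j hj).1 hadj.symm with h7 | h7 | h7
    · exact absurd h7 (h1 V G b n _ _ _ _ _ _ (h.hs i hi) (h.hs j hj) (by omega)
        (h.yX i hi).2.1 (h.yX j hj).2.1)
    · exact Or.inr ((h.hs j hj).FL _ (h.yX j hj).2.2 _ (h.kC j hj).2 _ h7)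
    · exact Or.inl h7
  have e4 : ∀ i < m, ∀ j < m, i ≠ j → G.Adj (y i) (z' j) := by
    refine h6 c m V G A B y z' k' k hm2 (by omega) hrk
      (fun i hi => ⟨(h.yA i hi).1, (h.yA i hi).2.2, (h.yA i hi).2.1, (h.zA i hi).2⟩)
      (fun i hi => ⟨(h.hs i hi).cl _ (h.yX i hi).1 _ (h.yX i hi).2.2 (h.df i hi).2.1,
        (h.kz i hi).2, fun hadj => (h.df i hi).2.2
          (cell_x (h.hs i hi).dF (h.yX i hi).2.2 (h.kC i hi).1 hadj).symm⟩)
      ?_ r12 r4 r7 r8 r10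
    intro i hi j hj hij hadj
    rcases cell_nb (h.kC j hj).2 hadj.symm with h7 | h7 | h7
    · exact absurd h7 (h1 V G b n _ _ _ _ _ _ (h.hs i hi) (h.hs j hj) (by omega)
        (h.yX i hi).2.2 (h.yX j hj).2.2)
    · exact Or.inr ((h.hs j hj).FL _ (h.yX j hj).2.1 _ (h.kC j hj).1 _ h7)
    · exact Or.inl h7
  -- (4)
  have h0m : 0 < m := by omega
  have h1m : 1 < m := by omega
  have hnc : ¬ CoC G (F 0) (X 0) (F 1) (X 1) := by
    intro hc
    obtain ⟨u, l, hul⟩ := r13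
    have hu : u := (hul 0 1 (by omega) h1m).1.1 hc
    exact h4 t b n V G F X hJ (by omega) (fun i hi => h.hs i (by omega))
      (fun i hi j hj hij => (hul i j hij (by omega)).1.2 hu)
  have ha : AnC G (F 0) (X 0) (F 1) (X 1) :=
    (h3 V G b n _ _ _ _ (h.hs 0 h0m) (h.hs 1 h1m) (by omega)
      (dic h2 hG h hn h0m h1m (by omega))).resolve_left hnc
  have ha' : AnC G (F 1) (X 1) (F 0) (X 0) := fun x hx x' hx' r hr r' hr' hadj =>
    ha x' hx' x hx r' hr' r hr hadj.symm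
  -- (5)
  have s1 : F 0 ⊆ F 1 :=
    h5 V G b n (F 0) (X 0) (F 1) (X 1) (y 0) (y 1) (z 0) (z 1) (k 0) (k 1) hG (h.hs 0 h0m)
      (h.hs 1 h1m) hn (dic h2 hG h hn h0m h1m (by omega)) ha (h.yX 0 h0m).1 (h.yX 1 h1m).1
      (h.yX 0 h0m).2.1 (h.yX 1 h1m).2.1 (h.kC 0 h0m).1 (h.kC 1 h1m).1 (e1 0 h0m 1 h1m)
      (e1 1 h1m 0 h0m) ⟨z 1, (h.yX 1 h1m).2.1, z' 1, (h.yX 1 h1m).2.2, (h.df 1 h1m).2.2,
        e3 0 h0m 1 h1m (by omega), e4 0 h0m 1 h1m (by omega)⟩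
  have s2 : F 1 ⊆ F 0 :=
    h5 V G b n (F 1) (X 1) (F 0) (X 0) (y 1) (y 0) (z 1) (z 0) (k 1) (k 0) hG (h.hs 1 h1m)
      (h.hs 0 h0m) hn (dic h2 hG h hn h1m h0m (by omega)) ha' (h.yX 1 h1m).1 (h.yX 0 h0m).1
      (h.yX 1 h1m).2.1 (h.yX 0 h0m).2.1 (h.kC 1 h1m).1 (h.kC 0 h0m).1 (e1 1 h1m 0 h0m)
      (e1 0 h0m 1 h1m) ⟨z 0, (h.yX 0 h0m).2.1, z' 0, (h.yX 0 h0m).2.2, (h.df 0 h0m).2.2,
        e3 1 h1m 0 h0m (by omega), e4 1 h1m 0 h0m (by omega)⟩
  have := h.ne 0 h0m 1 h1m (Set.Subset.antisymm s1 s2)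
  omega

end BadAux

theorem tBad (h1 : S_B) (h2 : S_C) (h3 : S_D) (h4 : S_E) (h5 : S_TS) (h6 : S_Pz) : S_Bad := by
  intro t b c
  obtain ⟨N, hN⟩ := ram 13 (2 ^ c + t + 4)
  refine ⟨N, fun n V _ G A B F X y z z' k k' hG hJ hn hrk h => ?_⟩
  obtain ⟨s, hs1, hs2, hR⟩ := hN ![fun i j => G.Adj (y i) (k j), fun i j => G.Adj (y i) (k' j),
    fun i j => G.Adj (y i) (z j), fun i j => G.Adj (y i) (z' j), fun i j => G.Adj (z i) (k j),
    fun i j => G.Adj (z i) (k' j), fun i j => G.Adj (z' i) (k' j),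
    fun i j => G.Adj (z' i) (k j), fun i j => z i = z j, fun i j => z' i = z' j,
    fun i _ => z i ∈ A, fun i _ => z' i ∈ A, fun i j => CoC G (F i) (X i) (F j) (X j)]
  exact BadAux.core h1 h2 h3 h4 h5 h6 hG hJ hn hrk le_rfl (BadAux.sub h hs1 hs2)
    (hR 0) (hR 1) (hR 2) (hR 3) (hR 4) (hR 5) (hR 6) (hR 7) (hR 8) (hR 9) (hR 10) (hR 11)
    (hR 12)

end Pool.Agent.MPd439b2.H1T
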