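import Pool.Agent.Lib.MP_d439b2_co.X3.H1T.Spec
import Pool.Agent.Lib.MP_d439b2_co.ON.JB
import Pool.Agent.Lib.MP_d439b2_co.ON.JFF

/-!
# MP_d439b2_co, X3/H1T: few elements of the clique have a private neighbour outside the cells
-/

set_option autoImplicit false

namespace Pool.Agent.MPd439b2.H1T

open Pool.Agent.MPd439b2

namespace BdAux

variable {V : Type}

/-- enumeration of elements of a set -/
theorem enum [Finite V] (S : Set V) (N : ℕ) (h : N < S.ncard) : ∃ x : ℕ → V,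
    (∀ i < N, x i ∈ S) ∧ ∀ i < N, ∀ j < N, x i = x j → i = j := by
  classical
  have hc : Nat.card S = S.ncard := Nat.card_coe_set_eq S
  let e := Finite.equivFin S
  refine ⟨fun i => if hi : i < Nat.card S then (e.symm ⟨i, hi⟩ : V) else
    (e.symm ⟨0, by omega⟩ : V), ?_, ?_⟩
  · intro i hi
    have h1 : i < Nat.card S := by omega
    simp only [dif_pos h1]
    exact (e.symm ⟨i, h1⟩).2
  · intro i hi j hj hij
    have h1 : i < Nat.card S := by omega
    have h2 : j < Nat.card S := by omega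
    simp only [dif_pos h1, dif_pos h2] at hij
    have h3 := e.symm.injective (Subtype.ext hij)
    exact Fin.mk.inj_iff.mp h3

/-- a connected set which meets `Q'` and is disjoint from `F` and `X` is contained in `Q'` -/
theorem sub {G : SimpleGraph V} {F X : Set V} {y q : V} {Q Q' : Set V} (hQ : Conn G Q)
    (hF : ∀ u ∈ Q, u ∉ F) (hy : y ∉ Q) (hQ' : CQ G F X y Q') (h1 : q ∈ Q) (h2 : q ∈ Q') :
    Q ⊆ Q' := by
  by_contra hcon
  obtain ⟨p, hp, u, hu, hpu⟩ := hQ.2 (Q ∩ Q') Set.inter_subset_left ⟨q, h1, h2⟩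
    (fun h => hcon (by rw [← h]; exact Set.inter_subset_right))
  rcases hQ'.nb p hp.2 u hpu with h3 | h3 | h3
  · exact hu.2 ⟨hu.1, h3⟩
  · exact hF u hu.1 h3
  · exact hy (h3 ▸ hu.1)

end BdAux

open BdAux in
theorem tBd (h1 : S_Tab) (h2 : S_Leg) (_h3 : S_FW) : S_Bd := by
  classical
  intro t
  set m : ℕ := max 5 ((t + 3) ^ 2) with hm
  have hm5 : 5 ≤ m := le_max_left _ _
  have hmt : (t + 3) ^ 2 ≤ m := le_max_right _ _
  obtain ⟨N, hN⟩ := W.ramC Bool m
  refine ⟨N + 1, ?_⟩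
  intro V _ G X l hH hJ hS h5
  by_contra hcon
  push Not at hcon
  set F := Fs G X l with hF
  have dF : ∀ x ∈ X, x ∉ F := by
    intro x hx hxF
    obtain ⟨y, hy, hyx⟩ := pick1 (X := X) (by omega) x
    exact hyx ((hS.xl x hx y hy).mp (hxF y hy)).symm
  have hleg : ∀ y ∈ X, l y ∈ Cell G F X y := h2 V G X l hH hS h5
  obtain ⟨x₀, hx₀, hx₀i⟩ := enum (Bd G F X) N (by omega)
  have hw₀ : ∀ i : ℕ, ∃ w, i < N → w ∉ X ∧ w ∉ F ∧ w ∉ Cell G F X (x₀ i) ∧ G.Adj w (x₀ i) ∧
      ∀ y ∈ X, G.Adj w y → y = x₀ i := by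
    intro i
    by_cases hi : i < N
    · obtain ⟨-, w, hw⟩ := hx₀ i hi
      exact ⟨w, fun _ => hw⟩
    · exact ⟨x₀ i, fun h => absurd h hi⟩
  choose w₀ hw₀ using hw₀
  obtain ⟨s, col, hs1, hs2, hs3⟩ := hN fun i j => decide (G.Adj (w₀ i) (w₀ j))
  -- the subsequence
  set x : ℕ → V := fun i => x₀ (s i) with hx
  set w : ℕ → V := fun i => w₀ (s i) with hw
  have xX : ∀ i < m, x i ∈ X := fun i hi => (hx₀ (s i) (hs2 i hi)).1
  have hinj : ∀ i < m, ∀ j < m, x i = x j → i = j := by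
    intro i hi j hj hij
    have h4 := hx₀i (s i) (hs2 i hi) (s j) (hs2 j hj) hij
    rcases lt_trichotomy i j with h | h | h
    · exact absurd h4 (hs1 i j h hj).ne
    · exact h
    · exact absurd h4 (hs1 j i h hi).ne'
  have wP : ∀ i < m, w i ∉ X ∧ w i ∉ F ∧ w i ∉ Cell G F X (x i) ∧ G.Adj (w i) (x i) ∧
      ∀ y ∈ X, G.Adj (w i) y → y = x i := fun i hi => hw₀ (s i) (hs2 i hi)
  have wx : ∀ i < m, ∀ j < m, (G.Adj (x i) (w j) ↔ i = j) := by
    intro i hi j hj
    constructor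
    · intro h
      exact hinj i hi j hj ((wP j hj).2.2.2.2 (x i) (xX i hi) h.symm)
    · rintro rfl
      exact (wP i hi).2.2.2.1.symm
  have wC : ∀ i < m, ∀ y ∈ X, w i ∉ Cell G F X y := by
    intro i hi y hy hc
    have h4 : x i = y := cell_x dF (xX i hi) hc (wP i hi).2.2.2.1.symm
    exact (wP i hi).2.2.1 (h4 ▸ hc)
  have wM : ∀ i < m, ∀ y ∈ X, ∀ r ∈ Cell G F X y, ¬ G.Adj (w i) r := by
    intro i hi y hy r hr h
    rcases cell_nb hr h.symm with h4 | h4 | h4
    · exact wC i hi y hy h4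
    · exact (wP i hi).2.1 h4
    · exact (wP i hi).1 (h4 ▸ hy)
  have wl : ∀ i < m, ∀ y ∈ X, w i ≠ l y := fun i hi y hy h =>
    wC i hi y hy (h ▸ hleg y hy)
  cases hcol : col with
  | true =>
    have hcl : ∀ i < m, ∀ j < m, i ≠ j → G.Adj (w i) (w j) := by
      intro i hi j hj hij
      rcases Nat.lt_or_gt_of_ne hij with h | h
      · have h4 := hs3 i j h hj
        rw [hcol] at h4
        exact of_decide_eq_true h4
      · have h4 := hs3 j i h hi
        rw [hcol] at h4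
        exact (of_decide_eq_true h4 : G.Adj (w j) (w i)).symm
    have hJ' : ¬ IMS (A0.JP t) (Gᶜ)ᶜ Set.univ := by rw [compl_compl]; exact hJ
    refine ON.oJFF ON.oJB t V Gᶜ hJ' x w ?_ ?_ ?_
    · intro i hi j hj h
      rw [SimpleGraph.compl_adj] at h
      exact h.2 (hS.cl (x i) (xX i (hi.trans_le hmt)) (x j) (xX j (hj.trans_le hmt)) h.1)
    · intro i hi j hj h
      rw [SimpleGraph.compl_adj] at h
      by_cases hij : i = j
      · exact h.1 (by rw [hij])
      · exact h.2 (hcl i (hi.trans_le hmt) j (hj.trans_le hmt) hij)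
    · intro i hi j hj
      rw [SimpleGraph.compl_adj, wx i (hi.trans_le hmt) j (hj.trans_le hmt)]
      exact ⟨fun h => h.2, fun h => ⟨fun h4 => (wP j (hj.trans_le hmt)).1
        (h4 ▸ xX i (hi.trans_le hmt)), h⟩⟩
  | false =>
    have hst : ∀ i < m, ∀ j < m, ¬ G.Adj (w i) (w j) := by
      intro i hi j hj h
      rcases lt_trichotomy i j with h5 | h5 | h5
      · have h4 := hs3 i j h5 hj
        rw [hcol] at h4
        exact (of_decide_eq_false h4) h
      · subst h5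
        exact G.loopless.irrefl _ h
      · have h4 := hs3 j i h5 hi
        rw [hcol] at h4
        exact (of_decide_eq_false h4) h.symm
    have wne : ∀ i < m, ∀ j < m, i ≠ j → w i ≠ w j := fun i hi j hj hij h =>
      hij ((wx i hi j hj).mp (h ▸ (wP i hi).2.2.2.1.symm))
    -- the second spider
    set X' : Set V := {v | ∃ i < m, x i = v} with hX'
    have hX'X : ∀ v ∈ X', v ∈ X := by
      rintro _ ⟨i, hi, rfl⟩
      exact xX i hi
    set g : V → ℕ := fun v => if h : ∃ i < m, x i = v then h.choose else 0 with hg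
    have hgx : ∀ i < m, g (x i) = i := by
      intro i hi
      have h4 : ∃ j < m, x j = x i := ⟨i, hi, rfl⟩
      simp only [hg, dif_pos h4]
      exact hinj _ h4.choose_spec.1 i hi h4.choose_spec.2
    set l' : V → V := fun v => w (g v) with hl'
    have hlx : ∀ i < m, l' (x i) = w i := fun i hi => by
      simp only [hl']
      rw [hgx i hi]
    have hS' : Spd G X' l' := by
      refine ⟨?_, ?_, ?_, ?_⟩
      · intro a ha b hb hab
        exact hS.cl a (hX'X a ha) b (hX'X b hb) hab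
      · rintro _ ⟨i, hi, rfl⟩ _ ⟨j, hj, rfl⟩
        rw [hlx j hj, wx i hi j hj]
        exact ⟨fun h => by rw [h], fun h => hinj i hi j hj h⟩
      · rintro _ ⟨i, hi, rfl⟩ _ ⟨j, hj, rfl⟩
        rw [hlx i hi, hlx j hj]
        exact hst i hi j hj
      · rintro _ ⟨i, hi, rfl⟩ h
        rw [hlx i hi] at h
        exact (wP i hi).1 (hX'X _ h)
    have hX'5 : 5 ≤ X'.ncard := by
      have h4 : X' = x '' Set.Iio m := rfl
      have h6 : Set.InjOn x (Set.Iio m) := fun i hi j hj hij => hinj i hi j hj hij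
      have h7 : (Set.Iio m).ncard = m := by
        rw [← Nat.card_coe_set_eq]
        simp
      rw [h4, h6.ncard_image, h7]
      exact hm5
    have m0 : 0 < m := by omega
    have m1 : 1 < m := by omega
    have m2 : 2 < m := by omega
    have m3 : 3 < m := by omega
    have m4 : 4 < m := by omega
    -- the component
    obtain ⟨Q, hQA, hwQ, hQc, hQn⟩ := exists_comp G (A := (F ∪ X)ᶜ) (v := w 0) (by
      rintro (h | h)
      · exact (wP 0 m0).2.1 h
      · exact (wP 0 m0).1 h)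
    have QF : ∀ q ∈ Q, q ∉ F := fun q hq h => hQA hq (Or.inl h)
    have QX : ∀ q ∈ Q, q ∉ X := fun q hq h => hQA hq (Or.inr h)
    have QC : ∀ q ∈ Q, ∀ y ∈ X, q ∉ Cell G F X y := by
      rintro q hq y hy ⟨Q', hQ', hqQ'⟩
      exact wC 0 m0 y hy ⟨Q', hQ', sub hQc QF (fun h => QX y h hy) hQ' hq hqQ' hwQ⟩
    have Ql : ∀ q ∈ Q, ∀ y ∈ X, ¬ G.Adj q (l y) := by
      intro q hq y hy h
      rcases cell_nb (hleg y hy) h.symm with h4 | h4 | h4
      · exact QC q hq y hy h4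
      · exact QF q hq h4
      · exact QX q hq (h4 ▸ hy)
    have Qt : ∀ y ∈ X, ¬ Tch G Q {l y} := by
      rintro y hy ⟨q, hq, b, hb, hqb⟩
      exact Ql q hq y hy ((show b = l y from hb) ▸ hqb)
    have hall : ∀ y ∈ X, Tch G Q {y} := by
      rcases (h1 V G X l Q hH hS h5 hQc fun y hy => ⟨fun h => QX y h hy,
        fun h => QC (l y) h y hy (hleg y hy)⟩).2.2 Qt with h4 | h4
      · exact h4
      · exfalso
        have h6 : Tch G Q {x 0} := ⟨w 0, hwQ, x 0, rfl, (wP 0 m0).2.2.2.1⟩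
        refine wC 0 m0 (x 0) (xX 0 m0) ⟨Q, ⟨hQc, QF, QX, ?_, ⟨w 0, hwQ, (wP 0 m0).2.2.2.1⟩⟩, hwQ⟩
        intro q hq u hqu
        by_contra hno
        push Not at hno
        obtain ⟨n1, n2, n3⟩ := hno
        by_cases huX : u ∈ X
        · exact n3 (h4 u huX (x 0) (xX 0 m0) ⟨q, hq, u, rfl, hqu⟩ h6)
        · exact hQn u (fun h => h.elim n2 huX) ⟨n1, q, hq, hqu⟩
    obtain ⟨f, hfQ, hfF⟩ : ∃ f ∈ Q, f ∈ Fs G X' l' := by
      by_contra hno
      push Not at hno
      have hx0' : x 0 ∈ X' := ⟨0, m0, rfl⟩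
      obtain ⟨Q'', hQ'', hwQ''⟩ := h2 V G X' l' hH hS' hX'5 (x 0) hx0'
      rw [hlx 0 m0] at hwQ''
      have hsub := sub hQc hno (fun h => QX (x 0) h (xX 0 m0)) hQ'' hwQ hwQ''
      obtain ⟨q, hq, b, hb, hqb⟩ := hall (x 1) (xX 1 m1)
      have hb' : b = x 1 := hb
      rw [hb'] at hqb
      rcases hQ''.nb q (hsub hq) (x 1) hqb with h4 | h4 | h4
      · exact hQ''.dX (x 1) h4 ⟨1, m1, rfl⟩
      · have h6 := h4 (x 0) hx0'
        rw [hlx 0 m0] at h6
        exact absurd ((wx 1 m1 0 m0).mp h6) (by norm_num)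
      · exact absurd (hinj 1 m1 0 m0 h4) (by norm_num)
    have fw : ∀ i < m, G.Adj f (w i) := fun i hi => by
      have h4 := hfF (x i) ⟨i, hi, rfl⟩
      rwa [hlx i hi] at h4
    have fX : ∀ i < m, f ≠ x i := fun i hi h => QX f hfQ (h ▸ xX i hi)
    have fW : ∀ i < m, f ≠ w i := fun i hi => G.ne_of_adj (fw i hi)
    have xw : ∀ i < m, ∀ j < m, x i ≠ w j := fun i hi j hj h => (wP j hj).1 (h ▸ xX i hi)
    have lw : ∀ i < m, ¬ G.Adj (w i) (l (x 1)) := fun i hi =>
      wM i hi (x 1) (xX 1 m1) _ (hleg (x 1) (xX 1 m1))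
    have lX : ∀ i < m, l (x 1) ≠ x i := fun i hi h => hS.nx (x 1) (xX 1 m1) (h ▸ xX i hi)
    have lx : ∀ i < m, i ≠ 1 → ¬ G.Adj (l (x 1)) (x i) := fun i hi hi1 h =>
      hi1 (hinj i hi 1 m1 ((hS.xl (x i) (xX i hi) (x 1) (xX 1 m1)).mp h.symm))
    have xne : ∀ i < m, ∀ j < m, i ≠ j → x i ≠ x j := fun i hi j hj hij h =>
      hij (hinj i hi j hj h)
    have nwx : ∀ i < m, ∀ j < m, i ≠ j → ¬ G.Adj (w i) (x j) := fun i hi j hj hij h =>
      hij ((wx j hj i hi).mp h.symm).symm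
    refine mdlV hH (P := {f}) (Q := {x 1, w 1}) (R := {x 2, x 3, w 3}) (x := w 4)
      (y := l (x 1)) (z := w 2) (Conn.singleton G f) (Conn.pair (wP 1 m1).2.2.2.1.symm)
      ((Conn.pair (wP 3 m3).2.2.2.1.symm).insert ⟨x 3, Or.inl rfl,
        hS.cl (x 3) (xX 3 m3) (x 2) (xX 2 m2) (xne 3 m3 2 m2 (by norm_num))⟩)
      ?_ ?_ ?_ ?_ ?_ ?_ ?_ ?_ ?_ ?_ ?_ ?_ ?_ ?_ ?_ ?_ ?_ ?_ ?_ ?_ ?_ ?_ ?_ ?_ ?_ ?_ ?_
    · rw [Set.disjoint_left]
      rintro a ha (h | h)
      · exact fX 1 m1 (ha ▸ h)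
      · exact fW 1 m1 (ha ▸ h)
    · rw [Set.disjoint_left]
      rintro a ha (h | h | h)
      · exact fX 2 m2 (ha ▸ h)
      · exact fX 3 m3 (ha ▸ h)
      · exact fW 3 m3 (ha ▸ h)
    · rw [Set.disjoint_left]
      rintro a (ha | ha) (h | h | h)
      · exact xne 1 m1 2 m2 (by norm_num) (ha.symm.trans h)
      · exact xne 1 m1 3 m3 (by norm_num) (ha.symm.trans h)
      · exact xw 1 m1 3 m3 (ha.symm.trans h)
      · exact xw 2 m2 1 m1 (h.symm.trans ha)
      · exact xw 3 m3 1 m1 (h.symm.trans ha)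
      · exact wne 1 m1 3 m3 (by norm_num) (ha.symm.trans h)
    · exact fun h => fW 4 m4 (show w 4 = f from h).symm
    · rintro (h | h)
      · exact xw 1 m1 4 m4 h.symm
      · exact wne 4 m4 1 m1 (by norm_num) h
    · rintro (h | h | h)
      · exact xw 2 m2 4 m4 h.symm
      · exact xw 3 m3 4 m4 h.symm
      · exact wne 4 m4 3 m3 (by norm_num) h
    · intro h
      have h4 : l (x 1) = f := h
      exact QC f hfQ (x 1) (xX 1 m1) (h4 ▸ hleg (x 1) (xX 1 m1))
    · rintro (h | h)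
      · exact lX 1 m1 h
      · exact wl 1 m1 (x 1) (xX 1 m1) h.symm
    · rintro (h | h | h)
      · exact lX 2 m2 h
      · exact lX 3 m3 h
      · exact wl 3 m3 (x 1) (xX 1 m1) h.symm
    · exact fun h => fW 2 m2 (show w 2 = f from h).symm
    · rintro (h | h)
      · exact xw 1 m1 2 m2 h.symm
      · exact wne 2 m2 1 m1 (by norm_num) h
    · rintro (h | h | h)
      · exact xw 2 m2 2 m2 h.symm
      · exact xw 3 m3 2 m2 h.symm
      · exact wne 2 m2 3 m3 (by norm_num) h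
    · exact ⟨f, rfl, w 1, Or.inr rfl, fw 1 m1⟩
    · exact ⟨f, rfl, w 3, Or.inr (Or.inr rfl), fw 3 m3⟩
    · exact ⟨x 1, Or.inl rfl, x 2, Or.inl rfl,
        hS.cl (x 1) (xX 1 m1) (x 2) (xX 2 m2) (xne 1 m1 2 m2 (by norm_num))⟩
    · exact ⟨f, rfl, (fw 4 m4).symm⟩
    · rintro p (hp | hp)
      · rw [show p = x 1 from hp]
        exact nwx 4 m4 1 m1 (by norm_num)
      · rw [show p = w 1 from hp]
        exact hst 4 m4 1 m1
    · rintro p (hp | hp | hp)
      · rw [show p = x 2 from hp]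
        exact nwx 4 m4 2 m2 (by norm_num)
      · rw [show p = x 3 from hp]
        exact nwx 4 m4 3 m3 (by norm_num)
      · rw [show p = w 3 from hp]
        exact hst 4 m4 3 m3
    · exact ⟨x 1, Or.inl rfl, ((hS.xl (x 1) (xX 1 m1) (x 1) (xX 1 m1)).mpr rfl).symm⟩
    · intro p hp h
      rw [show p = f from hp] at h
      exact Ql f hfQ (x 1) (xX 1 m1) h.symm
    · rintro p (hp | hp | hp)
      · rw [show p = x 2 from hp]
        exact lx 2 m2 (by norm_num)
      · rw [show p = x 3 from hp]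
        exact lx 3 m3 (by norm_num)
      · rw [show p = w 3 from hp]
        exact fun h => lw 3 m3 h.symm
    · exact ⟨f, rfl, (fw 2 m2).symm⟩
    · exact ⟨x 2, Or.inl rfl, (wP 2 m2).2.2.2.1⟩
    · rintro p (hp | hp)
      · rw [show p = x 1 from hp]
        exact nwx 2 m2 1 m1 (by norm_num)
      · rw [show p = w 1 from hp]
        exact hst 2 m2 1 m1
    · exact lw 4 m4
    · exact hst 4 m4 2 m2
    · exact fun h => lw 2 m2 h.symm

end Pool.Agent.MPd439b2.H1T
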