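import Pool.Agent.Lib.MP_d439b2_co.X3.H1T.Spec

/-!
# MP_d439b2_co, X3/H1T: the cells of different hubs are disjoint
-/

set_option autoImplicit false

namespace Pool.Agent.MPd439b2.H1T

open Pool.Agent.MPd439b2

namespace CAux

/-- two connected sets at different hubs which meet are equal, one inclusion -/
theorem sub (h1 : S_B) {V : Type} [Finite V] {G : SimpleGraph V} {b n : ℕ} {F X F' X' : Set V}
    {x x' v : V} (hs : HS G b n F X) (hs' : HS G b n F' X') (hn : b + 4 ≤ n) (hx : x ∈ X)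
    (hx' : x' ∈ X') {R R' : Set V} (hR : CQ G F X x R) (hR' : CQ G F' X' x' R') (hv : v ∈ R)
    (hv' : v ∈ R') : R' ⊆ R := by
  by_contra hcon
  obtain ⟨p, hp, u, hu, hpu⟩ := hR'.con.2 (R ∩ R') Set.inter_subset_right ⟨v, hv, hv'⟩
    (fun h => hcon (by rw [← h]; exact Set.inter_subset_left))
  have huR : u ∉ R := fun h => hu.2 ⟨h, hu.1⟩
  have huL : u ∈ Cell G F' X' x' := ⟨R', hR', hu.1⟩
  have hvL : v ∈ Cell G F X x := ⟨R, hR, hv⟩
  have hvL' : v ∈ Cell G F' X' x' := ⟨R', hR', hv'⟩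
  have huF : u ∈ F := by
    rcases hR.nb p hp.1 u hpu with h2 | h2 | h2
    · exact absurd h2 huR
    · exact h2
    · exact absurd (h2 ▸ huL) (h1 V G b n F X F' X' x x' hs hs' hn hx hx')
  have hleg : ∀ i : V, ∃ c, i ∈ X → c ∈ Cell G F X i ∧ G.Adj i c := by
    intro i
    by_cases hi : i ∈ X
    · obtain ⟨c, hc, hic⟩ := hs.leg i hi
      exact ⟨c, fun _ => ⟨hc, hic⟩⟩
    · exact ⟨i, fun h => absurd h hi⟩
  choose c hc using hleg
  set E : Set V := {i | i ∈ X ∧ c i ∈ insert x' (Cell G F' X' x')} with hE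
  have hEc : E.ncard ≤ b + 1 := by
    have h2 : Set.InjOn c E := by
      intro i hi j hj hij
      by_contra hne
      exact (cell_dis hs.dF hi.1 hj.1 hne (hc i hi.1).1 (hc j hj.1).1).1 hij
    have h3 : c '' E ⊆ insert x' (Cell G F' X' x') := by
      rintro _ ⟨i, hi, rfl⟩
      exact hi.2
    calc E.ncard = (c '' E).ncard := (h2.ncard_image).symm
      _ ≤ (insert x' (Cell G F' X' x')).ncard := Set.ncard_le_ncard h3 (Set.toFinite _)
      _ ≤ (Cell G F' X' x').ncard + 1 := Set.ncard_insert_le _ _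
      _ ≤ b + 1 := Nat.add_le_add_right (hs'.sm x' hx') 1
  have hbig := hs.big
  obtain ⟨i, hi, hiE⟩ := pick (X := X) (E := insert x E) (Set.toFinite _)
    (lt_of_le_of_lt (Set.ncard_insert_le _ _) (by omega))
  have hix : i ≠ x := fun h => hiE (Or.inl h)
  have hiE' : c i ∉ insert x' (Cell G F' X' x') := fun h => hiE (Or.inr ⟨hi, h⟩)
  have h4 : G.Adj u (c i) := hs.FL i hi (c i) (hc i hi).1 u huF
  have h5 : c i ∈ F' := by
    rcases cell_nb huL h4 with h2 | h2 | h2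
    · exact absurd (Or.inr h2) hiE'
    · exact h2
    · exact absurd (Or.inl h2) hiE'
  exact (cell_dis hs.dF hi hx hix (hc i hi).1 hvL).2 (hs'.FL x' hx' v hvL' (c i) h5)

end CAux

open CAux in
theorem tC (h1 : S_B) : S_C := by
  intro V _ G b n F X F' X' x x' v hH hs hs' hn hx hx' hv hv'
  have hvL := hv
  have hvL' := hv'
  obtain ⟨R, hR, hvR⟩ := hv
  obtain ⟨R', hR', hvR'⟩ := hv'
  have hRR : R' = R := Set.Subset.antisymm (sub h1 hs hs' hn hx hx' hR hR' hvR hvR')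
    (sub h1 hs' hs hn hx' hx hR' hR hvR' hvR)
  subst hRR
  have hF : ∀ f ∈ F, f ∈ F' ∨ f = x' := by
    intro f hf
    rcases hR'.nb v hvR' f (hs.FL x hx v hvL f hf).symm with h2 | h2 | h2
    · exact absurd hf (hR.dF f h2)
    · exact Or.inl h2
    · exact Or.inr h2
  have hF' : ∀ f ∈ F', f ∈ F ∨ f = x := by
    intro f hf
    rcases hR.nb v hvR f (hs'.FL x' hx' v hvL' f hf).symm with h2 | h2 | h2
    · exact absurd hf (hR'.dF f h2)
    · exact Or.inl h2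
    · exact Or.inr h2
  by_cases hxx : x = x'
  · refine ⟨Set.Subset.antisymm (fun f hf => ?_) (fun f hf => ?_), hxx⟩
    · rcases hF f hf with h2 | h2
      · exact h2
      · exact absurd hf (h2 ▸ hxx ▸ hs.dF x hx)
    · rcases hF' f hf with h2 | h2
      · exact h2
      · exact absurd hf (h2 ▸ hxx ▸ hs'.dF x' hx')
  exfalso
  have hxF' : x ∈ F' := by
    obtain ⟨q, hq, hqx⟩ := hR.tx
    rcases hR'.nb q hq x hqx with h2 | h2 | h2
    · exact absurd hx (hR.dX x h2)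
    · exact h2
    · exact absurd h2 hxx
  have hx'F : x' ∈ F := by
    obtain ⟨q, hq, hqx⟩ := hR'.tx
    rcases hR.nb q hq x' hqx with h2 | h2 | h2
    · exact absurd hx' (hR'.dX x' h2)
    · exact h2
    · exact absurd h2.symm hxx
  have hbig := hs.big
  have hbig' := hs'.big
  -- the legs of the first hub
  have hL : ∀ j ∈ X, j ≠ x → ∀ c, c ∈ Cell G F X j → G.Adj c x' ∧ ¬ G.Adj c v ∧ c ≠ v ∧
      c ∉ F' ∧ c ∉ X' := by
    intro j hj hjx c hc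
    have h2 := cell_dis hs.dF hj hx hjx hc hvL
    refine ⟨(hs.FL j hj c hc x' hx'F).symm, h2.2, h2.1, fun h => h2.2 (hs'.FL x' hx' v hvL' c h),
      fun h => h1 V G b n F' X' F X c j hs' hs hn h hj hc⟩
  obtain ⟨l, hl, hlx⟩ := pick1 (X := X') (by omega) x'
  obtain ⟨d, hd, hld⟩ := hs'.leg l hl
  have hdx : G.Adj d x := (hs'.FL l hl d hd x hxF').symm
  have hdv := cell_dis hs'.dF hl hx' hlx hd hvL'
  have hdF : d ∉ F := fun h => hdv.2 (hs.FL x hx v hvL d h)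
  have hdX : d ∉ X := fun h => h1 V G b n F X F' X' d l hs hs' hn h hl hd
  have hdo : ∀ a ∈ X, G.Adj d a → a = x := by
    intro a ha hda
    rcases hs.tr d hdX hdF with h2 | h2
    · exact h2 a ha x hx hda hdx
    · exfalso
      obtain ⟨j, hj, hjx, hjl⟩ := pick2 (X := X) (by omega) x l
      rcases cell_nb hd (h2 j hj) with h3 | h3 | h3
      · exact h1 V G b n F X F' X' j l hs hs' hn hj hl h3
      · exact hjx (cell_x hs.dF hj hvL (hs'.FL x' hx' v hvL' j h3))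
      · exact hjl h3
  have hcd : ∀ j ∈ X, j ≠ x → ∀ c, c ∈ Cell G F X j → c ≠ d ∧ ¬ G.Adj c d := by
    intro j hj hjx c hc
    obtain ⟨k1, k2, k3, k4, k5⟩ := hL j hj hjx c hc
    have h2 : c ∉ Cell G F' X' l := fun h => hlx (cell_x hs'.dF hx' h k1.symm).symm
    refine ⟨fun h => h2 (h ▸ hd), fun h => ?_⟩
    rcases cell_nb hd h.symm with h3 | h3 | h3
    · exact h2 h3
    · exact k4 h3
    · exact k5 (h3 ▸ hl)
  -- the three elements
  obtain ⟨u₁, hu₁, n1x⟩ := pick1 (X := X) (by omega) x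
  obtain ⟨u₂, hu₂, n2x, n21⟩ := pick2 (X := X) (by omega) x u₁
  obtain ⟨u₃, hu₃, n3x, n31, n32⟩ := pick3 (X := X) (by omega) x u₁ u₂
  obtain ⟨c₁, hc₁, a₁⟩ := hs.leg u₁ hu₁
  obtain ⟨c₂, hc₂, a₂⟩ := hs.leg u₂ hu₂
  obtain ⟨c₃, hc₃, a₃⟩ := hs.leg u₃ hu₃
  obtain ⟨p1, p2, p3, p4, p5⟩ := hL u₁ hu₁ n1x c₁ hc₁
  obtain ⟨q1, q2, q3, q4, q5⟩ := hL u₂ hu₂ n2x c₂ hc₂
  obtain ⟨r1, r2, r3, r4, r5⟩ := hL u₃ hu₃ n3x c₃ hc₃
  have d1 := hcd u₁ hu₁ n1x c₁ hc₁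
  have d2 := hcd u₂ hu₂ n2x c₂ hc₂
  have d3 := hcd u₃ hu₃ n3x c₃ hc₃
  have e12 := cell_dis hs.dF hu₁ hu₂ (Ne.symm n21) hc₁ hc₂
  have e13 := cell_dis hs.dF hu₁ hu₃ (Ne.symm n31) hc₁ hc₃
  have e23 := cell_dis hs.dF hu₂ hu₃ (Ne.symm n32) hc₂ hc₃
  have nX : ∀ {i c y : V}, c ∈ Cell G F X i → y ∈ X → c ≠ y := fun hc hy h =>
    cell_X hc (h ▸ hy)
  have vX : v ∉ X := cell_X hvL
  have nA : ∀ {i c y : V}, c ∈ Cell G F X i → y ∈ X → y ≠ i → ¬ G.Adj c y := fun hc hy hne h =>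
    hne (cell_x hs.dF hy hc h.symm)
  have axv : G.Adj x v := hs'.FL x' hx' v hvL' x hxF'
  have ax'v : G.Adj x' v := hs.FL x hx v hvL x' hx'F
  have nx' : ∀ {y : V}, y ∈ X → y ≠ x' := fun hy h => hs.dF _ hy (h ▸ hx'F)
  refine mdlV hH (P := {x'}) (Q := {x, v}) (R := {u₁, u₂, c₂}) (x := c₃) (y := d) (z := c₁)
    (Conn.singleton G x') (Conn.pair axv)
    ((Conn.pair a₂).insert ⟨u₂, Or.inl rfl, hs.cl u₂ hu₂ u₁ hu₁ n21⟩)
    ?_ ?_ ?_ ?_ ?_ ?_ ?_ ?_ ?_ ?_ ?_ ?_ ?_ ?_ ?_ ?_ ?_ ?_ ?_ ?_ ?_ ?_ ?_ ?_ ?_ ?_ ?_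
  · rw [Set.disjoint_left]
    rintro _ rfl (h | h)
    · exact hxx h.symm
    · exact G.ne_of_adj ax'v h
  · rw [Set.disjoint_left]
    rintro _ rfl (h | h | h)
    · exact nx' hu₁ h.symm
    · exact nx' hu₂ h.symm
    · exact G.ne_of_adj q1 h.symm
  · rw [Set.disjoint_left]
    rintro _ (rfl | rfl) (h | h | h)
    · exact n1x h.symm
    · exact n2x h.symm
    · exact nX hc₂ hx h.symm
    · exact vX (h ▸ hu₁)
    · exact vX (h ▸ hu₂)
    · exact q3 h.symm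
  · exact fun h => G.ne_of_adj r1 h
  · rintro (h | h)
    · exact nX hc₃ hx h
    · exact r3 h
  · rintro (h | h | h)
    · exact nX hc₃ hu₁ h
    · exact nX hc₃ hu₂ h
    · exact e23.1 h.symm
  · exact fun h => cell_X hd (h ▸ hx')
  · rintro (h | h)
    · exact hdX (h ▸ hx)
    · exact hdv.1 h
  · rintro (h | h | h)
    · exact hdX (h ▸ hu₁)
    · exact hdX (h ▸ hu₂)
    · exact d2.1 h.symm
  · exact fun h => G.ne_of_adj p1 h
  · rintro (h | h)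
    · exact nX hc₁ hx h
    · exact p3 h
  · rintro (h | h | h)
    · exact nX hc₁ hu₁ h
    · exact nX hc₁ hu₂ h
    · exact e12.1 h
  · exact ⟨x', rfl, v, Or.inr rfl, ax'v⟩
  · exact ⟨x', rfl, c₂, Or.inr (Or.inr rfl), q1.symm⟩
  · exact ⟨x, Or.inl rfl, u₁, Or.inl rfl, hs.cl x hx u₁ hu₁ (Ne.symm n1x)⟩
  · exact ⟨x', rfl, r1⟩
  · rintro _ (rfl | rfl)
    · exact nA hc₃ hx (Ne.symm n3x)
    · exact r2
  · rintro _ (rfl | rfl | rfl)
    · exact nA hc₃ hu₁ (Ne.symm n31)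
    · exact nA hc₃ hu₂ (Ne.symm n32)
    · exact fun h => e23.2 h.symm
  · exact ⟨x, Or.inl rfl, hdx⟩
  · rintro _ rfl h
    exact hlx (cell_x hs'.dF hx' hd h.symm).symm
  · rintro _ (rfl | rfl | rfl) h
    · exact n1x (hdo _ hu₁ h)
    · exact n2x (hdo _ hu₂ h)
    · exact d2.2 h.symm
  · exact ⟨x', rfl, p1⟩
  · exact ⟨u₁, Or.inl rfl, a₁.symm⟩
  · rintro _ (rfl | rfl)
    · exact nA hc₁ hx (Ne.symm n1x)
    · exact p2
  · exact d3.2
  · exact fun h => e13.2 h.symm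
  · exact fun h => d1.2 h.symm

end Pool.Agent.MPd439b2.H1T
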