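import Pool.Agent.Lib.MP_d439b2_co.X3.H1T.Spec

/-!
# MP_d439b2_co, X3/H1T: Cut (helper68)
-/

set_option autoImplicit false

namespace Pool.Agent.MPd439b2.H1T

open Pool.Agent.MPd439b2

theorem tCut (hFew : S_Few) (hTB : S_TB) (hR1 : S_R1) (hR2 : S_R2) : S_Cut := by
  intro t b c
  obtain ⟨N, hN⟩ := hFew t b c
  refine ⟨c + 4 * (2 ^ c * 2 ^ c + N) + N, ?_⟩
  intro n V _ G SS κ lg E π hπ A A' hP hc
  have hP' : ON.Pt (Sv G SS κ) A' A := ⟨by rw [Set.union_comm]; exact hP.1, hP.2.symm⟩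
  obtain ⟨hsymm, -, hun, -⟩ := LK.a1 V G
  have hc' : LK.rk G A' A ≤ c := by rw [hsymm]; exact hc
  have hrw : (Rw G A A').ncard ≤ 2 ^ c :=
    (rows_le G A A').trans (Nat.pow_le_pow_right (by norm_num) hc)
  have hrw' : (Rw G A' A).ncard ≤ 2 ^ c :=
    (rows_le G A' A).trans (Nat.pow_le_pow_right (by norm_num) hc')
  have b1 := hN n V G SS κ lg E A A' hP hc
  have b2 := hN n V G SS κ lg E A' A hP' hc'
  have t1 : (TB SS κ A A').ncard ≤ 2 ^ c * 2 ^ c + N :=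
    (hTB V G t b n SS κ lg E A A' hP).trans (Nat.add_le_add (Nat.mul_le_mul hrw hrw) b1)
  have t2 : (TB SS κ A' A).ncard ≤ 2 ^ c * 2 ^ c + N :=
    (hTB V G t b n SS κ lg E A' A hP').trans (Nat.add_le_add (Nat.mul_le_mul hrw' hrw') b2)
  have r1 := (hR1 V G t b n SS κ lg E π hπ A A' hP).trans t1
  have r2 := (hR1 V G t b n SS κ lg E π hπ A' A hP').trans t2
  have r3 := (hR2 V G t b n SS κ lg E π hπ A A' hP).trans (Nat.add_le_add t1 b2)
  unfold ON.hat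
  set T : Set V := {v | v ∉ Sv G SS κ ∧ π v ∈ A} with hT
  set T' : Set V := {v | v ∉ Sv G SS κ ∧ π v ∈ A'} with hT'
  have s1 := hun A T (A' ∪ T')
  have s2 : LK.rk G A (A' ∪ T') ≤ LK.rk G A A' + LK.rk G T' A := by
    rw [hsymm A (A' ∪ T'), hsymm A A']
    exact hun A' T' A
  have s3 : LK.rk G T (A' ∪ T') ≤ LK.rk G T A' + LK.rk G T T' := by
    rw [hsymm T (A' ∪ T'), hsymm T A', hsymm T T']
    exact hun A' T' T
  omega

end Pool.Agent.MPd439b2.H1T
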