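import Pool.Agent.Lib.MP_d439b2_co.X3.H1T.Spec

/-!
# MP_d439b2_co, X3/H1T: D (helper68)
-/

set_option autoImplicit false

namespace Pool.Agent.MPd439b2.H1T

open Pool.Agent.MPd439b2

theorem tD (hB : S_B) : S_D := by
  intro V _ G b n F X F' X' hs hs' hbn hdi
  by_cases hA : AnC G F X F' X'
  · exact Or.inr hA
  left
  unfold AnC at hA
  push Not at hA
  obtain ⟨x0, hx0, x0', hx0', r0, hr0, r0', hr0', hadj⟩ := hA
  have h1 : r0' ∈ F := by
    rcases cell_nb hr0 hadj with h | h | h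
    · exact absurd hr0' (hdi x0 hx0 x0' hx0' r0' h)
    · exact h
    · exact absurd (h ▸ hr0') (hB V G b n F X F' X' x0 x0' hs hs' hbn hx0 hx0')
  intro x hx x' hx' r hr r' hr'
  have h2 : G.Adj r0' r := hs.FL x hx r hr r0' h1
  have h3 : r ∈ F' := by
    rcases cell_nb hr0' h2 with h | h | h
    · exact absurd h (hdi x hx x0' hx0' r hr)
    · exact h
    · exact absurd (h ▸ hr) (hB V G b n F' X' F X x0' x hs' hs hbn hx0' hx)
  exact hs'.FL x' hx' r' hr' r h3

end Pool.Agent.MPd439b2.H1T
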