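import Pool.Agent.Lib.MP_d439b2_co.X3.H1T.Spec
import Pool.Agent.Lib.MP_d439b2_co.ON.JB

/-!
# MP_d439b2_co, X3/H1T, E: there are no `t + 1` hubs whose cells are pairwise complete
-/

set_option autoImplicit false

namespace Pool.Agent.MPd439b2.H1T

open Pool.Agent.MPd439b2

namespace EAux

variable {V : Type} {G : SimpleGraph V}

private theorem ds1 {a b : V} (h : a ≠ b) : Disjoint ({a} : Set V) {b} :=
  Set.disjoint_singleton.2 h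

private theorem ds2 {a b c : V} (h : a ≠ c) (h' : b ≠ c) : Disjoint ({a, b} : Set V) {c} := by
  rw [Set.disjoint_singleton_right]
  rintro (h1 | h1)
  · exact h h1.symm
  · exact h' h1.symm

/-- the three sets -/
private def XX (c₃ x₁ c₁ x₂ c₂ : V) (a : ℕ) : Set V :=
  if a = 0 then {c₃} else if a = 1 then {x₁, c₁} else {x₂, c₂}

private theorem cases3 {P : ℕ → Prop} (h0 : P 0) (h1 : P 1) (h2 : P 2) : ∀ a < 3, P a := by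
  intro a ha
  obtain rfl | rfl | rfl : a = 0 ∨ a = 1 ∨ a = 2 := by omega
  · exact h0
  · exact h1
  · exact h2

end EAux

open EAux in
theorem tE : S_E := by
  intro t b n V _ G F X hJ hn hHS hCo
  -- adjacency of the cells of different hubs
  have co : ∀ i < t + 1, ∀ j < t + 1, i ≠ j → ∀ x ∈ X i, ∀ y ∈ X j, ∀ r ∈ Cell G (F i) (X i) x,
      ∀ s ∈ Cell G (F j) (X j) y, G.Adj r s := by
    intro i hi j hj hij x hx y hy r hr s hs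
    rcases lt_or_gt_of_ne hij with h | h
    · exact hCo i hi j hj h x hx y hy r hr s hs
    · exact (hCo j hj i hi h y hy x hx s hs r hr).symm
  have hn' : ∀ i < t + 1, 3 ≤ (X i).ncard := fun i hi => hn.trans (hHS i hi).big
  have h0 := hHS 0 (by omega)
  obtain ⟨x₁, hx₁⟩ : (X 0).Nonempty := (Set.ncard_pos (Set.toFinite _)).1
    (by have := hn' 0 (by omega); omega)
  obtain ⟨x₂, hx₂, h21⟩ := pick1 (by have := hn' 0 (by omega); omega : 2 ≤ (X 0).ncard) x₁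
  obtain ⟨x₃, hx₃, h31, h32⟩ := pick2 (hn' 0 (by omega)) x₁ x₂
  obtain ⟨c₁, hc₁, a₁⟩ := h0.leg x₁ hx₁
  obtain ⟨c₂, hc₂, a₂⟩ := h0.leg x₂ hx₂
  obtain ⟨c₃, hc₃, a₃⟩ := h0.leg x₃ hx₃
  have hde : ∀ i, ∃ d e : V, i < t → (∃ y ∈ X (i + 1), d ∈ Cell G (F (i + 1)) (X (i + 1)) y) ∧
      (∃ y ∈ X (i + 1), e ∈ Cell G (F (i + 1)) (X (i + 1)) y) ∧ d ≠ e ∧ ¬ G.Adj d e := by
    intro i
    by_cases hi : i < t
    · have h1 := hHS (i + 1) (by omega)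
      obtain ⟨y, hy⟩ : (X (i + 1)).Nonempty := (Set.ncard_pos (Set.toFinite _)).1
        (by have := hn' (i + 1) (by omega); omega)
      obtain ⟨z, hz, hzy⟩ := pick1 (by have := hn' (i + 1) (by omega); omega :
        2 ≤ (X (i + 1)).ncard) y
      obtain ⟨d, hd, _⟩ := h1.leg y hy
      obtain ⟨e, he, _⟩ := h1.leg z hz
      exact ⟨d, e, fun _ => ⟨⟨y, hy, hd⟩, ⟨z, hz, he⟩, cell_dis h1.dF hy hz hzy.symm hd he⟩⟩
    · exact ⟨x₁, x₁, fun h => absurd h hi⟩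
  choose d e hde using hde
  -- the legs of the hub `0` see all `d i`, `e i`
  have s0 : ∀ x ∈ X 0, ∀ c ∈ Cell G (F 0) (X 0) x, ∀ i < t, G.Adj c (d i) ∧ G.Adj c (e i) := by
    intro x hx c hc i hi
    obtain ⟨⟨y, hy, hd⟩, ⟨z, hz, he⟩, _⟩ := hde i hi
    exact ⟨co 0 (by omega) (i + 1) (by omega) (by omega) x hx y hy c hc _ hd,
      co 0 (by omega) (i + 1) (by omega) (by omega) x hx z hz c hc _ he⟩
  have s1 : ∀ i < t, ∀ j < t, i ≠ j → G.Adj (d i) (d j) ∧ G.Adj (d i) (e j) ∧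
      G.Adj (e i) (e j) := by
    intro i hi j hj hij
    obtain ⟨⟨y, hy, hd⟩, ⟨z, hz, he⟩, _⟩ := hde i hi
    obtain ⟨⟨y', hy', hd'⟩, ⟨z', hz', he'⟩, _⟩ := hde j hj
    have h2 : i + 1 ≠ j + 1 := by omega
    exact ⟨co (i + 1) (by omega) (j + 1) (by omega) h2 y hy y' hy' _ hd _ hd',
      co (i + 1) (by omega) (j + 1) (by omega) h2 y hy z' hz' _ hd _ he',
      co (i + 1) (by omega) (j + 1) (by omega) h2 z hz z' hz' _ he _ he'⟩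
  -- `x₁`, `x₂` miss `c₃`
  have m1 : ¬ G.Adj x₁ c₃ := fun h => h31.symm (cell_x h0.dF hx₁ hc₃ h)
  have m2 : ¬ G.Adj x₂ c₃ := fun h => h32.symm (cell_x h0.dF hx₂ hc₃ h)
  have n1 : ∀ i < t, x₁ ≠ d i ∧ x₁ ≠ e i := fun i hi =>
    ⟨fun h => m1 (h ▸ (s0 x₃ hx₃ c₃ hc₃ i hi).1.symm),
      fun h => m1 (h ▸ (s0 x₃ hx₃ c₃ hc₃ i hi).2.symm)⟩
  have n2 : ∀ i < t, x₂ ≠ d i ∧ x₂ ≠ e i := fun i hi =>
    ⟨fun h => m2 (h ▸ (s0 x₃ hx₃ c₃ hc₃ i hi).1.symm),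
      fun h => m2 (h ▸ (s0 x₃ hx₃ c₃ hc₃ i hi).2.symm)⟩
  have q1 := cell_dis h0.dF hx₃ hx₁ h31 hc₃ hc₁
  have q2 := cell_dis h0.dF hx₃ hx₂ h32 hc₃ hc₂
  have q3 := cell_dis h0.dF hx₁ hx₂ h21.symm hc₁ hc₂
  have k1 : ∀ x ∈ X 0, c₁ ≠ x := fun x hx h => cell_X hc₁ (h ▸ hx)
  have k2 : ∀ x ∈ X 0, c₂ ≠ x := fun x hx h => cell_X hc₂ (h ▸ hx)
  have k3 : ∀ x ∈ X 0, c₃ ≠ x := fun x hx h => cell_X hc₃ (h ▸ hx)
  have D01 : Disjoint ({c₃} : Set V) {x₁, c₁} := (ds2 (k3 x₁ hx₁).symm q1.1.symm).symm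
  have D02 : Disjoint ({c₃} : Set V) {x₂, c₂} := (ds2 (k3 x₂ hx₂).symm q2.1.symm).symm
  have D12 : Disjoint ({x₁, c₁} : Set V) {x₂, c₂} := by
    rw [Set.disjoint_left]
    rintro v (rfl | rfl) (h | h)
    · exact h21 h.symm
    · exact k2 v hx₁ h.symm
    · exact k1 x₂ hx₂ h
    · exact q3.1 h
  refine hJ (ON.oJB t V G (XX c₃ x₁ c₁ x₂ c₂) (fun i => {d i}) (fun i => {e i}) ?_ ?_ ?_ ?_ ?_ ?_
    ?_ ?_ ?_ ?_ ?_ ?_)
  · exact cases3 (Conn.singleton G c₃) (Conn.pair a₁) (Conn.pair a₂)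
  · exact fun i _ => ⟨Conn.singleton G _, Conn.singleton G _⟩
  · refine cases3 (cases3 (fun h => absurd rfl h) (fun _ => D01) fun _ => D02)
      (cases3 (fun _ => D01.symm) (fun h => absurd rfl h) fun _ => D12)
      (cases3 (fun _ => D02.symm) (fun _ => D12.symm) fun h => absurd rfl h)
  · refine cases3 (fun i hi => ⟨ds1 (s0 x₃ hx₃ c₃ hc₃ i hi).1.ne, ds1 (s0 x₃ hx₃ c₃ hc₃ i hi).2.ne⟩)
      (fun i hi => ⟨ds2 (n1 i hi).1 (s0 x₁ hx₁ c₁ hc₁ i hi).1.ne,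
        ds2 (n1 i hi).2 (s0 x₁ hx₁ c₁ hc₁ i hi).2.ne⟩)
      (fun i hi => ⟨ds2 (n2 i hi).1 (s0 x₂ hx₂ c₂ hc₂ i hi).1.ne,
        ds2 (n2 i hi).2 (s0 x₂ hx₂ c₂ hc₂ i hi).2.ne⟩)
  · exact fun i hi => ds1 (hde i hi).2.2.1
  · exact fun i hi j hj hij => ⟨ds1 (s1 i hi j hj hij).1.ne, ds1 (s1 i hi j hj hij).2.1.ne,
      ds1 (s1 i hi j hj hij).2.2.ne⟩
  · rintro ⟨u, hu, v, hv | hv, huv⟩
    · have hu' : u = c₃ := hu
      rw [hu', hv] at huv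
      exact m1 huv.symm
    · have hu' : u = c₃ := hu
      have hv' : v = c₁ := hv
      rw [hu', hv'] at huv
      exact q1.2 huv
  · rintro ⟨u, hu, v, hv | hv, huv⟩
    · have hu' : u = c₃ := hu
      rw [hu', hv] at huv
      exact m2 huv.symm
    · have hu' : u = c₃ := hu
      have hv' : v = c₂ := hv
      rw [hu', hv'] at huv
      exact q2.2 huv
  · exact ⟨x₁, Or.inl rfl, x₂, Or.inl rfl, h0.cl x₁ hx₁ x₂ hx₂ h21.symm⟩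
  · refine cases3 (fun i hi => ⟨⟨c₃, rfl, d i, rfl, (s0 x₃ hx₃ c₃ hc₃ i hi).1⟩,
      ⟨c₃, rfl, e i, rfl, (s0 x₃ hx₃ c₃ hc₃ i hi).2⟩⟩)
      (fun i hi => ⟨⟨c₁, Or.inr rfl, d i, rfl, (s0 x₁ hx₁ c₁ hc₁ i hi).1⟩,
        ⟨c₁, Or.inr rfl, e i, rfl, (s0 x₁ hx₁ c₁ hc₁ i hi).2⟩⟩)
      (fun i hi => ⟨⟨c₂, Or.inr rfl, d i, rfl, (s0 x₂ hx₂ c₂ hc₂ i hi).1⟩,
        ⟨c₂, Or.inr rfl, e i, rfl, (s0 x₂ hx₂ c₂ hc₂ i hi).2⟩⟩)
  · rintro i hi ⟨u, hu, v, hv, huv⟩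
    have hu' : u = d i := hu
    have hv' : v = e i := hv
    rw [hu', hv'] at huv
    exact (hde i hi).2.2.2 huv
  · exact fun i hi j hj hij => ⟨⟨d i, rfl, d j, rfl, (s1 i hi j hj hij).1⟩,
      ⟨d i, rfl, e j, rfl, (s1 i hi j hj hij).2.1⟩, ⟨e i, rfl, e j, rfl, (s1 i hi j hj hij).2.2⟩⟩

end Pool.Agent.MPd439b2.H1T
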