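import Pool.Agent.Lib.MP_d439b2_co.X3.H1T.Spec

/-!
# MP_d439b2_co, X3/H1T, FL: the base is complete to the cells
-/

set_option autoImplicit false

namespace Pool.Agent.MPd439b2.H1T

open Pool.Agent.MPd439b2

theorem tFL (h1 : S_Leg) : S_FL := by
  intro V _ G X l hG hS h5 x hx r hr f hf
  by_contra hfr
  have adj : ∀ x ∈ X, ∀ y ∈ X, x ≠ y → G.Adj x y := hS.cl
  have leg : ∀ x ∈ X, G.Adj x (l x) := fun x hx => (hS.xl x hx x hx).mpr rfl
  have nl' : ∀ x ∈ X, ∀ y ∈ X, x ≠ y → ¬ G.Adj (l y) x := fun x hx y hy h h' =>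
    h ((hS.xl x hx y hy).mp h'.symm)
  have lX : ∀ x ∈ X, ∀ y ∈ X, l x ≠ y := fun x hx y hy h => hS.nx x hx (h ▸ hy)
  have dF : ∀ y ∈ X, y ∉ Fs G X l := by
    intro y hy hyF
    obtain ⟨z, hz, hzy⟩ := pick1 (by omega : 2 ≤ X.ncard) y
    exact nl' y hy z hz hzy.symm (hyF z hz).symm
  have lC : ∀ y ∈ X, l y ∈ Cell G (Fs G X l) X y := h1 V G X l hG hS h5
  obtain ⟨Q, hQ, hrQ⟩ := hr
  have QC : ∀ q ∈ Q, q ∈ Cell G (Fs G X l) X x := fun q hq => ⟨Q, hQ, hq⟩
  have rX : ∀ y ∈ X, r ≠ y := fun y hy h => hQ.dX r hrQ (h ▸ hy)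
  have rlx : r ≠ l x := fun h => hfr (h ▸ hf x hx)
  have fl : ∀ y ∈ X, f ≠ l y := fun y hy h => cell_F (lC y hy) (h ▸ hf)
  have fX : ∀ y ∈ X, f ≠ y := fun y hy h => dF y hy (h ▸ hf)
  obtain ⟨K, hKs, hxK, cK, hKn⟩ := exists_comp G (A := insert x Q \ {r}) (v := x)
    ⟨Or.inl rfl, fun h => rX x hx (show x = r from h).symm⟩
  obtain ⟨k, hk, hkr⟩ : ∃ k ∈ K, G.Adj k r := by
    by_contra hcon
    push Not at hcon
    have cI : Conn G (insert x Q) := by
      obtain ⟨q, hq, hqx⟩ := hQ.tx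
      exact hQ.con.insert ⟨q, hq, hqx⟩
    have e : K = insert x Q := by
      refine cI.eq_of_nb (hKs.trans Set.sdiff_subset) ⟨x, hxK⟩ fun v hv hvn => ?_
      by_cases hvr : v = r
      · subst hvr
        obtain ⟨-, k, hk, h⟩ := hvn
        exact hcon k hk h
      · exact hKn v ⟨hv, hvr⟩ hvn
    exact (hKs (e ▸ Or.inr hrQ : r ∈ K)).2 rfl
  have Kc : ∀ k ∈ K, k = x ∨ k ∈ Cell G (Fs G X l) X x := by
    intro k hk
    rcases (hKs hk).1 with h | h
    · exact Or.inl h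
    · exact Or.inr (QC k h)
  -- `K` and the cell of another vertex
  have Kl : ∀ y ∈ X, y ≠ x → ∀ k ∈ K, l y ≠ k ∧ ¬ G.Adj (l y) k := by
    intro y hy hyx k hk
    rcases Kc k hk with rfl | h
    · exact ⟨lX y hy _ hx, nl' _ hx y hy hyx.symm⟩
    · exact cell_dis dF hy hx hyx (lC y hy) h
  have Kf : ∀ k ∈ K, f ≠ k := by
    intro k hk h
    rcases Kc k hk with h' | h'
    · exact fX x hx (h.trans h')
    · exact cell_F h' (h ▸ hf)
  have KX : ∀ k ∈ K, ∀ y ∈ X, y ≠ x → k ≠ y := by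
    intro k hk y hy hyx h
    rcases Kc k hk with h' | h'
    · exact hyx (h.symm.trans h')
    · exact cell_X h' (h ▸ hy)
  have li : ∀ x ∈ X, ∀ y ∈ X, x ≠ y → l x ≠ l y := fun x hx y hy h =>
    (cell_dis dF hx hy h (lC x hx) (lC y hy)).1
  have rl : ∀ y ∈ X, y ≠ x → r ≠ l y ∧ ¬ G.Adj r (l y) := fun y hy hyx =>
    cell_dis dF hx hy hyx.symm (QC r hrQ) (lC y hy)
  have rn : ∀ y ∈ X, y ≠ x → ¬ G.Adj r y := fun y hy hyx h =>
    hyx (cell_x dF hy (QC r hrQ) h.symm)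
  obtain ⟨z, hz, hzx⟩ := pick1 (by omega : 2 ≤ X.ncard) x
  obtain ⟨w, hw, hwx, hwz⟩ := pick2 (by omega : 3 ≤ X.ncard) x z
  obtain ⟨u, hu, hux, huz, huw⟩ := pick3 (by omega : 4 ≤ X.ncard) x z w
  have cR : Conn G ({z, w, l w} : Set V) := by
    have e : ({z, w, l w} : Set V) = insert z {w, l w} := rfl
    rw [e]
    exact (Conn.pair (leg w hw)).insert ⟨w, Or.inl rfl, adj w hw z hz hwz⟩
  have cQ : Conn G (K ∪ {l x}) := cK.union (Conn.singleton _ _)
    (Or.inr ⟨x, hxK, l x, rfl, leg x hx⟩)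
  refine mdlV hG (P := {f}) (Q := K ∪ {l x}) (R := {z, w, l w}) (x := l u) (y := r) (z := l z)
    (Conn.singleton _ _) cQ cR ?_ ?_ ?_ (fun h => fl u hu (show l u = f from h).symm) ?_ ?_
    (fun h => cell_F (QC r hrQ) (by rw [show r = f from h]; exact hf)) ?_ ?_
    (fun h => fl z hz (show l z = f from h).symm) ?_ ?_
    ⟨f, rfl, l x, Or.inr rfl, hf x hx⟩ ⟨f, rfl, l w, Or.inr (Or.inr rfl), hf w hw⟩
    ⟨x, Or.inl hxK, z, Or.inl rfl, adj x hx z hz hzx.symm⟩ ⟨f, rfl, (hf u hu).symm⟩ ?_ ?_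
    ⟨k, Or.inl hk, hkr.symm⟩ ?_ ?_ ⟨f, rfl, (hf z hz).symm⟩ ⟨z, Or.inl rfl, (leg z hz).symm⟩ ?_
    (fun h => (rl u hu hux).2 h.symm) (hS.ll u hu z hz) (rl z hz hzx).2
  · rw [Set.disjoint_singleton_left]
    rintro (h | h)
    · exact Kf f h rfl
    · exact fl x hx h
  · rw [Set.disjoint_singleton_left]
    rintro (h | h | h)
    · exact fX z hz h
    · exact fX w hw h
    · exact fl w hw h
  · rw [Set.disjoint_left]
    rintro v (hv | hv) (h | h | h)
    · exact KX v hv z hz hzx h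
    · exact KX v hv w hw hwx h
    · exact (Kl w hw hwx v hv).1 h.symm
    · exact lX x hx z hz ((show v = l x from hv).symm.trans h)
    · exact lX x hx w hw ((show v = l x from hv).symm.trans h)
    · exact li x hx w hw hwx.symm ((show v = l x from hv).symm.trans h)
  · rintro (h | h)
    · exact (Kl u hu hux _ h).1 rfl
    · exact li u hu x hx hux h
  · rintro (h | h | h)
    · exact lX u hu z hz h
    · exact lX u hu w hw h
    · exact li u hu w hw huw h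
  · rintro (h | h)
    · exact (hKs h).2 rfl
    · exact rlx h
  · rintro (h | h | h)
    · exact rX z hz h
    · exact rX w hw h
    · exact (rl w hw hwx).1 h
  · rintro (h | h)
    · exact (Kl z hz hzx _ h).1 rfl
    · exact li z hz x hx hzx h
  · rintro (h | h | h)
    · exact lX z hz z hz h
    · exact lX z hz w hw h
    · exact li z hz w hw hwz.symm h
  · rintro p (hp | rfl)
    · exact (Kl u hu hux p hp).2
    · exact hS.ll u hu x hx
  · rintro _ (rfl | rfl | rfl)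
    · exact nl' _ hz u hu huz.symm
    · exact nl' _ hw u hu huw.symm
    · exact hS.ll u hu _ hw
  · rintro _ rfl h
    exact hfr h.symm
  · rintro _ (rfl | rfl | rfl)
    · exact rn _ hz hzx
    · exact rn _ hw hwx
    · exact (rl _ hw hwx).2
  · rintro p (hp | rfl)
    · exact (Kl z hz hzx p hp).2
    · exact hS.ll z hz x hx

end Pool.Agent.MPd439b2.H1T
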