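import Pool.Agent.Lib.MP_d439b2_co.X3.H1T.Spec

/-!
# MP_d439b2_co, X3/H1T, FW: the base and the vertices which see exactly one element of the clique
-/

set_option autoImplicit false

namespace Pool.Agent.MPd439b2.H1T

open Pool.Agent.MPd439b2

theorem tFW (h1 : S_Leg) (h2 : S_FL) : S_FW := by
  intro V _ G X l hG hS h5 v hvX hvF x hx hvx huni f hf
  by_cases hvC : v ∈ Cell G (Fs G X l) X x
  · exact h2 V G X l hG hS h5 x hx v hvC f hf
  by_contra hfv
  have adj : ∀ x ∈ X, ∀ y ∈ X, x ≠ y → G.Adj x y := hS.cl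
  have leg : ∀ x ∈ X, G.Adj x (l x) := fun x hx => (hS.xl x hx x hx).mpr rfl
  have nl' : ∀ x ∈ X, ∀ y ∈ X, x ≠ y → ¬ G.Adj (l y) x := fun x hx y hy h h' =>
    h ((hS.xl x hx y hy).mp h'.symm)
  have lX : ∀ x ∈ X, ∀ y ∈ X, l x ≠ y := fun x hx y hy h => hS.nx x hx (h ▸ hy)
  have dF : ∀ y ∈ X, y ∉ Fs G X l := by
    intro y hy hyF
    obtain ⟨z, hz, hzy⟩ := pick1 (by omega : 2 ≤ X.ncard) y
    exact nl' y hy z hz hzy.symm (hyF z hz).symm
  have lC : ∀ y ∈ X, l y ∈ Cell G (Fs G X l) X y := h1 V G X l hG hS h5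
  have li : ∀ x ∈ X, ∀ y ∈ X, x ≠ y → l x ≠ l y := fun x hx y hy h =>
    (cell_dis dF hx hy h (lC x hx) (lC y hy)).1
  have fl : ∀ y ∈ X, f ≠ l y := fun y hy h => cell_F (lC y hy) (h ▸ hf)
  have fX : ∀ y ∈ X, f ≠ y := fun y hy h => dF y hy (h ▸ hf)
  have vC : ∀ y ∈ X, v ∉ Cell G (Fs G X l) X y := by
    intro y hy h
    by_cases hyx : y = x
    · exact hvC (hyx ▸ h)
    · exact hyx (cell_x dF hx h hvx.symm).symm
  have vl : ∀ y ∈ X, v ≠ l y ∧ ¬ G.Adj v (l y) := by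
    intro y hy
    refine ⟨fun h => vC y hy (h ▸ lC y hy), fun h => ?_⟩
    rcases cell_nb (lC y hy) h.symm with h' | h' | h'
    · exact vC y hy h'
    · exact hvF h'
    · exact hvX (h' ▸ hy)
  have vX : ∀ y ∈ X, v ≠ y := fun y hy h => hvX (h ▸ hy)
  obtain ⟨z, hz, hzx⟩ := pick1 (by omega : 2 ≤ X.ncard) x
  obtain ⟨u, hu, hux, huz⟩ := pick2 (by omega : 3 ≤ X.ncard) x z
  obtain ⟨w, hw, hwx, hwz, hwu⟩ := pick3 (by omega : 4 ≤ X.ncard) x z u
  have cR : Conn G ({z, u, l u} : Set V) := by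
    have e : ({z, u, l u} : Set V) = insert z {u, l u} := rfl
    rw [e]
    exact (Conn.pair (leg u hu)).insert ⟨u, Or.inl rfl, adj u hu z hz huz⟩
  refine mdlV hG (P := {f}) (Q := {x, l x}) (R := {z, u, l u}) (x := l w) (y := v) (z := l z)
    (Conn.singleton _ _) (Conn.pair (leg x hx)) cR ?_ ?_ ?_
    (fun h => fl w hw (show l w = f from h).symm) ?_ ?_
    (fun h => hvF (by rw [show v = f from h]; exact hf)) ?_ ?_
    (fun h => fl z hz (show l z = f from h).symm) ?_ ?_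
    ⟨f, rfl, l x, Or.inr rfl, hf x hx⟩ ⟨f, rfl, l u, Or.inr (Or.inr rfl), hf u hu⟩
    ⟨x, Or.inl rfl, z, Or.inl rfl, adj x hx z hz hzx.symm⟩ ⟨f, rfl, (hf w hw).symm⟩ ?_ ?_
    ⟨x, Or.inl rfl, hvx⟩ ?_ ?_ ⟨f, rfl, (hf z hz).symm⟩ ⟨z, Or.inl rfl, (leg z hz).symm⟩ ?_
    (fun h => (vl w hw).2 h.symm) (hS.ll w hw z hz) (vl z hz).2
  · rw [Set.disjoint_singleton_left]
    rintro (h | h)
    · exact fX x hx h
    · exact fl x hx h
  · rw [Set.disjoint_singleton_left]
    rintro (h | h | h)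
    · exact fX z hz h
    · exact fX u hu h
    · exact fl u hu h
  · rw [Set.disjoint_left]
    rintro _ (rfl | rfl) (h | h | h)
    · exact hzx h.symm
    · exact hux h.symm
    · exact lX u hu _ hx h.symm
    · exact lX x hx z hz h
    · exact lX x hx u hu h
    · exact li x hx u hu hux.symm h
  · rintro (h | h)
    · exact lX w hw x hx h
    · exact li w hw x hx hwx h
  · rintro (h | h | h)
    · exact lX w hw z hz h
    · exact lX w hw u hu h
    · exact li w hw u hu hwu h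
  · rintro (h | h)
    · exact vX x hx h
    · exact (vl x hx).1 h
  · rintro (h | h | h)
    · exact vX z hz h
    · exact vX u hu h
    · exact (vl u hu).1 h
  · rintro (h | h)
    · exact lX z hz x hx h
    · exact li z hz x hx hzx h
  · rintro (h | h | h)
    · exact lX z hz z hz h
    · exact lX z hz u hu h
    · exact li z hz u hu huz.symm h
  · rintro _ (rfl | rfl)
    · exact nl' _ hx w hw hwx.symm
    · exact hS.ll w hw x hx
  · rintro _ (rfl | rfl | rfl)
    · exact nl' _ hz w hw hwz.symm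
    · exact nl' _ hu w hw hwu.symm
    · exact hS.ll w hw _ hu
  · rintro _ rfl h
    exact hfv h.symm
  · rintro _ (rfl | rfl | rfl)
    · exact fun h => hzx (huni _ hz h)
    · exact fun h => hux (huni _ hu h)
    · exact (vl _ hu).2
  · rintro _ (rfl | rfl)
    · exact nl' _ hx z hz hzx.symm
    · exact hS.ll z hz x hx

end Pool.Agent.MPd439b2.H1T
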