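import Pool.Agent.Lib.MP_d439b2_co.X3.H1T.Spec

/-!
# MP_d439b2_co, X3/H1T: the legs are in the cells (helper25, task 12310)
-/

set_option autoImplicit false

namespace Pool.Agent.MPd439b2.H1T

open Pool.Agent.MPd439b2

theorem tLeg (h1 : S_Tab) (h2 : S_One) : S_Leg := by
  intro V _ G X l hG hS h5 x hx
  have hlF : ∀ y ∈ X, l y ∉ Fs G X l := fun y hy h => hS.ll y hy y hy (h y hy)
  have hXF : ∀ y ∈ X, y ∉ Fs G X l := by
    intro y hy h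
    obtain ⟨z, hz, hzy⟩ := pick1 (by omega : 2 ≤ X.ncard) y
    exact hzy ((hS.xl y hy z hz).1 (h z hz)).symm
  obtain ⟨A, hA⟩ : ∃ A : Set V, ∀ v, v ∈ A ↔ v ∉ Fs G X l ∧ v ∉ X ∧ ∀ y ∈ X, y ≠ x → v ≠ l y :=
    ⟨{v | v ∉ Fs G X l ∧ v ∉ X ∧ ∀ y ∈ X, y ≠ x → v ≠ l y}, fun v => Iff.rfl⟩
  have hlx : l x ∈ A := (hA _).2 ⟨hlF x hx, hS.nx x hx, fun y hy hyx h =>
    hyx ((hS.xl x hx y hy).1 (h ▸ (hS.xl x hx x hx).2 rfl)).symm⟩
  obtain ⟨Q, hQA, hxQ, hQ, hQn⟩ := exists_comp G hlx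
  have claim : ∀ q ∈ Q, ∀ y ∈ X, y ≠ x → ¬ G.Adj q (l y) ∧ ¬ G.Adj q y := by
    intro q hq y hy hyx
    by_contra hcon
    have hql : q ≠ l x := by
      rintro rfl
      refine hcon ⟨hS.ll x hx y hy, fun h => hyx ?_⟩
      exact (hS.xl y hy x hx).1 h.symm
    have hqm : q ∈ Q \ {l x} := ⟨hq, hql⟩
    obtain ⟨K, hKQ, hqK, hK, hKn⟩ := exists_comp G hqm
    have htx : Tch G K {l x} := by
      by_contra hno
      have h3 : K = Q := by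
        refine hQ.eq_of_nb (fun v hv => (hKQ hv).1) ⟨q, hqK⟩ fun v hv hvn => ?_
        by_cases hvx : v = l x
        · subst hvx
          obtain ⟨a, ha, hav⟩ := hvn.2
          exact hno ⟨a, ha, l x, rfl, hav⟩
        · exact hKn v ⟨hv, hvx⟩ hvn
      rw [← h3] at hxQ
      exact (hKQ hxQ).2 rfl
    have hKA : ∀ v ∈ K, v ∈ A := fun v hv => hQA (hKQ hv).1
    have hKX : ∀ z ∈ X, z ∉ K ∧ l z ∉ K := by
      intro z hz
      refine ⟨fun h => ((hA z).1 (hKA z h)).2.1 hz, fun h => ?_⟩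
      by_cases hzx : z = x
      · subst hzx
        exact (hKQ h).2 rfl
      · exact ((hA (l z)).1 (hKA (l z) h)).2.2 z hz hzx rfl
    have hone := h2 V G X l K hG hS h5 hK hKX fun v hv => ((hA v).1 (hKA v hv)).1
    have hny : ¬ Tch G K {l y} := fun h => hyx (hone x hx y hy htx h).symm
    refine hcon ⟨fun h => hny ⟨q, hqK, l y, rfl, h⟩, fun h => hyx ?_⟩
    exact (h1 V G X l K hG hS h5 hK hKX).2.1 ⟨y, hy, hny⟩ x hx y hy htx ⟨q, hqK, y, rfl, h⟩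
  refine ⟨Q, ⟨hQ, fun q hq => ((hA q).1 (hQA hq)).1, fun q hq => ((hA q).1 (hQA hq)).2.1, ?_,
    l x, hxQ, ((hS.xl x hx x hx).2 rfl).symm⟩, hxQ⟩
  intro q hq u hqu
  by_cases hu1 : u ∈ Q
  · exact Or.inl hu1
  by_cases hu2 : u ∈ Fs G X l
  · exact Or.inr (Or.inl hu2)
  refine Or.inr (Or.inr ?_)
  by_contra hux
  by_cases hu3 : u ∈ X
  · exact (claim q hq u hu3 hux).2 hqu
  · have hu4 : u ∈ A := (hA u).2 ⟨hu2, hu3, fun y hy hyx h => (claim q hq y hy hyx).1 (h ▸ hqu)⟩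
    exact hQn u hu4 ⟨hu1, q, hq, hqu⟩

end Pool.Agent.MPd439b2.H1T
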