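import Pool.Agent.Lib.MP_d439b2_co.X3.H1T.Spec

/-!
# MP_d439b2_co, X3/H1T: Lf (helper68)
-/

set_option autoImplicit false

namespace Pool.Agent.MPd439b2.H1T

open Pool.Agent.MPd439b2

theorem tLf (hFew : S_Few) (hSv : S_Sv) : S_Lf := by
  intro t b
  obtain ⟨N, hN⟩ := hFew t b 1
  refine ⟨N * b, ?_⟩
  intro n V _ G SS κ lg E π hπ p hp
  obtain ⟨hXS, hleg, -, -⟩ := hSv V G t b n SS κ lg E
  classical
  set S := Sv G SS κ with hS
  have hP : ON.Pt S {p} (S \ {p}) := by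
    refine ⟨?_, Set.disjoint_sdiff_right⟩
    rw [Set.union_diff_self]
    exact Set.union_eq_self_of_subset_left (Set.singleton_subset_iff.2 hp)
  have hrk : LK.rk G {p} (S \ {p}) ≤ 1 := by
    have h := (LK.a1 V G).2.2.2.1 {p} (S \ {p})
    rwa [Set.ncard_singleton] at h
  have hBF := hN n V G SS κ lg E {p} (S \ {p}) hP hrk
  set T := BF SS κ lg {p} (S \ {p}) with hT
  -- the cells at `p`
  let C : Set V → Set V := fun F => {v | ∃ s ∈ SS, s.1 = F ∧ p ∈ s.2 ∧ v ∈ Cell G s.1 s.2 p}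
  have hC : ∀ F, (C F).ncard ≤ b := by
    intro F
    by_cases h : ∃ s ∈ SS, s.1 = F ∧ p ∈ s.2
    · obtain ⟨s, hs, hsF, hps⟩ := h
      have h1 : C F ⊆ Cell G s.1 s.2 p := by
        rintro v ⟨s', hs', hsF', hps', hv⟩
        have h2 : s' = s := E.un s' hs' s hs (hsF'.trans hsF.symm) ⟨p, hps', hps⟩
        subst h2
        exact hv
      exact (Set.ncard_le_ncard h1 (Set.toFinite _)).trans ((E.hs s hs).sm p hps)
    · have h1 : C F = ∅ := by
        rw [Set.eq_empty_iff_forall_notMem]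
        rintro v ⟨s, hs, hsF, hps, -⟩
        exact h ⟨s, hs, hsF, hps⟩
      rw [h1, Set.ncard_empty]
      exact Nat.zero_le _
  have hTf : T.Finite := Set.toFinite _
  have hsub : ({v | v ∉ S ∧ π v = p} : Set V) ⊆
      ((hTf.toFinset.biUnion fun F => (Set.toFinite (C F)).toFinset : Finset V) : Set V) := by
    rintro v ⟨hv, hvp⟩
    obtain ⟨s, hR⟩ := hπ.1 v hv
    rw [hvp] at hR
    rw [Finset.mem_coe, Finset.mem_biUnion]
    refine ⟨s.1, ?_, ?_⟩
    · rw [Set.Finite.mem_toFinset]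
      refine ⟨s, hR.1, rfl, ⟨p, rfl, hR.2.1, hR.2.2.1⟩, 0, by norm_num, 1, by norm_num,
        by norm_num, ⟨hleg s hR.1 0 (by norm_num), ?_⟩, ⟨hleg s hR.1 1 (by norm_num), ?_⟩⟩
      · intro h
        rw [Set.mem_singleton_iff] at h
        exact cell_X (E.lC s hR.1 0 (by norm_num)) (h ▸ hR.2.1)
      · intro h
        rw [Set.mem_singleton_iff] at h
        exact cell_X (E.lC s hR.1 1 (by norm_num)) (h ▸ hR.2.1)
    · rw [Set.Finite.mem_toFinset]
      exact ⟨s, hR.1, rfl, hR.2.1, hR.2.2.2⟩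
  refine (Set.ncard_le_ncard hsub (Finset.finite_toSet _)).trans ?_
  rw [Set.ncard_coe_finset]
  refine (Finset.card_biUnion_le_card_mul _ _ b fun F _ => ?_).trans ?_
  · rw [← Set.ncard_eq_toFinset_card]
    exact hC F
  · rw [← Set.ncard_eq_toFinset_card]
    exact Nat.mul_le_mul_right _ hBF

end Pool.Agent.MPd439b2.H1T
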