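import Pool.Agent.Lib.MP_d439b2_co.X3.H1T.Spec

/-!
# MP_d439b2_co, X3/H1T: Mx (helper68)
-/

set_option autoImplicit false

namespace Pool.Agent.MPd439b2.H1T

open Pool.Agent.MPd439b2

theorem tMx (h1 : S_Leg) : S_Mx := by
  intro V _ G n X l hG h5 hn hS
  set F := Fs G X l with hF
  have hTf : ({X' | Hb G n F X' ∧ X ⊆ X'} : Set (Set V)).Finite := Set.toFinite _
  obtain ⟨X', hX', hmax⟩ := hTf.exists_maximal ⟨X, ⟨hn, l, hS, rfl⟩, le_refl X⟩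
  refine ⟨X', ⟨hX'.1, fun X'' h'' hsub => ?_⟩, hX'.2, ?_⟩
  · exact Set.Subset.antisymm (hmax ⟨h'', hX'.2.trans hsub⟩ hsub) hsub
  · intro x hx
    obtain ⟨Q, hQ, hlQ⟩ := h1 V G X l hG hS (h5.trans hn) x hx
    obtain ⟨-, l', hS', -⟩ := hX'.1
    refine ⟨Q, ⟨hQ.con, hQ.dF, ?_, hQ.nb, hQ.tx⟩, hlQ⟩
    intro q hq hqX'
    obtain ⟨y, hy, hyx⟩ := pick1 (X := X) (by omega) x
    have hqX : q ∉ X := hQ.dX q hq
    have hqy : q ≠ y := fun h => hqX (h ▸ hy)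
    rcases hQ.nb q hq y (hS'.cl q hqX' y (hX'.2 hy) hqy) with h | h | h
    · exact hQ.dX y h hy
    · exact hyx ((hS.xl y hy x hx).1 (h x hx))
    · exact hyx h

end Pool.Agent.MPd439b2.H1T
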