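import Pool.Agent.Lib.MP_d439b2_co.X3.H1T.Spec

/-!
# MP_d439b2_co, X3/H1T/Ne: the base is not complete to the clique without one element (helper59)
-/

set_option autoImplicit false

namespace Pool.Agent.MPd439b2.H1T

open Pool.Agent.MPd439b2

theorem tNe (h1 : S_FL) (h2 : S_Tr) : S_Ne := by
  intro V _ G b r X l hM hG hS hX5 hBd hXn x
  by_contra hcon
  set F := Fs G X l with hF
  have hco : ∀ f ∈ F, ∀ y ∈ X, y ≠ x → G.Adj f y := by
    intro f hf y hy hyx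
    by_contra hfy
    exact hcon ⟨f, hf, y, hy, hyx, hfy⟩
  have hXF : ∀ y ∈ X, y ∉ F := by
    intro y hy h
    obtain ⟨z, hz, hzy⟩ := pick1 (X := X) (by omega) y
    exact hzy ((hS.xl y hy z hz).1 (h z hz)).symm
  have hFL := h1 V G X l hG hS hX5
  have hTr := h2 V G X l hG hS hX5
  -- the set `I`
  obtain ⟨I, hIs, hIc⟩ : ∃ I ⊆ X \ insert x (Bd G F X), I.ncard = b + 1 := by
    refine Set.exists_subset_card_eq ?_
    have h3 := Set.ncard_insert_le x (Bd G F X)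
    have h4 := Set.le_ncard_diff (insert x (Bd G F X)) X
    omega
  have hIX : ∀ i ∈ I, i ∈ X := fun i hi => (hIs hi).1
  have hIx : ∀ i ∈ I, i ≠ x := fun i hi h => (hIs hi).2 (Or.inl h)
  have hIB : ∀ i ∈ I, i ∉ Bd G F X := fun i hi h => (hIs hi).2 (Or.inr h)
  obtain ⟨i₀, hi₀⟩ : I.Nonempty := by
    rw [← Set.ncard_pos (Set.toFinite I)]
    omega
  set Y : Set V := {v | v ∈ I ∨ ∃ i ∈ I, v ∈ Cell G F X i} with hY
  have hrow : ∀ v, v ∉ Y → ∀ i ∈ I, ∀ i' ∈ I, G.Adj i v → G.Adj i' v := by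
    intro v hv i hi i' hi' h
    by_cases hvX : v ∈ X
    · exact hS.cl i' (hIX i' hi') v hvX (fun h3 => hv (Or.inl (h3 ▸ hi')))
    · by_cases hvF : v ∈ F
      · exact (hco v hvF i' (hIX i' hi') (hIx i' hi')).symm
      · rcases hTr v hvX hvF with h3 | h3
        · exfalso
          refine hIB i hi ⟨hIX i hi, v, hvX, hvF, fun h4 => hv (Or.inr ⟨i, hi, h4⟩), h.symm,
            fun y hy hvy => h3 y hy i (hIX i hi) hvy h.symm⟩
        · exact (h3 i' (hIX i' hi')).symm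
  have hcr : LK.cr G Y ≤ 2 := by
    refine le_trans ((LK.a1 V G).2.2.2.2.2 Y Yᶜ {{v | v ∈ Yᶜ ∧ v ∈ F}, {v | v ∈ Yᶜ ∧ G.Adj i₀ v}}
      ?_) ?_
    · rintro v (hv | ⟨i, hi, hv⟩)
      · left
        refine Or.inr (Set.ext fun w => ⟨fun h => ⟨h.1, hrow w h.1 v hv i₀ hi₀ h.2⟩,
          fun h => ⟨h.1, hrow w h.1 i₀ hi₀ v hv h.2⟩⟩)
      · left
        refine Or.inl (Set.ext fun w => ⟨fun h => ⟨h.1, ?_⟩, fun h => ⟨h.1, ?_⟩⟩)
        · rcases cell_nb hv h.2 with h3 | h3 | h3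
          · exact absurd (Or.inr ⟨i, hi, h3⟩) h.1
          · exact h3
          · exact absurd (Or.inl (h3 ▸ hi)) h.1
        · exact (hFL i (hIX i hi) v hv w h.2).symm
    · refine (Set.ncard_insert_le _ _).trans ?_
      rw [Set.ncard_singleton]
  rcases hM Y hcr with h3 | h3
  · have h4 : I ⊆ Y := fun i hi => Or.inl hi
    have h5 := Set.ncard_le_ncard h4 (Set.toFinite _)
    omega
  · have h4 : X \ I ⊆ Yᶜ := by
      rintro v ⟨hv, hvI⟩ (h | ⟨i, hi, h⟩)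
      · exact hvI h
      · exact cell_X h hv
    have h5 := Set.ncard_le_ncard h4 (Set.toFinite _)
    have h6 := Set.le_ncard_diff I X
    omega

end Pool.Agent.MPd439b2.H1T
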