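import Pool.Agent.Lib.MP_d439b2_co.X3.H1T.Spec
import Pool.Agent.Lib.MP_d439b2_co.B.Grow

/-!
# MP_d439b2_co, X3/H1T, One: connected sets outside the base touch at most one leg
-/

set_option autoImplicit false

namespace Pool.Agent.MPd439b2.H1T

open Pool.Agent.MPd439b2

theorem tOne (h1 : S_Tab) : S_One := by
  intro V _ G X l S hG hS h5 cS hdis hF
  have key : ∀ n : ℕ, ∀ S : Set V, S.ncard = n → Conn G S → (∀ x ∈ X, x ∉ S ∧ l x ∉ S) →
      (∀ v ∈ S, v ∉ Fs G X l) → ∀ x ∈ X, ∀ y ∈ X, Tch G S {l x} → Tch G S {l y} → x = y := by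
    intro n
    induction n using Nat.strong_induction_on with
    | _ n ih =>
      intro S hn cS hdis hF x hx y hy tx ty
      by_contra hxy
      have hall : ∀ x ∈ X, Tch G S {l x} := by
        rcases (h1 V G X l S hG hS h5 cS hdis).1 with h | h
        · exact h
        · exact absurd (h x hx y hy tx ty) hxy
      obtain ⟨u, hu⟩ := cS.1
      by_cases hSu : S = {u}
      · refine hF u hu fun x hx => ?_
        obtain ⟨s, hs, _, rfl, h⟩ := hall x hx
        rw [hSu] at hs
        rw [show s = u from hs] at h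
        exact h
      · obtain ⟨v, hv, hvu, cv⟩ := growAux.shrink G S u cS hu hSu
        have lt : (S \ {v}).ncard < n := by
          rw [← hn]
          exact Set.ncard_sdiff_singleton_lt_of_mem hv (Set.toFinite _)
        have i1 := ih _ lt (S \ {v}) rfl cv
          (fun x hx => ⟨fun h => (hdis x hx).1 h.1, fun h => (hdis x hx).2 h.1⟩)
          (fun w hw => hF w hw.1)
        have i2 : ∀ x ∈ X, ∀ y ∈ X, Tch G {v} {l x} → Tch G {v} {l y} → x = y := by
          rcases (h1 V G X l {v} hG hS h5 (Conn.singleton _ _) (fun x hx =>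
            ⟨fun h => (hdis x hx).1 (h ▸ hv), fun h => (hdis x hx).2 (h ▸ hv)⟩)).1 with h | h
          · refine absurd (fun x hx => ?_) (hF v hv)
            obtain ⟨s, rfl, _, rfl, h'⟩ := h x hx
            exact h'
          · exact h
        have spl : ∀ x ∈ X, Tch G (S \ {v}) {l x} ∨ Tch G {v} {l x} := by
          intro x hx
          obtain ⟨s, hs, w, hw, h⟩ := hall x hx
          by_cases hsv : s = v
          · exact Or.inr ⟨s, hsv, w, hw, h⟩
          · exact Or.inl ⟨s, ⟨hs, hsv⟩, w, hw, h⟩
        obtain ⟨z, hz, hzx, hzy⟩ := pick2 (by omega : 3 ≤ X.ncard) x y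
        rcases spl x hx with a | a <;> rcases spl y hy with b | b <;> rcases spl z hz with c | c
        · exact hxy (i1 x hx y hy a b)
        · exact hxy (i1 x hx y hy a b)
        · exact hzx (i1 z hz x hx c a)
        · exact hzy (i2 z hz y hy c b)
        · exact hzy (i1 z hz y hy c b)
        · exact hzx (i2 z hz x hx c a)
        · exact hxy (i2 x hx y hy a b)
        · exact hxy (i2 x hx y hy a b)
  exact key _ S rfl cS hdis hF

end Pool.Agent.MPd439b2.H1T
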