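import Pool.Agent.Lib.MP_d439b2_co.X3.H1T.Spec

/-!
# MP_d439b2_co, X3/H1T: Pz (helper68)
-/

set_option autoImplicit false

namespace Pool.Agent.MPd439b2.H1T

open Pool.Agent.MPd439b2

theorem tPz : S_Pz := by
  intro c m V _ G A B y z k k' hm h3 hc hAB hadj hz hA hyz hzk hzk' hzz
  obtain ⟨u, l, hul⟩ := hA
  have h01 := hul 0 1 (by norm_num) (by omega)
  have h12 := hul 1 2 (by norm_num) (by omega)
  have hlu : l ↔ u := h01.2.symm.trans h12.1
  have hall : ∀ i < m, (z i ∈ A ↔ u) := by
    intro i hi
    rcases Nat.eq_zero_or_pos i with h | h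
    · subst h
      exact h01.1
    · exact (hul 0 i h hi).2.trans hlu
  by_cases hu : u
  · -- all in `A`
    have hk := rk_hg hm hc (f := z) (g := k) (d := True) (fun i hi => (hall i hi).2 hu)
      (fun i hi => (hAB i hi).2.1) (fun i hi => iff_of_true (hadj i hi).2.1 trivial) hzk
    obtain ⟨e, e', he⟩ := hzz
    by_cases h0 : z 0 = z 1
    · have he1 : e := (he 0 1 (by norm_num) (by omega)).1.1 h0
      have hzeq : ∀ i < m, ∀ j < m, z i = z j := by
        intro i hi j hj
        rcases lt_trichotomy i j with h | h | h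
        · exact (he i j h hj).1.2 he1
        · rw [h]
        · exact ((he j i h hi).1.2 he1).symm
      intro i hi j hj _
      rw [hzeq j hj i hi]
      exact (hadj i hi).1
    · exfalso
      have hk' := rk_hg hm hc (f := z) (g := k') (d := False) (fun i hi => (hall i hi).2 hu)
        (fun i hi => (hAB i hi).2.2.1) (fun i hi => iff_of_false (hadj i hi).2.2 id) hzk'
      have h1 : G.Adj (z 0) (k 1) := (hk 0 (by omega) 1 (by omega)).2 trivial
      rcases hz 0 (by omega) 1 (by omega) (by norm_num) h1 with h | h
      · exact h0 h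
      · exact (hk' 0 (by omega) 1 (by omega)).1 h
  · have hB : ∀ i < m, z i ∈ B := by
      intro i hi
      rcases (hAB i hi).2.2.2 with h | h
      · exact absurd ((hall i hi).1 h) hu
      · exact h
    intro i hi j hj _
    exact (rk_hg hm hc (f := y) (g := z) (d := True) (fun i hi => (hAB i hi).1) hB
      (fun i hi => iff_of_true (hadj i hi).1 trivial) hyz i hi j hj).2 trivial

end Pool.Agent.MPd439b2.H1T
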