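import Pool.Agent.Lib.MP_d439b2_co.X3.H1T.Spec

/-!
# MP_d439b2_co, X3/H1T: R1 (helper68)
-/

set_option autoImplicit false

namespace Pool.Agent.MPd439b2.H1T

open Pool.Agent.MPd439b2

theorem tR1 : S_R1 := by
  intro V _ G t b n SS κ lg E π hπ A B hP
  refine (rk_le_rows G _ B).trans (Set.ncard_le_ncard ?_ (Set.toFinite _))
  rintro P ⟨v, ⟨hv, hvA⟩, rfl⟩
  obtain ⟨s, hR⟩ := hπ.1 v hv
  refine ⟨s, hR.1, π v, hR.2.1, hR.2.2.1, hvA, ?_⟩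
  ext w
  constructor
  · rintro ⟨hw, hvw⟩
    rcases cell_nb hR.2.2.2 hvw with h | h | h
    · exfalso
      have : w ∈ Sv G SS κ := by
        rw [← hP.1]
        exact Or.inr hw
      exact this s (π v) ⟨hR.1, hR.2.1, hR.2.2.1, h⟩
    · exact ⟨h, hw⟩
    · exact absurd hw (Set.disjoint_left.1 hP.2 (h ▸ hvA))
  · rintro ⟨hw1, hw⟩
    exact ⟨hw, ((E.hs s hR.1).FL (π v) hR.2.1 v hR.2.2.2 w hw1).symm⟩

end Pool.Agent.MPd439b2.H1T
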