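import Pool.Agent.Lib.MP_d439b2_co.X3.H1T.Spec

/-!
# MP_d439b2_co, X3/H1T/R2: removed rows on removed columns (helper59)
-/

set_option autoImplicit false

namespace Pool.Agent.MPd439b2.H1T

open Pool.Agent.MPd439b2

namespace R2Aux

variable {V : Type} {G : SimpleGraph V} {t b n : ℕ} {SS : Set (Set V × Set V)}
  {κ lg : Set V × Set V → ℕ → V}

/-- the fact (*) -/
theorem star (hE : EnS G t b n SS κ lg) {π : V → V} (hπ : IsPl G SS κ π) {v w : V}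
    {s : Set V × Set V} (hv : Rv G SS κ s (π v) v) (hvS : v ∉ Sv G SS κ) (hwS : w ∉ Sv G SS κ)
    (hne : π v ≠ π w) : G.Adj v w ↔ w ∈ s.1 := by
  obtain ⟨hs, hx, hκ, hc⟩ := hv
  constructor
  · intro h
    rcases cell_nb hc h with h1 | h1 | h1
    · obtain ⟨s', hs', hx', hκ', hc'⟩ := hπ.1 w hwS
      exact absurd (hE.dc s hs s' hs' (π v) hx (π w) hx' w h1 hc').2 hne
    · exact h1
    · exact absurd (h1 ▸ hπ.2 v hvS : w ∈ Sv G SS κ) hwS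
  · intro h
    exact ((hE.hs s hs).FL (π v) hx v hc w h).symm

end R2Aux

theorem tR2 (h1 : S_Sv) : S_R2 := by
  intro V _ G t b n SS κ lg hE π hπ A B hAB
  obtain ⟨hS1, hS2, hS3, hS4⟩ := h1 V G t b n SS κ lg hE
  obtain ⟨hAB1, hAB2⟩ := hAB
  have hdAB : ∀ v w : V, π v ∈ A → π w ∈ B → π v ≠ π w := fun v w hv hw h =>
    Set.disjoint_left.mp hAB2 hv (h ▸ hw)
  set T : Set V := {v | v ∉ Sv G SS κ ∧ π v ∈ A} with hT
  set T' : Set V := {v | v ∉ Sv G SS κ ∧ π v ∈ B} with hT'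
  set T₁ : Set V := {w | w ∈ T' ∧ ∃ (s' : Set V × Set V) (r : ℕ), Rv G SS κ s' (π w) w ∧ r < 3 ∧
    lg s' r ∈ B} with hT₁
  set T₂ : Set V := {w | w ∈ T' ∧ w ∉ T₁} with hT₂
  have hTT : T₁ ∪ T₂ = T' := by
    ext w
    constructor
    · rintro (h | h)
      · exact h.1
      · exact h.1
    · intro h
      by_cases h2 : w ∈ T₁
      · exact Or.inl h2
      · exact Or.inr ⟨h, h2⟩
  have ha1 := LK.a1 V G
  -- (a)
  have ha : LK.rk G T₂ T ≤ (BF SS κ lg B A).ncard := by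
    refine le_trans (ha1.2.2.2.2.2 T₂ T ((fun F => T ∩ F) '' BF SS κ lg B A) ?_)
      (Set.ncard_image_le (Set.toFinite _))
    intro w hw
    left
    obtain ⟨s', hs'⟩ := hπ.1 w hw.1.1
    have hleg : ∀ r < 3, lg s' r ∈ A := by
      intro r hr
      have h2 : lg s' r ∈ A ∪ B := hAB1 ▸ hS2 s' hs'.1 r hr
      rcases h2 with h2 | h2
      · exact h2
      · exact absurd ⟨hw.1, s', r, hs', hr, h2⟩ hw.2
    refine ⟨s'.1, ⟨s', hs'.1, rfl, ⟨π w, hw.1.2, hs'.2.1, hs'.2.2.1⟩, 0, by norm_num, 1,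
      by norm_num, by norm_num, hleg 0 (by norm_num), hleg 1 (by norm_num)⟩, ?_⟩
    ext v
    constructor
    · rintro ⟨hv, hv'⟩
      exact ⟨hv, (R2Aux.star hE hπ hs' hw.1.1 hv.1 (hdAB v w hv.2 hw.1.2).symm).2 hv'⟩
    · rintro ⟨hv, hv'⟩
      exact ⟨hv, (R2Aux.star hE hπ hs' hw.1.1 hv.1 (hdAB v w hv.2 hw.1.2).symm).1 hv'⟩
  -- (b)
  have hb : LK.rk G T T₁ ≤ (TB SS κ A B).ncard := by
    refine le_trans (ha1.2.2.2.2.2 T T₁ ((fun P => {w | w ∈ T₁ ∧ ∃ (s' : Set V × Set V) (r : ℕ),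
      Rv G SS κ s' (π w) w ∧ r < 3 ∧ lg s' r ∈ P}) '' TB SS κ A B) ?_)
      (Set.ncard_image_le (Set.toFinite _))
    intro v hv
    left
    obtain ⟨s, hs⟩ := hπ.1 v hv.1
    refine ⟨s.1 ∩ B, ⟨s, hs.1, π v, hs.2.1, hs.2.2.1, hv.2, rfl⟩, ?_⟩
    ext w
    constructor
    · rintro ⟨hw, s', r, hs', hr, hlr⟩
      refine ⟨hw, ?_⟩
      have hlc := hE.lC s' hs'.1 r hr
      have hne : s ≠ s' := by
        rintro rfl
        exact cell_F hlc hlr.1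
      have h2 : G.Adj v (lg s' r) := ((hE.hs s hs.1).FL (π v) hs.2.1 v hs.2.2.2 _ hlr.1).symm
      rcases hE.co s hs.1 s' hs'.1 hne with h3 | h3
      · exact h3 (π v) hs.2.1 (π w) hs'.2.1 v hs.2.2.2 w hs'.2.2.2
      · exact absurd h2 (h3 (π v) hs.2.1 (κ s' r) (hE.kX s' hs'.1 r hr) v hs.2.2.2 _ hlc)
    · rintro ⟨hw, hvw⟩
      refine ⟨hw, ?_⟩
      obtain ⟨hwT', s', r, hs', hr, hlr⟩ := hw
      refine ⟨s', r, hs', hr, ?_, hlr⟩
      have hws : w ∈ s.1 :=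
        (R2Aux.star hE hπ hs hv.1 hwT'.1 (hdAB v w hv.2 hwT'.2)).1 hvw
      have hne : s ≠ s' := by
        rintro rfl
        exact cell_F hs'.2.2.2 hws
      have hlc := hE.lC s' hs'.1 r hr
      rcases hE.co s hs.1 s' hs'.1 hne with h3 | h3
      · have h4 := h3 (π v) hs.2.1 (κ s' r) (hE.kX s' hs'.1 r hr) v hs.2.2.2 _ hlc
        rcases cell_nb hs.2.2.2 h4 with h5 | h5 | h5
        · exact absurd (hE.dc s hs.1 s' hs'.1 (π v) hs.2.1 (κ s' r) (hE.kX s' hs'.1 r hr) _ h5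
            hlc).1 hne
        · exact h5
        · exact absurd (h5 ▸ hlc) (hE.xc s hs.1 s' hs'.1 (π v) hs.2.1 (κ s' r)
            (hE.kX s' hs'.1 r hr))
      · exact absurd hvw (h3 (π v) hs.2.1 (π w) hs'.2.1 v hs.2.2.2 w hs'.2.2.2)
  rw [← hTT, ha1.1 T (T₁ ∪ T₂)]
  refine (ha1.2.2.1 T₁ T₂ T).trans ?_
  rw [ha1.1 T₁ T]
  exact Nat.add_le_add hb ha

end Pool.Agent.MPd439b2.H1T
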