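import Pool.Agent.Lib.MP_d439b2_co.X3.H1T.Spec

/-!
# MP_d439b2_co, X3/H1T: Sm (helper68)
-/

set_option autoImplicit false

namespace Pool.Agent.MPd439b2.H1T

open Pool.Agent.MPd439b2

theorem tSm (h1 : S_FL) : S_Sm := by
  intro V _ G b X l hM hG hS hb x hx
  set F := Fs G X l with hF
  set Y := Cell G F X x with hY
  have hrow : LK.cr G Y ≤ 2 := by
    have h2 := (LK.a1 V G).2.2.2.2.2 Y Yᶜ {F, insert x F} ?_
    · refine h2.trans ((Set.ncard_insert_le _ _).trans ?_)
      rw [Set.ncard_singleton]
    · intro r hr
      left
      have hFr : ∀ f ∈ F, f ∈ Yᶜ ∧ G.Adj r f := fun f hf =>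
        ⟨fun h => cell_F h hf, (h1 V G X l hG hS (by omega) x hx r hr f hf).symm⟩
      have hsub : ∀ u, u ∈ Yᶜ → G.Adj r u → u ∈ F ∨ u = x := by
        intro u hu hru
        rcases cell_nb hr hru with h | h | h
        · exact absurd h hu
        · exact Or.inl h
        · exact Or.inr h
      have hxY : x ∈ Yᶜ := fun h => cell_X h hx
      by_cases hrx : G.Adj r x
      · right
        rw [Set.mem_singleton_iff]
        ext u
        constructor
        · rintro ⟨hu, hru⟩
          rcases hsub u hu hru with h | h
          · exact Or.inr h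
          · exact Or.inl h
        · rintro (rfl | h)
          · exact ⟨hxY, hrx⟩
          · exact hFr u h
      · left
        ext u
        constructor
        · rintro ⟨hu, hru⟩
          rcases hsub u hu hru with h | h
          · exact h
          · exact absurd (h ▸ hru) hrx
        · intro h
          exact hFr u h
  rcases hM Y hrow with h | h
  · exact h
  · exfalso
    have hXY : X ⊆ Yᶜ := fun y hy h => cell_X h hy
    have := Set.ncard_le_ncard hXY (Set.toFinite _)
    omega

end Pool.Agent.MPd439b2.H1T
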