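import Pool.Agent.Lib.MP_d439b2_co.X3.H1T.Spec

/-!
# MP_d439b2_co, X3/H1T: Sv (helper68)
-/

set_option autoImplicit false

namespace Pool.Agent.MPd439b2.H1T

open Pool.Agent.MPd439b2

theorem tSv : S_Sv := by
  intro V _ G t b n SS κ lg E
  have h1 : ∀ s ∈ SS, ∀ x ∈ s.2, x ∈ Sv G SS κ := by
    intro s hs x hx s' x' hR
    exact E.xc s hs s' hR.1 x hx x' hR.2.1 hR.2.2.2
  have h2 : ∀ s ∈ SS, ∀ r < 3, lg s r ∈ Sv G SS κ := by
    intro s hs r hr s' x' hR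
    obtain ⟨e1, e2⟩ := E.dc s hs s' hR.1 (κ s r) (E.kX s hs r hr) x' hR.2.1 (lg s r)
      (E.lC s hs r hr) hR.2.2.2
    subst e1
    exact hR.2.2.1 r hr e2.symm
  refine ⟨h1, h2, ?_, ?_⟩
  · intro s s' x x' v h h'
    exact E.dc s h.1 s' h'.1 x h.2.1 x' h'.2.1 v h.2.2.2 h'.2.2.2
  · classical
    have h3 : ∀ v : V, ∃ x : V, v ∉ Sv G SS κ → ∃ s, Rv G SS κ s x v := by
      intro v
      by_cases hv : v ∈ Sv G SS κ
      · exact ⟨v, fun h => absurd hv h⟩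
      · have hv' : ∃ s x, Rv G SS κ s x v := by
          by_contra hcon
          push Not at hcon
          exact hv hcon
        obtain ⟨s, x, h⟩ := hv'
        exact ⟨x, fun _ => ⟨s, h⟩⟩
    choose π hπ using h3
    refine ⟨π, hπ, fun v hv => ?_⟩
    obtain ⟨s, hR⟩ := hπ v hv
    exact h1 s hR.1 (π v) hR.2.1

end Pool.Agent.MPd439b2.H1T
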