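import Pool.Agent.Lib.MP_d439b2_co.X3.H1T.Spec

/-!
# MP_d439b2_co, X3/H1T: TB (helper68)
-/

set_option autoImplicit false

namespace Pool.Agent.MPd439b2.H1T

open Pool.Agent.MPd439b2

theorem tTB (hSv : S_Sv) : S_TB := by
  intro V _ G t b n SS κ lg E A B hP
  obtain ⟨-, hleg, -, -⟩ := hSv V G t b n SS κ lg E
  have hsub : TB SS κ A B ⊆ ((fun p : Set V × Set V => p.1 ∩ p.2) '' (Rw G A B ×ˢ Rw G A B)) ∪
      ((fun F : Set V => F ∩ B) '' BF SS κ lg A B) := by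
    rintro P ⟨s, hs, x, hx, hxκ, hxA, rfl⟩
    have hH := E.hs s hs
    -- two legs in `A`
    have hAA : ∀ r < 3, ∀ r' < 3, r ≠ r' → lg s r ∈ A → lg s r' ∈ A →
        s.1 ∩ B ∈ (fun p : Set V × Set V => p.1 ∩ p.2) '' (Rw G A B ×ˢ Rw G A B) := by
      intro r hr r' hr' hrr h1 h2
      refine ⟨({u | u ∈ B ∧ G.Adj (lg s r) u}, {u | u ∈ B ∧ G.Adj (lg s r') u}),
        ⟨⟨lg s r, h1, rfl⟩, ⟨lg s r', h2, rfl⟩⟩, ?_⟩
      ext u
      constructor
      · rintro ⟨⟨hu, hu1⟩, ⟨_, hu2⟩⟩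
        exact ⟨cell_two hH.dF (E.kX s hs r hr) (E.kX s hs r' hr')
          (fun h => hrr (E.kI s hs r hr r' hr' h)) (E.lC s hs r hr) (E.lC s hs r' hr')
          hu1.symm hu2.symm, hu⟩
      · rintro ⟨hu1, hu⟩
        exact ⟨⟨hu, (hH.FL _ (E.kX s hs r hr) _ (E.lC s hs r hr) u hu1).symm⟩,
          ⟨hu, (hH.FL _ (E.kX s hs r' hr') _ (E.lC s hs r' hr') u hu1).symm⟩⟩
    have hBB : ∀ r < 3, ∀ r' < 3, r ≠ r' → lg s r ∈ B → lg s r' ∈ B →
        s.1 ∩ B ∈ (fun F : Set V => F ∩ B) '' BF SS κ lg A B := by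
      intro r hr r' hr' hrr h1 h2
      exact ⟨s.1, ⟨s, hs, rfl, ⟨x, hxA, hx, hxκ⟩, r, hr, r', hr', hrr, h1, h2⟩, rfl⟩
    have hl : ∀ r < 3, lg s r ∈ A ∨ lg s r ∈ B := by
      intro r hr
      have := hleg s hs r hr
      rw [← hP.1] at this
      exact this
    rcases hl 0 (by norm_num) with h0 | h0 <;> rcases hl 1 (by norm_num) with h1 | h1
    · exact Or.inl (hAA 0 (by norm_num) 1 (by norm_num) (by norm_num) h0 h1)
    · rcases hl 2 (by norm_num) with h2 | h2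
      · exact Or.inl (hAA 0 (by norm_num) 2 (by norm_num) (by norm_num) h0 h2)
      · exact Or.inr (hBB 1 (by norm_num) 2 (by norm_num) (by norm_num) h1 h2)
    · rcases hl 2 (by norm_num) with h2 | h2
      · exact Or.inl (hAA 1 (by norm_num) 2 (by norm_num) (by norm_num) h1 h2)
      · exact Or.inr (hBB 0 (by norm_num) 2 (by norm_num) (by norm_num) h0 h2)
    · exact Or.inr (hBB 0 (by norm_num) 1 (by norm_num) (by norm_num) h0 h1)
  refine (Set.ncard_le_ncard hsub (Set.toFinite _)).trans ((Set.ncard_union_le _ _).trans ?_)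
  refine Nat.add_le_add ?_ (Set.ncard_image_le (Set.toFinite _))
  refine (Set.ncard_image_le (Set.toFinite _)).trans ?_
  rw [Set.ncard_prod]

end Pool.Agent.MPd439b2.H1T
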