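import Pool.Agent.Lib.MP_d439b2_co.X3.H1T.Spec

/-!
# MP_d439b2_co, X3/H1T/TS: two hubs whose cells do not touch (helper59)
-/

set_option autoImplicit false

namespace Pool.Agent.MPd439b2.H1T

open Pool.Agent.MPd439b2

namespace TSAux

variable {V : Type} {G : SimpleGraph V}

/-- at most one element of the second clique is in the first base -/
theorem one {b n : ℕ} {F X F' X' : Set V} {y' z z' k k' : V} (hs : HS G b n F X)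
    (hs' : HS G b n F' X') (hB' : ∀ x' ∈ X', ∀ x ∈ X, x' ∉ Cell G F X x)
    (hk : k ∈ Cell G F X z) (hz : z ∈ X) (hz' : z' ∈ X') (hk' : k' ∈ Cell G F' X' z')
    (hkk : ¬ G.Adj k k') (hy' : y' ∈ X') (hyk : ¬ G.Adj y' k) :
    ∀ u ∈ X', ∀ u' ∈ X', u ∈ F → u' ∈ F → u = u' := by
  have h1 : k ∉ F' := fun h => hkk (hs'.FL z' hz' k' hk' k h)
  have h2 : k ∉ X' := fun h => hB' k h z hz hk
  rcases hs'.tr k h2 h1 with h3 | h3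
  · intro u hu u' hu' huF hu'F
    exact h3 u hu u' hu' (hs.FL z hz k hk u huF).symm (hs.FL z hz k hk u' hu'F).symm
  · exact absurd (h3 y' hy').symm hyk

/-- an element which contains all the elements with a property which at most one element has -/
theorem wit {X : Set V} {p : V → Prop} (h : ∀ u ∈ X, ∀ u' ∈ X, p u → p u' → u = u') (a : V) :
    ∃ q, ∀ u ∈ X, p u → u = q := by
  by_cases h1 : ∃ u ∈ X, p u
  · obtain ⟨u, hu, hpu⟩ := h1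
    exact ⟨u, fun v hv hpv => h v hv u hu hpv hpu⟩
  · exact ⟨a, fun v hv hpv => absurd ⟨v, hv, hpv⟩ h1⟩

end TSAux

theorem tTS (h1 : S_B) : S_TS := by
  intro V _ G b n F X F' X' y y' z z' k k' hG hs hs' hbn hDi hAn hy hy' hz hz' hk hk' hyk' hy'k
    ⟨u₀, hu₀, u₁, hu₁, hu01, hyu₀, hyu₁⟩ a haF
  by_contra haF'
  have hB : ∀ x ∈ X, ∀ x' ∈ X', x ∉ Cell G F' X' x' := fun x hx x' hx' =>
    h1 V G b n F X F' X' x x' hs hs' (by omega) hx hx'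
  have hB' : ∀ x' ∈ X', ∀ x ∈ X, x' ∉ Cell G F X x := fun x' hx' x hx =>
    h1 V G b n F' X' F X x' x hs' hs (by omega) hx' hx
  have hkk : ¬ G.Adj k k' := hAn z hz z' hz' k hk k' hk'
  have hF1 := TSAux.one hs hs' hB' hk hz hz' hk' hkk hy' hy'k
  have hF2 := TSAux.one hs' hs hB hk' hz' hz hk (fun h => hkk h.symm) hy hyk'
  -- (3)
  have hyx : ∀ x ∈ X', x ≠ y → G.Adj y x := by
    have hyF : y ∉ F' := fun h => hyk' (hs'.FL z' hz' k' hk' y h)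
    intro x hx hxy
    by_cases hyX : y ∈ X'
    · exact hs'.cl y hyX x hx (fun h => hxy h.symm)
    · rcases hs'.tr y hyX hyF with h3 | h3
      · exact absurd (h3 u₀ hu₀ u₁ hu₁ hyu₀ hyu₁) hu01
      · exact h3 x hx
  -- (4)
  obtain ⟨p, hp⟩ := TSAux.wit (p := fun u => u ∈ F) hF1 y
  obtain ⟨p', hp'⟩ := TSAux.wit (p := fun u => u ∈ F') hF2 y
  obtain ⟨q, hq⟩ := TSAux.wit (X := X') (p := fun u => a ∈ Cell G F' X' u) (by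
    intro u hu u' hu' h2 h3
    by_contra hne
    exact (cell_dis hs'.dF hu hu' hne h2 h3).1 rfl) y
  have hn := hs.big
  have hn' := hs'.big
  obtain ⟨x₁, hx₁, hx₁y, hx₁a, hx₁p, hx₁q⟩ := pick4 (X := X') (by omega) y a p q
  have hx₁F : x₁ ∉ F := fun h => hx₁p (hp x₁ hx₁ h)
  have haL : a ∉ Cell G F' X' x₁ := fun h => hx₁q (hq x₁ hx₁ h)
  obtain ⟨e, heL, hxe⟩ := hs'.leg x₁ hx₁
  have hea : ¬ G.Adj e a := by
    intro h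
    rcases cell_nb heL h with h2 | h2 | h2
    · exact haL h2
    · exact haF' h2
    · exact hx₁a h2.symm
  have hne_ea : e ≠ a := fun h => haL (h ▸ heL)
  -- (5)
  obtain ⟨x₂, hx₂, hx₂y, hx₂1, hx₂p⟩ := pick3 (X := X) (by omega) y x₁ p'
  obtain ⟨x₃, hx₃, hx₃y, hx₃1, hx₃p, hx₃2⟩ := pick4 (X := X) (by omega) y x₁ p' x₂
  obtain ⟨x₄, hx₄, hx₄y, hx₄1, hx₄2, hx₄3⟩ := pick4 (X := X) (by omega) y x₁ x₂ x₃
  have hx₂F : x₂ ∉ F' := fun h => hx₂p (hp' x₂ hx₂ h)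
  have hx₃F : x₃ ∉ F' := fun h => hx₃p (hp' x₃ hx₃ h)
  obtain ⟨c₂, hc₂, hxc₂⟩ := hs.leg x₂ hx₂
  obtain ⟨c₃, hc₃, hxc₃⟩ := hs.leg x₃ hx₃
  obtain ⟨c₄, hc₄, hxc₄⟩ := hs.leg x₄ hx₄
  obtain ⟨d, hd, hyd⟩ := hs.leg y hy
  have hcx : ∀ i ∈ X, i ≠ x₁ → ∀ c ∈ Cell G F X i, ¬ G.Adj c x₁ := by
    intro i hi hi1 c hc h
    rcases cell_nb hc h with h2 | h2 | h2
    · exact hB' x₁ hx₁ i hi h2
    · exact hx₁F h2
    · exact hi1 h2.symm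
  have hei : ∀ i ∈ X, i ∉ F' → i ≠ x₁ → ¬ G.Adj e i := by
    intro i hi hiF hi1 h
    rcases cell_nb heL h with h2 | h2 | h2
    · exact hB i hi x₁ hx₁ h2
    · exact hiF h2
    · exact hi1 h2
  have hac : ∀ i ∈ X, ∀ c ∈ Cell G F X i, G.Adj a c := fun i hi c hc => hs.FL i hi c hc a haF
  have hneac : ∀ i ∈ X, ∀ c ∈ Cell G F X i, a ≠ c := fun i hi c hc h => cell_F hc (h ▸ haF)
  have hneax : ∀ i ∈ X, a ≠ i := fun i hi h => hs.dF i hi (h ▸ haF)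
  have hcX : ∀ i ∈ X, ∀ c ∈ Cell G F X i, ∀ j ∈ X, c ≠ j := fun i hi c hc j hj h =>
    cell_X hc (h ▸ hj)
  have hc1 : ∀ i ∈ X, ∀ c ∈ Cell G F X i, c ≠ x₁ := fun i hi c hc h => hB' x₁ hx₁ i hi (h ▸ hc)
  have hec : ∀ i ∈ X, ∀ c ∈ Cell G F X i, e ≠ c := fun i hi c hc h =>
    hDi i hi x₁ hx₁ c hc (h ▸ heL)
  have heX : ∀ i ∈ X, e ≠ i := fun i hi h => hB i hi x₁ hx₁ (h ▸ heL)
  have hdis : ∀ i ∈ X, ∀ j ∈ X, i ≠ j → ∀ c ∈ Cell G F X i, ∀ c' ∈ Cell G F X j,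
      c ≠ c' ∧ ¬ G.Adj c c' := fun i hi j hj hij c hc c' hc' => cell_dis hs.dF hi hj hij hc hc'
  have hcn : ∀ i ∈ X, ∀ j ∈ X, i ≠ j → ∀ c ∈ Cell G F X i, ¬ G.Adj c j :=
    fun i hi j hj hij c hc h => hij (cell_x hs.dF hj hc h.symm).symm
  have hce : ∀ i ∈ X, ∀ c ∈ Cell G F X i, ¬ G.Adj c e := fun i hi c hc =>
    hAn i hi x₁ hx₁ c hc e heL
  refine mdlV hG (P := {a}) (Q := {x₁, y, d}) (R := {x₂, x₃, c₃}) (x := c₄) (y := e) (z := c₂)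
    (Conn.singleton G a)
    (Conn.insert (Conn.pair hyd) ⟨y, by simp, hyx x₁ hx₁ hx₁y⟩)
    (Conn.insert (Conn.pair hxc₃) ⟨x₃, by simp, hs.cl x₃ hx₃ x₂ hx₂ hx₃2⟩)
    ?_ ?_ ?_ ?_ ?_ ?_ ?_ ?_ ?_ ?_ ?_ ?_ ?_ ?_ ?_ ?_ ?_ ?_ ?_ ?_ ?_ ?_ ?_ ?_ ?_ ?_ ?_
  · rw [Set.disjoint_singleton_left]
    rintro (h | h | h)
    · exact hx₁a h.symm
    · exact hneax y hy h
    · exact hneac y hy d hd h
  · rw [Set.disjoint_singleton_left]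
    rintro (h | h | h)
    · exact hneax x₂ hx₂ h
    · exact hneax x₃ hx₃ h
    · exact hneac x₃ hx₃ c₃ hc₃ h
  · rw [Set.disjoint_left]
    rintro v (h | h | h) (h' | h' | h')
    · exact hx₂1 (h'.symm.trans h)
    · exact hx₃1 (h'.symm.trans h)
    · exact hc1 x₃ hx₃ c₃ hc₃ (h'.symm.trans h)
    · exact hx₂y (h'.symm.trans h)
    · exact hx₃y (h'.symm.trans h)
    · exact hcX x₃ hx₃ c₃ hc₃ y hy (h'.symm.trans h)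
    · exact hcX y hy d hd x₂ hx₂ (h.symm.trans h')
    · exact hcX y hy d hd x₃ hx₃ (h.symm.trans h')
    · exact (hdis y hy x₃ hx₃ hx₃y.symm d hd c₃ hc₃).1 (h.symm.trans h')
  · exact fun h => hneac x₄ hx₄ c₄ hc₄ (Eq.symm h)
  · rintro (h | h | h)
    · exact hc1 x₄ hx₄ c₄ hc₄ h
    · exact hcX x₄ hx₄ c₄ hc₄ y hy h
    · exact (hdis x₄ hx₄ y hy hx₄y c₄ hc₄ d hd).1 h
  · rintro (h | h | h)
    · exact hcX x₄ hx₄ c₄ hc₄ x₂ hx₂ h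
    · exact hcX x₄ hx₄ c₄ hc₄ x₃ hx₃ h
    · exact (hdis x₄ hx₄ x₃ hx₃ hx₄3 c₄ hc₄ c₃ hc₃).1 h
  · exact hne_ea
  · rintro (h | h | h)
    · exact cell_X heL (h ▸ hx₁)
    · exact heX y hy h
    · exact hec y hy d hd h
  · rintro (h | h | h)
    · exact heX x₂ hx₂ h
    · exact heX x₃ hx₃ h
    · exact hec x₃ hx₃ c₃ hc₃ h
  · exact fun h => hneac x₂ hx₂ c₂ hc₂ (Eq.symm h)
  · rintro (h | h | h)
    · exact hc1 x₂ hx₂ c₂ hc₂ h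
    · exact hcX x₂ hx₂ c₂ hc₂ y hy h
    · exact (hdis x₂ hx₂ y hy hx₂y c₂ hc₂ d hd).1 h
  · rintro (h | h | h)
    · exact hcX x₂ hx₂ c₂ hc₂ x₂ hx₂ h
    · exact hcX x₂ hx₂ c₂ hc₂ x₃ hx₃ h
    · exact (hdis x₂ hx₂ x₃ hx₃ hx₃2.symm c₂ hc₂ c₃ hc₃).1 h
  · exact ⟨a, rfl, d, by simp, hac y hy d hd⟩
  · exact ⟨a, rfl, c₃, by simp, hac x₃ hx₃ c₃ hc₃⟩
  · exact ⟨y, by simp, x₂, by simp, hs.cl y hy x₂ hx₂ hx₂y.symm⟩
  · exact ⟨a, rfl, (hac x₄ hx₄ c₄ hc₄).symm⟩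
  · rintro v (rfl | rfl | rfl)
    · exact hcx x₄ hx₄ hx₄1 c₄ hc₄
    · exact hcn x₄ hx₄ _ hy hx₄y c₄ hc₄
    · exact (hdis x₄ hx₄ y hy hx₄y c₄ hc₄ _ hd).2
  · rintro v (rfl | rfl | rfl)
    · exact hcn x₄ hx₄ _ hx₂ hx₄2 c₄ hc₄
    · exact hcn x₄ hx₄ _ hx₃ hx₄3 c₄ hc₄
    · exact (hdis x₄ hx₄ x₃ hx₃ hx₄3 c₄ hc₄ _ hc₃).2
  · exact ⟨x₁, by simp, hxe.symm⟩
  · rintro v rfl
    exact hea
  · rintro v (rfl | rfl | rfl)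
    · exact hei _ hx₂ hx₂F hx₂1
    · exact hei _ hx₃ hx₃F hx₃1
    · exact fun h => hce x₃ hx₃ _ hc₃ h.symm
  · exact ⟨a, rfl, (hac x₂ hx₂ c₂ hc₂).symm⟩
  · exact ⟨x₂, by simp, hxc₂.symm⟩
  · rintro v (rfl | rfl | rfl)
    · exact hcx x₂ hx₂ hx₂1 c₂ hc₂
    · exact hcn x₂ hx₂ _ hy hx₂y c₂ hc₂
    · exact (hdis x₂ hx₂ y hy hx₂y c₂ hc₂ _ hd).2
  · exact hce x₄ hx₄ c₄ hc₄
  · exact (hdis x₄ hx₄ x₂ hx₂ hx₄2 c₄ hc₄ c₂ hc₂).2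
  · exact fun h => hce x₂ hx₂ c₂ hc₂ h.symm

end Pool.Agent.MPd439b2.H1T
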