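import Pool.Agent.Lib.MP_d439b2_co.X3.H1T.Spec
import Pool.Agent.Lib.MP_d439b2_co.ON.LX
import Pool.Agent.Lib.MP_d439b2_co.ON.LS
import Pool.Agent.Lib.MP_d439b2_co.ON.RI

/-!
# MP_d439b2_co, X3/H1T: Theorem S (assembly)
-/

set_option autoImplicit false

namespace Pool.Agent.MPd439b2.H1T

open Pool.Agent.MPd439b2

namespace ThAux

variable {V : Type}

/-- a typed pattern gives a spider -/
theorem spd {G : SimpleGraph V} {n : ℕ} {a b : ℕ → V} (h : Rep.TP G n true false false a b)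
    : ∃ l : V → V, Spd G {v | ∃ i < n, v = a i} l ∧ (∀ i < n, l (a i) = b i) ∧
      n ≤ ({v | ∃ i < n, v = a i} : Set V).ncard := by
  classical
  have hinj : ∀ i < n, ∀ j < n, a i = a j → i = j := by
    intro i hi j hj hij
    by_contra hne
    exact h.ia i hi j hj hne hij
  let l : V → V := fun v => if hv : ∃ i, i < n ∧ v = a i then b (Nat.find hv) else v
  have hl : ∀ i < n, l (a i) = b i := by
    intro i hi
    have hv : ∃ j, j < n ∧ a i = a j := ⟨i, hi, rfl⟩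
    have h1 := Nat.find_spec hv
    have h2 : i = Nat.find hv := hinj i hi _ h1.1 h1.2
    simp only [l]
    rw [dif_pos hv, ← h2]
  have hxl : ∀ i < n, ∀ j < n, (G.Adj (a i) (b j) ↔ i = j) := by
    intro i hi j hj
    rw [h.ab i hi j hj]
    simp
  refine ⟨l, ⟨?_, ?_, ?_, ?_⟩, hl, ?_⟩
  · rintro _ ⟨i, hi, rfl⟩ _ ⟨j, hj, rfl⟩ hij
    exact (h.aa i hi j hj (fun h' => hij (by rw [h']))).mpr rfl
  · rintro _ ⟨i, hi, rfl⟩ _ ⟨j, hj, rfl⟩
    rw [hl j hj, hxl i hi j hj]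
    exact ⟨fun h' => by rw [h'], hinj i hi j hj⟩
  · rintro _ ⟨i, hi, rfl⟩ _ ⟨j, hj, rfl⟩ hadj
    rw [hl i hi, hl j hj] at hadj
    by_cases hij : i = j
    · subst hij
      exact hadj.ne rfl
    · exact Bool.false_ne_true ((h.bb i hi j hj hij).mp hadj)
  · rintro _ ⟨i, hi, rfl⟩ ⟨j, hj, hij⟩
    rw [hl i hi] at hij
    exact h.dis j hj i hi hij.symm
  · have h1 : ({v | ∃ i < n, v = a i} : Set V) = a '' Set.Iio n := by
      ext v
      constructor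
      · rintro ⟨i, hi, rfl⟩
        exact ⟨i, hi, rfl⟩
      · rintro ⟨i, hi, rfl⟩
        exact ⟨i, hi, rfl⟩
    have h2 : Set.InjOn a (Set.Iio n) := fun i hi j hj hij => hinj i hi j hj hij
    have h3 : (Set.Iio n).ncard = n := by
      rw [← Nat.card_coe_set_eq]
      simp
    rw [h1, h2.ncard_image, h3]

end ThAux

theorem tTh (hub : S_Hub) (mx : S_Mx) (hA : S_A) (hB : S_B) (hC : S_C) (hD : S_D) (sv : S_Sv)
    (cut : S_Cut) (lf : S_Lf) : S_Th := by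
  intro t T m β
  obtain ⟨n₀, hn₀⟩ := hub t (β 2)
  obtain ⟨n, hn1, hn2⟩ : ∃ n, n₀ ≤ n ∧ β 2 + 10 ≤ n :=
    ⟨max n₀ (β 2 + 10), le_max_left _ _, le_max_right _ _⟩
  refine ⟨n, fun k => ?_⟩
  obtain ⟨g, hg⟩ := cut t (β 2) k
  obtain ⟨k₁, hk₁⟩ := lf t (β 2)
  refine ⟨2, 2 ^ g + (k₁ + 1), fun V _ G hF _ hL => ?_⟩
  rcases isEmpty_or_nonempty V with hV | hV
  · refine ⟨∅, fun a _ _ => (hV.false (a 0).1).elim, fun _ => ?_⟩
    rw [Set.univ_eq_empty_iff.mpr hV]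
    exact Lay.empty
  have hH : FH G := hF.1
  have hJ : FJ t G := hF.2
  have hM : MC2 G (β 2) := fun Y hY => hL 2 le_rfl Y hY
  have hHS : ∀ F X : Set V, Hb G n F X → HS G (β 2) n F X := hn₀ n hn1 V G hH hJ hM
  let SS : Set (Set V × Set V) := {s | MHb G n s.1 s.2}
  have hs : ∀ s ∈ SS, HS G (β 2) n s.1 s.2 := fun s h => hHS s.1 s.2 h.1
  have h3 : ∀ s : Set V × Set V, s ∈ SS → ∃ κ lg : ℕ → V, (∀ r < 3, κ r ∈ s.2) ∧
      (∀ r < 3, ∀ r' < 3, κ r = κ r' → r = r') ∧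
      ∀ r < 3, lg r ∈ Cell G s.1 s.2 (κ r) ∧ G.Adj (κ r) (lg r) := by
    intro s h
    have hb := (hs s h).big
    obtain ⟨x0, hx0⟩ : s.2.Nonempty := by
      rw [← Set.ncard_pos]
      omega
    obtain ⟨x1, hx1, h10⟩ := pick1 (X := s.2) (by omega) x0
    obtain ⟨x2, hx2, h20, h21⟩ := pick2 (X := s.2) (by omega) x0 x1
    choose! c hc hxc using (hs s h).leg
    have key : ∀ r < 3, (if r = 0 then x0 else if r = 1 then x1 else x2) ∈ s.2 := by
      intro r _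
      split_ifs <;> assumption
    refine ⟨fun r => if r = 0 then x0 else if r = 1 then x1 else x2,
      fun r => c (if r = 0 then x0 else if r = 1 then x1 else x2), key, ?_, fun r hr =>
        ⟨hc _ (key r hr), hxc _ (key r hr)⟩⟩
    intro r hr r' hr' h'
    have e1 : r = 0 ∨ r = 1 ∨ r = 2 := by omega
    have e2 : r' = 0 ∨ r' = 1 ∨ r' = 2 := by omega
    rcases e1 with rfl | rfl | rfl <;> rcases e2 with rfl | rfl | rfl <;> simp at h' ⊢
    · exact h10 h'.symm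
    · exact h20 h'.symm
    · exact h10 h'
    · exact h21 h'.symm
    · exact h20 h'
    · exact h21 h'
  choose! κ lg hkX hkI hlg using h3
  have un : ∀ s ∈ SS, ∀ s' ∈ SS, s.1 = s'.1 → (s.2 ∩ s'.2).Nonempty → s = s' := by
    rintro ⟨F, X⟩ h ⟨F', X'⟩ h' hFF hne
    have hFF' : F = F' := hFF
    subst hFF'
    have := hA V G (β 2) n F X X' hH hHS (by omega) h h' hne
    rw [this]
  have xc : ∀ s ∈ SS, ∀ s' ∈ SS, ∀ x ∈ s.2, ∀ x' ∈ s'.2, x ∉ Cell G s'.1 s'.2 x' :=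
    fun s h s' h' x hx x' hx' =>
      hB V G (β 2) n s.1 s.2 s'.1 s'.2 x x' (hs s h) (hs s' h') (by omega) hx hx'
  have dc : ∀ s ∈ SS, ∀ s' ∈ SS, ∀ x ∈ s.2, ∀ x' ∈ s'.2, ∀ v, v ∈ Cell G s.1 s.2 x →
      v ∈ Cell G s'.1 s'.2 x' → s = s' ∧ x = x' := by
    intro s h s' h' x hx x' hx' v hv hv'
    obtain ⟨e1, e2⟩ := hC V G (β 2) n s.1 s.2 s'.1 s'.2 x x' v hH (hs s h) (hs s' h')
      (by omega) hx hx' hv hv'
    exact ⟨un s h s' h' e1 ⟨x, hx, e2 ▸ hx'⟩, e2⟩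
  have co : ∀ s ∈ SS, ∀ s' ∈ SS, s ≠ s' →
      CoC G s.1 s.2 s'.1 s'.2 ∨ AnC G s.1 s.2 s'.1 s'.2 := fun s h s' h' hne =>
    hD V G (β 2) n s.1 s.2 s'.1 s'.2 (hs s h) (hs s' h') (by omega) fun x hx x' hx' v hv hv' =>
      hne (dc s h s' h' x hx x' hx' v hv hv').1
  have en : EnS G t (β 2) n SS κ lg :=
    ⟨hH, hJ, hn2, hs, un, hkX, hkI, fun s h r hr => (hlg s h r hr).1,
      fun s h r hr => (hlg s h r hr).2, xc, dc, co⟩
  obtain ⟨sv1, sv2, sv3, π, hπ⟩ := sv V G t (β 2) n SS κ lg en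
  refine ⟨(Sv G SS κ)ᶜ, ?_⟩
  rw [compl_compl]
  constructor
  · intro a b hab
    obtain ⟨l, hl1, hl2, hl3⟩ := ThAux.spd (Rep.tp_induce hab)
    obtain ⟨X', hX1, hX2, hX3⟩ := mx V G n _ l hH (by omega) hl3 hl1
    have hsub : ({v | ∃ i < n, v = (a i).1} : Set V) ⊆
        {κ (Fs G {v | ∃ i < n, v = (a i).1} l, X') 0,
          κ (Fs G {v | ∃ i < n, v = (a i).1} l, X') 1,
          κ (Fs G {v | ∃ i < n, v = (a i).1} l, X') 2} := by
      rintro _ ⟨i, hi, rfl⟩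
      have h1 : (b i).1 ∈ Sv G SS κ := (b i).2
      have h2 := h1 (Fs G {v | ∃ i < n, v = (a i).1} l, X') (a i).1
      by_contra hcon
      refine h2 ⟨hX1, hX2 ⟨i, hi, rfl⟩, ?_, ?_⟩
      · intro r hr hr'
        apply hcon
        have e1 : r = 0 ∨ r = 1 ∨ r = 2 := by omega
        rcases e1 with rfl | rfl | rfl
        · exact Or.inl hr'
        · exact Or.inr (Or.inl hr')
        · exact Or.inr (Or.inr hr')
      · have h3 := hX3 (a i).1 ⟨i, hi, rfl⟩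
        rwa [hl2 i hi] at h3
    have h4 := Set.ncard_le_ncard hsub (Set.toFinite _)
    have h5 : ∀ x y z : V, ({x, y, z} : Set V).ncard ≤ 3 := by
      intro x y z
      refine (Set.ncard_insert_le x {y, z}).trans ?_
      have := Set.ncard_insert_le y {z}
      rw [Set.ncard_singleton] at this
      omega
    have h6 := h5 (κ (Fs G {v | ∃ i < n, v = (a i).1} l, X') 0)
      (κ (Fs G {v | ∃ i < n, v = (a i).1} l, X') 1) (κ (Fs G {v | ∃ i < n, v = (a i).1} l, X') 2)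
    omega
  · refine ON.oLX ON.oRI k (k₁ + 1) g V G (Sv G SS κ) π hπ.2 (fun v hv => ?_)
      (fun A A' hP hr => hg n V G SS κ lg en π hπ A A' hP hr)
    refine ON.oLS (k₁ + 1) V G _ ?_
    have h1 := hk₁ n V G SS κ lg en π hπ v hv
    refine (Set.ncard_union_le _ _).trans ?_
    rw [Set.ncard_singleton]
    have h2 : ({v' | v' ∉ Sv G SS κ ∧ π v' ∈ ({v} : Set V)} : Set V).ncard ≤ k₁ := h1
    omega

end Pool.Agent.MPd439b2.H1T
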