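import Pool.Agent.Lib.MP_d439b2_co.X3.H1T.Spec

/-!
# MP_d439b2_co, X3/H1T: Tr (helper68)
-/

set_option autoImplicit false

namespace Pool.Agent.MPd439b2.H1T

open Pool.Agent.MPd439b2

theorem tTr (h1 : S_Tab) : S_Tr := by
  intro V _ G X l hG hS h5 v hvX hvF
  by_cases hz : ∃ z ∈ X, v = l z
  · obtain ⟨z, hz, rfl⟩ := hz
    left
    intro x hx y hy h1 h2
    rw [(hS.xl x hx z hz).1 h1.symm, (hS.xl y hy z hz).1 h2.symm]
  · have hz' : ∀ x ∈ X, x ∉ ({v} : Set V) ∧ l x ∉ ({v} : Set V) := by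
      intro x hx
      refine ⟨fun h => hvX ?_, fun h => hz ⟨x, hx, ?_⟩⟩
      · rw [← Set.mem_singleton_iff.1 h]; exact hx
      · exact (Set.mem_singleton_iff.1 h).symm
    obtain ⟨a1, a2, a3⟩ := h1 V G X l {v} hG hS h5 (Conn.singleton G v) hz'
    have hnot : ∃ x ∈ X, ¬ Tch G {v} {l x} := by
      by_contra hc
      push Not at hc
      refine hvF fun x hx => ?_
      obtain ⟨a, ha, b, hb, h⟩ := hc x hx
      rw [Set.mem_singleton_iff] at ha hb
      rw [← ha, ← hb]
      exact h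
    by_cases hl : ∃ x ∈ X, Tch G {v} {l x}
    · obtain ⟨x0, hx0, ht⟩ := hl
      left
      intro x hx y hy hvx hvy
      rw [a2 hnot x0 hx0 x hx ht (Tch.of_adj hvx rfl rfl),
        a2 hnot x0 hx0 y hy ht (Tch.of_adj hvy rfl rfl)]
    · push Not at hl
      rcases a3 hl with h | h
      · right
        intro x hx
        obtain ⟨a, ha, b, hb, h⟩ := h x hx
        rw [Set.mem_singleton_iff] at ha hb
        rw [← ha, ← hb]
        exact h
      · left
        intro x hx y hy h1 h2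
        exact h x hx y hy (Tch.of_adj h1 rfl rfl) (Tch.of_adj h2 rfl rfl)

end Pool.Agent.MPd439b2.H1T
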