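import Pool.Agent.Lib.MP_d439b2_co.X3.H1T.Tab
import Pool.Agent.Lib.MP_d439b2_co.X3.H1T.One
import Pool.Agent.Lib.MP_d439b2_co.X3.H1T.Leg
import Pool.Agent.Lib.MP_d439b2_co.X3.H1T.FL
import Pool.Agent.Lib.MP_d439b2_co.X3.H1T.Tr
import Pool.Agent.Lib.MP_d439b2_co.X3.H1T.FW
import Pool.Agent.Lib.MP_d439b2_co.X3.H1T.Bd
import Pool.Agent.Lib.MP_d439b2_co.X3.H1T.Sm
import Pool.Agent.Lib.MP_d439b2_co.X3.H1T.Ne
import Pool.Agent.Lib.MP_d439b2_co.X3.H1T.Hub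
import Pool.Agent.Lib.MP_d439b2_co.X3.H1T.Mx
import Pool.Agent.Lib.MP_d439b2_co.X3.H1T.A
import Pool.Agent.Lib.MP_d439b2_co.X3.H1T.B
import Pool.Agent.Lib.MP_d439b2_co.X3.H1T.C
import Pool.Agent.Lib.MP_d439b2_co.X3.H1T.D
import Pool.Agent.Lib.MP_d439b2_co.X3.H1T.E
import Pool.Agent.Lib.MP_d439b2_co.X3.H1T.TS
import Pool.Agent.Lib.MP_d439b2_co.X3.H1T.Pz
import Pool.Agent.Lib.MP_d439b2_co.X3.H1T.Bad
import Pool.Agent.Lib.MP_d439b2_co.X3.H1T.Sv
import Pool.Agent.Lib.MP_d439b2_co.X3.H1T.Few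
import Pool.Agent.Lib.MP_d439b2_co.X3.H1T.Lf
import Pool.Agent.Lib.MP_d439b2_co.X3.H1T.TB
import Pool.Agent.Lib.MP_d439b2_co.X3.H1T.R1
import Pool.Agent.Lib.MP_d439b2_co.X3.H1T.R2
import Pool.Agent.Lib.MP_d439b2_co.X3.H1T.Cut
import Pool.Agent.Lib.MP_d439b2_co.X3.H1T.Th

/-!
# MP_d439b2_co, X3/H1T: Theorem S without hypotheses (helper90, note 2894)

`thS : S_Th`; `bltThin`: the thin spider can be dropped for the pair `(K3:0,1,02, co(P_3 + t P_2))`, every `t`.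
-/

set_option autoImplicit false

namespace Pool.Agent.MPd439b2.H1T

open Pool.Agent.MPd439b2

theorem oneF : S_One := tOne tTab

theorem legF : S_Leg := tLeg tTab oneF

theorem flF : S_FL := tFL legF

theorem trF : S_Tr := tTr tTab

theorem fwF : S_FW := tFW legF flF

theorem bdF : S_Bd := tBd tTab legF fwF

theorem hubF : S_Hub := tHub legF flF trF fwF bdF (tSm flF) (tNe flF trF)

theorem mxF : S_Mx := tMx legF

theorem badF : S_Bad := tBad tB (tC tB) (tD tB) tE (tTS tB) tPz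

theorem fewF : S_Few := tFew badF tSv

theorem cutF : S_Cut := tCut fewF (tTB tSv) tR1 (tR2 tSv)

/-- **Theorem S** -/
theorem thS : S_Th := tTh hubF mxF tA tB (tC tB) (tD tB) tSv cutF (tLf fewF tSv)

/-- **The thin spider** can be dropped for the pair `(K3:0,1,02, co(P_3 + t P_2))` -/
theorem bltThin (t : ℕ) {T : Set Rep.Ty}
    (h : Rep.BLT K302 (A0.JP t) (insert (true, false, false) T)) : Rep.BLT K302 (A0.JP t) T :=
  Rep.blt_remove (true, false, false) (fun m _ β => by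
    obtain ⟨n, hn⟩ := thS t T m β
    exact ⟨n, hn⟩) h

end Pool.Agent.MPd439b2.H1T
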