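import Pool.Agent.Lib.MP_d439b2_co.ON.Spec
import Pool.Agent.Lib.MP_d439b2_co.H1.M0
import Pool.Agent.Lib.MP_d439b2_co.L4.A1
import Pool.Agent.Lib.MP_d439b2_co.L4.A3
import Pool.Agent.Lib.MP_d439b2_co.W.RamC

/-!
# MP_d439b2_co, X3/H1T: thin spiders in graphs without `K3:0,1,02` (helper90, note 2894), definitions

`G` is a graph without the induced minor `K3:0,1,02` (`FH G`) and without `J_t = co(P_3 + t P_2)` (`FJ t G`).
Everything is in `G` (not in the complement); `x ~ y` means `G.Adj x y`.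

A SPIDER: a clique `X` with a leg `l x` for every `x ∈ X`, the legs are pairwise not adjacent, `x ~ l y` iff
`x = y` (`Spd G X l`).  Its BASE `F` is the set of the vertices complete to the legs (`Fs G X l`).  A HUB is a pair
`(F, X)` for which there is a spider on `X` with base `F` and at least `n` legs (`Hb G n F X`).  The CELL of `x ∈ X`
(`Cell G F X x`) is the union of the connected sets `Q` outside `F ∪ X` which touch `x` and have no neighbours
outside `Q ∪ F ∪ {x}` (`CQ G F X x Q`).  `HS G b n F X` is the list of the properties of the hubs.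

In this file: definitions and the basic facts on cells (proved), `pick`, `pick1`, .., `pick5` (choice of elements),
`rows_le`, `rk_le_rows` (number of rows and rank), `rk_pattern`, `rk_hg` (rank and homogeneous patterns), `ram`
(Ramsey for several relations), `mdl`, `mdlV` (the model of `K3:0,1,02`).
-/

set_option autoImplicit false

namespace Pool.Agent.MPd439b2.H1T

open Pool.Agent.MPd439b2

/-- the graph `K3:0,1,02` -/
abbrev K302 : SimpleGraph (Fin 3 ⊕ Fin 3) := KA 3 3 ![{0}, {1}, {0, 2}]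

variable {V : Type}

/-- `K3:0,1,02` is not an induced minor -/
def FH (G : SimpleGraph V) : Prop := ¬ IMS K302 G Set.univ

/-- `J_t = co(P_3 + t P_2)` is not an induced minor -/
def FJ (t : ℕ) (G : SimpleGraph V) : Prop := ¬ IMS (A0.JP t) G Set.univ

/-- a thin spider: the clique `X`, the leg `l x` of `x ∈ X` -/
structure Spd (G : SimpleGraph V) (X : Set V) (l : V → V) : Prop where
  cl : ∀ x ∈ X, ∀ y ∈ X, x ≠ y → G.Adj x y
  xl : ∀ x ∈ X, ∀ y ∈ X, (G.Adj x (l y) ↔ x = y)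
  ll : ∀ x ∈ X, ∀ y ∈ X, ¬ G.Adj (l x) (l y)
  nx : ∀ x ∈ X, l x ∉ X

/-- the base: the vertices complete to the legs -/
def Fs (G : SimpleGraph V) (X : Set V) (l : V → V) : Set V := {v | ∀ x ∈ X, G.Adj v (l x)}

/-- a connected set outside `F ∪ X` which touches `x` and has no neighbours except for `F` and `x` -/
structure CQ (G : SimpleGraph V) (F X : Set V) (x : V) (Q : Set V) : Prop where
  con : Conn G Q
  dF : ∀ q ∈ Q, q ∉ F
  dX : ∀ q ∈ Q, q ∉ X
  nb : ∀ q ∈ Q, ∀ u, G.Adj q u → u ∈ Q ∨ u ∈ F ∨ u = x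
  tx : ∃ q ∈ Q, G.Adj q x

/-- the cell of `x` -/
def Cell (G : SimpleGraph V) (F X : Set V) (x : V) : Set V := {v | ∃ Q, CQ G F X x Q ∧ v ∈ Q}

/-- hubs: the pairs (base, clique) of the spiders with at least `n` legs -/
def Hb (G : SimpleGraph V) (n : ℕ) (F X : Set V) : Prop :=
  n ≤ X.ncard ∧ ∃ l, Spd G X l ∧ Fs G X l = F

/-- maximal hubs -/
def MHb (G : SimpleGraph V) (n : ℕ) (F X : Set V) : Prop :=
  Hb G n F X ∧ ∀ X', Hb G n F X' → X ⊆ X' → X' = X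

/-- the properties of hubs which are used -/
structure HS (G : SimpleGraph V) (b n : ℕ) (F X : Set V) : Prop where
  big : n ≤ X.ncard
  cl : ∀ x ∈ X, ∀ y ∈ X, x ≠ y → G.Adj x y
  dF : ∀ x ∈ X, x ∉ F
  leg : ∀ x ∈ X, ∃ c ∈ Cell G F X x, G.Adj x c
  FL : ∀ x ∈ X, ∀ r ∈ Cell G F X x, ∀ f ∈ F, G.Adj f r
  sm : ∀ x ∈ X, (Cell G F X x).ncard ≤ b
  tr : ∀ v, v ∉ X → v ∉ F →
    (∀ x ∈ X, ∀ y ∈ X, G.Adj v x → G.Adj v y → x = y) ∨ ∀ x ∈ X, G.Adj v x
  FW : ∀ v, v ∉ X → v ∉ F → ∀ x ∈ X, G.Adj v x → (∀ y ∈ X, G.Adj v y → y = x) →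
    ∀ f ∈ F, G.Adj f v
  ne : ∀ x, ∃ f ∈ F, ∃ y ∈ X, y ≠ x ∧ ¬ G.Adj f y

section cell

variable {G : SimpleGraph V} {F X : Set V} {x y v w u : V}

theorem cell_F (h : v ∈ Cell G F X x) : v ∉ F := by
  obtain ⟨Q, hQ, hv⟩ := h
  exact hQ.dF v hv

theorem cell_X (h : v ∈ Cell G F X x) : v ∉ X := by
  obtain ⟨Q, hQ, hv⟩ := h
  exact hQ.dX v hv

/-- the neighbours of a cell -/
theorem cell_nb (h : v ∈ Cell G F X x) (hu : G.Adj v u) : u ∈ Cell G F X x ∨ u ∈ F ∨ u = x := by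
  obtain ⟨Q, hQ, hv⟩ := h
  rcases hQ.nb v hv u hu with h1 | h1 | h1
  · exact Or.inl ⟨Q, hQ, h1⟩
  · exact Or.inr (Or.inl h1)
  · exact Or.inr (Or.inr h1)

/-- two sets `CQ` at the same vertex are equal or disjoint -/
theorem cq_sub {Q Q' : Set V} (hQ : CQ G F X x Q) (hQ' : CQ G F X y Q') (hx : x ∈ X)
    (hv : v ∈ Q) (hv' : v ∈ Q') : Q' ⊆ Q := by
  by_contra hcon
  obtain ⟨p, hp, q, hq, hpq⟩ := hQ'.con.2 (Q ∩ Q') Set.inter_subset_right ⟨v, hv, hv'⟩
    (fun h => hcon (by rw [← h]; exact Set.inter_subset_left))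
  have hqQ : q ∉ Q := fun h => hq.2 ⟨h, hq.1⟩
  rcases hQ.nb p hp.1 q hpq with h1 | h1 | h1
  · exact hqQ h1
  · exact hQ'.dF q hq.1 h1
  · exact hQ'.dX q hq.1 (h1 ▸ hx)

/-- different cells of a hub are disjoint and do not touch -/
theorem cell_dis (dF : ∀ x ∈ X, x ∉ F) (hx : x ∈ X) (hy : y ∈ X) (hxy : x ≠ y)
    (hv : v ∈ Cell G F X x) (hw : w ∈ Cell G F X y) : v ≠ w ∧ ¬ G.Adj v w := by
  have key : v ∉ Cell G F X y := by
    intro hv'
    obtain ⟨Q, hQ, hvQ⟩ := hv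
    obtain ⟨Q', hQ', hvQ'⟩ := hv'
    have h1 := cq_sub hQ hQ' hx hvQ hvQ'
    obtain ⟨q, hq, hqy⟩ := hQ'.tx
    rcases hQ.nb q (h1 hq) y hqy with h2 | h2 | h2
    · exact hQ.dX y h2 hy
    · exact dF y hy h2
    · exact hxy h2.symm
  refine ⟨fun h => key (h ▸ hw), fun h => ?_⟩
  rcases cell_nb hw h.symm with h1 | h1 | h1
  · exact key h1
  · exact cell_F hv h1
  · exact cell_X hv (h1 ▸ hy)

/-- an element of the clique which sees the cell of `x` is `x` -/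
theorem cell_x (dF : ∀ x ∈ X, x ∉ F) (hy : y ∈ X) (hv : v ∈ Cell G F X x) (h : G.Adj y v) :
    y = x := by
  rcases cell_nb hv h.symm with h1 | h1 | h1
  · exact absurd hy (cell_X h1)
  · exact absurd h1 (dF y hy)
  · exact h1

/-- a vertex which sees two different cells is in the base -/
theorem cell_two (dF : ∀ x ∈ X, x ∉ F) (hx : x ∈ X) (hy : y ∈ X) (hxy : x ≠ y)
    (hv : v ∈ Cell G F X x) (hw : w ∈ Cell G F X y) (huv : G.Adj u v) (huw : G.Adj u w) :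
    u ∈ F := by
  rcases cell_nb hv huv.symm with h1 | h1 | h1
  · exact absurd huw (cell_dis dF hx hy hxy h1 hw).2
  · exact h1
  · rcases cell_nb hw huw.symm with h2 | h2 | h2
    · exact absurd (h1 ▸ hx : u ∈ X) (cell_X h2)
    · exact h2
    · exact absurd (h1.symm.trans h2) hxy

end cell

/-! ### Rows and ranks -/

/-- the rows of `A` on `B`, as sets -/
def Rw (G : SimpleGraph V) (A B : Set V) : Set (Set V) :=
  {P | ∃ a ∈ A, P = {b | b ∈ B ∧ G.Adj a b}}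

/-- there are at most `2 ^ rank` rows -/
theorem rows_le [Finite V] (G : SimpleGraph V) (A B : Set V) :
    (Rw G A B).ncard ≤ 2 ^ LK.rk G A B := by
  classical
  set f : Set V → (V → ZMod 2) := fun T y => if y ∈ T then 1 else 0 with hf
  have hinj : Function.Injective f := by
    intro S T hST
    ext y
    have h := congrFun hST y
    simp only [hf] at h
    by_cases h1 : y ∈ S <;> by_cases h2 : y ∈ T
    · exact ⟨fun _ => h2, fun _ => h1⟩
    · rw [if_pos h1, if_neg h2] at h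
      exact absurd h (by decide)
    · rw [if_neg h1, if_pos h2] at h
      exact absurd h (by decide)
    · exact ⟨fun h3 => absurd h3 h1, fun h3 => absurd h3 h2⟩
  have hsub : f '' Rw G A B ⊆
      (Submodule.span (ZMod 2) (LK.row G B '' A) : Set (V → ZMod 2)) := by
    rintro _ ⟨T, ⟨a, ha, rfl⟩, rfl⟩
    have h1 : f {b | b ∈ B ∧ G.Adj a b} = LK.row G B a := by
      funext y
      simp only [hf, LK.row]
      by_cases h2 : y ∈ B ∧ G.Adj a y
      · rw [if_pos h2, if_pos (show y ∈ {b | b ∈ B ∧ G.Adj a b} from h2)]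
      · rw [if_neg h2, if_neg (show y ∉ {b | b ∈ B ∧ G.Adj a b} from h2)]
    rw [h1]
    exact Submodule.subset_span ⟨a, ha, rfl⟩
  have hcard := Module.natCard_eq_pow_finrank (K := ZMod 2)
    (V := Submodule.span (ZMod 2) (LK.row G B '' A))
  rw [Nat.card_zmod] at hcard
  rw [← Set.ncard_image_of_injective _ hinj]
  refine (Set.ncard_le_ncard hsub (Set.toFinite _)).trans ?_
  rw [← Nat.card_coe_set_eq]
  exact hcard.le

/-- the rank is at most the number of rows -/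
theorem rk_le_rows [Finite V] (G : SimpleGraph V) (A B : Set V) :
    LK.rk G A B ≤ (Rw G A B).ncard :=
  (LK.a1 V G).2.2.2.2.2 A B (Rw G A B) fun a ha => Or.inl ⟨a, ha, rfl⟩

/-- **Homogeneous patterns and the rank.**  (`u`: above, `d`: on, `l`: below the diagonal.) -/
theorem rk_pattern [Finite V] {G : SimpleGraph V} {A B : Set V} {c m : ℕ} (hm : 2 ^ c < m)
    (hc : LK.rk G A B ≤ c) {f g : ℕ → V} {u d l : Prop} (hf : ∀ i < m, f i ∈ A)
    (hg : ∀ i < m, g i ∈ B) (hd : ∀ i < m, (G.Adj (f i) (g i) ↔ d))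
    (hu : ∀ i j, i < j → j < m → (G.Adj (f i) (g j) ↔ u))
    (hl : ∀ i j, i < j → j < m → (G.Adj (f j) (g i) ↔ l)) : (u ↔ d) ∧ (l ↔ d) := by
  classical
  by_contra hcon
  have hrow : ∀ i j, i < j → j < m →
      {b | b ∈ B ∧ G.Adj (f i) b} ≠ {b | b ∈ B ∧ G.Adj (f j) b} := by
    intro i j hij hj h
    have h1 : g i ∈ B ∧ G.Adj (f i) (g i) ↔ g i ∈ B ∧ G.Adj (f j) (g i) :=
      Set.ext_iff.mp h (g i)
    have h2 : g j ∈ B ∧ G.Adj (f i) (g j) ↔ g j ∈ B ∧ G.Adj (f j) (g j) :=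
      Set.ext_iff.mp h (g j)
    have hi : i < m := hij.trans hj
    rw [hd i hi, hl i j hij hj] at h1
    rw [hu i j hij hj, hd j hj] at h2
    have h3 := hg i hi
    have h4 := hg j hj
    exact hcon ⟨by tauto, by tauto⟩
  have hinj : Set.InjOn (fun i => {b | b ∈ B ∧ G.Adj (f i) b}) (Set.Iio m) := by
    intro i hi j hj hij
    rcases lt_trichotomy i j with h | h | h
    · exact absurd hij (hrow i j h hj)
    · exact h
    · exact absurd hij.symm (hrow j i h hi)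
  have hsub : (fun i => {b | b ∈ B ∧ G.Adj (f i) b}) '' Set.Iio m ⊆ Rw G A B := by
    rintro _ ⟨i, hi, rfl⟩
    exact ⟨f i, hf i hi, rfl⟩
  have h1 := Set.ncard_le_ncard hsub (Set.toFinite _)
  rw [hinj.ncard_image] at h1
  have h2 : (Set.Iio m).ncard = m := by
    rw [← Nat.card_coe_set_eq]
    simp
  rw [h2] at h1
  have h3 := (rows_le G A B).trans (Nat.pow_le_pow_right (by norm_num) hc)
  omega

/-- homogeneous relations (on the indices below `m`) -/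
def Hg (m : ℕ) (R : ℕ → ℕ → Prop) : Prop :=
  ∃ u l : Prop, ∀ i j, i < j → j < m → (R i j ↔ u) ∧ (R j i ↔ l)

theorem Hg.mono {m m' : ℕ} {R : ℕ → ℕ → Prop} (h : Hg m R) (hm : m' ≤ m) : Hg m' R := by
  obtain ⟨u, l, h⟩ := h
  exact ⟨u, l, fun i j hij hj => h i j hij (by omega)⟩

/-- **Homogeneous patterns and the rank**, second form -/
theorem rk_hg [Finite V] {G : SimpleGraph V} {A B : Set V} {c m : ℕ} (hm : 2 ^ c < m)
    (hc : LK.rk G A B ≤ c) {f g : ℕ → V} {d : Prop} (hf : ∀ i < m, f i ∈ A)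
    (hg : ∀ i < m, g i ∈ B) (hd : ∀ i < m, (G.Adj (f i) (g i) ↔ d))
    (hR : Hg m fun i j => G.Adj (f i) (g j)) : ∀ i < m, ∀ j < m, (G.Adj (f i) (g j) ↔ d) := by
  obtain ⟨u, l, h⟩ := hR
  have h1 := rk_pattern hm hc hf hg hd (fun i j hij hj => (h i j hij hj).1)
    (fun i j hij hj => (h i j hij hj).2)
  intro i hi j hj
  rcases lt_trichotomy i j with h2 | h2 | h2
  · exact (h i j h2 hj).1.trans h1.1
  · subst h2
    exact hd i hi
  · exact (h j i h2 hi).2.trans h1.2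

/-- **Ramsey** for several relations -/
theorem ram (k m : ℕ) : ∃ N : ℕ, ∀ R : Fin k → ℕ → ℕ → Prop, ∃ s : ℕ → ℕ,
    (∀ i j, i < j → j < m → s i < s j) ∧ (∀ i < m, s i < N) ∧
      ∀ a, Hg m fun i j => R a (s i) (s j) := by
  classical
  obtain ⟨N, hN⟩ := W.ramC (Fin k → Bool × Bool) m
  refine ⟨N, fun R => ?_⟩
  obtain ⟨s, c, h1, h2, h3⟩ := hN fun i j a => (decide (R a i j), decide (R a j i))
  refine ⟨s, h1, h2, fun a => ⟨(c a).1 = true, (c a).2 = true, fun i j hij hj => ?_⟩⟩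
  have h4 := congrFun (h3 i j hij hj) a
  constructor
  · rw [← h4]
    exact decide_eq_true_iff.symm
  · rw [← h4]
    exact decide_eq_true_iff.symm

/-! ### Choice of elements -/

theorem pick {X E : Set V} (hE : E.Finite) (h : E.ncard < X.ncard) : ∃ x ∈ X, x ∉ E :=
  Set.exists_mem_notMem_of_ncard_lt_ncard h hE

theorem pick1 {X : Set V} (h : 2 ≤ X.ncard) (a : V) : ∃ x ∈ X, x ≠ a := by
  obtain ⟨x, hx, h1⟩ := pick (X := X) (E := {a}) (Set.finite_singleton a)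
    (by rw [Set.ncard_singleton]; omega)
  exact ⟨x, hx, h1⟩

theorem pick2 {X : Set V} (h : 3 ≤ X.ncard) (a b : V) : ∃ x ∈ X, x ≠ a ∧ x ≠ b := by
  obtain ⟨x, hx, h1⟩ := pick (X := X) (E := {a, b}) (Set.toFinite _)
    (lt_of_le_of_lt (Set.ncard_insert_le a {b}) (by rw [Set.ncard_singleton]; omega))
  exact ⟨x, hx, fun h2 => h1 (by simp [h2]), fun h2 => h1 (by simp [h2])⟩

theorem pick3 {X : Set V} (h : 4 ≤ X.ncard) (a b c : V) : ∃ x ∈ X, x ≠ a ∧ x ≠ b ∧ x ≠ c := by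
  have h3 : ({a, b, c} : Set V).ncard ≤ 3 := by
    refine (Set.ncard_insert_le a {b, c}).trans ?_
    have := Set.ncard_insert_le b {c}
    rw [Set.ncard_singleton] at this
    omega
  obtain ⟨x, hx, h1⟩ := pick (X := X) (E := {a, b, c}) (Set.toFinite _) (by omega : _ < X.ncard)
  exact ⟨x, hx, fun h2 => h1 (by simp [h2]), fun h2 => h1 (by simp [h2]),
    fun h2 => h1 (by simp [h2])⟩

theorem pick4 {X : Set V} (h : 5 ≤ X.ncard) (a b c d : V) :
    ∃ x ∈ X, x ≠ a ∧ x ≠ b ∧ x ≠ c ∧ x ≠ d := by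
  have h4 : ({a, b, c, d} : Set V).ncard ≤ 4 := by
    refine (Set.ncard_insert_le a {b, c, d}).trans ?_
    have h3 := Set.ncard_insert_le b {c, d}
    have h2 := Set.ncard_insert_le c {d}
    rw [Set.ncard_singleton] at h2
    omega
  obtain ⟨x, hx, h1⟩ := pick (X := X) (E := {a, b, c, d}) (Set.toFinite _) (by omega : _ < X.ncard)
  exact ⟨x, hx, fun h2 => h1 (by simp [h2]), fun h2 => h1 (by simp [h2]),
    fun h2 => h1 (by simp [h2]), fun h2 => h1 (by simp [h2])⟩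

theorem pick5 {X : Set V} (h : 6 ≤ X.ncard) (a b c d e : V) :
    ∃ x ∈ X, x ≠ a ∧ x ≠ b ∧ x ≠ c ∧ x ≠ d ∧ x ≠ e := by
  have h5 : ({a, b, c, d, e} : Set V).ncard ≤ 5 := by
    refine (Set.ncard_insert_le a {b, c, d, e}).trans ?_
    have h4 := Set.ncard_insert_le b {c, d, e}
    have h3 := Set.ncard_insert_le c {d, e}
    have h2 := Set.ncard_insert_le d {e}
    rw [Set.ncard_singleton] at h2
    omega
  obtain ⟨x, hx, h1⟩ := pick (X := X) (E := {a, b, c, d, e}) (Set.toFinite _) (by omega : _ < X.ncard)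
  exact ⟨x, hx, fun h2 => h1 (by simp [h2]), fun h2 => h1 (by simp [h2]),
    fun h2 => h1 (by simp [h2]), fun h2 => h1 (by simp [h2]), fun h2 => h1 (by simp [h2])⟩

/-! ### The model of `K3:0,1,02` -/

/-- the model of `K3:0,1,02`: the triangle `P Q R`; `X` touches `P`, `Y` touches `Q`, `Z` touches `P` and `R` -/
theorem mdl {G : SimpleGraph V} (hG : FH G) {P Q R X Y Z : Set V} (cP : Conn G P) (cQ : Conn G Q)
    (cR : Conn G R) (cX : Conn G X) (cY : Conn G Y) (cZ : Conn G Z)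
    (dPQ : Disjoint P Q) (dPR : Disjoint P R) (dQR : Disjoint Q R)
    (dPX : Disjoint P X) (dQX : Disjoint Q X) (dRX : Disjoint R X)
    (dPY : Disjoint P Y) (dQY : Disjoint Q Y) (dRY : Disjoint R Y)
    (dPZ : Disjoint P Z) (dQZ : Disjoint Q Z) (dRZ : Disjoint R Z)
    (dXY : Disjoint X Y) (dXZ : Disjoint X Z) (dYZ : Disjoint Y Z)
    (tPQ : Tch G P Q) (tPR : Tch G P R) (tQR : Tch G Q R)
    (tPX : Tch G P X) (tQX : ¬ Tch G Q X) (tRX : ¬ Tch G R X)
    (tPY : ¬ Tch G P Y) (tQY : Tch G Q Y) (tRY : ¬ Tch G R Y)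
    (tPZ : Tch G P Z) (tQZ : ¬ Tch G Q Z) (tRZ : Tch G R Z)
    (tXY : ¬ Tch G X Y) (tXZ : ¬ Tch G X Z) (tYZ : ¬ Tch G Y Z) : False :=
  hG (H1.M0Aux.model cP cQ cR cX cY cZ dPQ dPR dQR dPX dQX dRX dPY dQY dRY dPZ dQZ dRZ dXY dXZ dYZ
    tPQ tPR tQR tPX tQX tRX tPY tQY tRY tPZ tQZ tRZ tXY tXZ tYZ)

/-- the same for three vertices `x`, `y`, `z` -/
theorem mdlV {G : SimpleGraph V} (hG : FH G) {P Q R : Set V} {x y z : V} (cP : Conn G P)
    (cQ : Conn G Q) (cR : Conn G R) (dPQ : Disjoint P Q) (dPR : Disjoint P R)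
    (dQR : Disjoint Q R) (xP : x ∉ P) (xQ : x ∉ Q) (xR : x ∉ R) (yP : y ∉ P) (yQ : y ∉ Q)
    (yR : y ∉ R) (zP : z ∉ P) (zQ : z ∉ Q) (zR : z ∉ R) (tPQ : Tch G P Q) (tPR : Tch G P R)
    (tQR : Tch G Q R) (hxP : ∃ p ∈ P, G.Adj x p) (hxQ : ∀ p ∈ Q, ¬ G.Adj x p)
    (hxR : ∀ p ∈ R, ¬ G.Adj x p) (hyQ : ∃ p ∈ Q, G.Adj y p) (hyP : ∀ p ∈ P, ¬ G.Adj y p)
    (hyR : ∀ p ∈ R, ¬ G.Adj y p) (hzP : ∃ p ∈ P, G.Adj z p) (hzR : ∃ p ∈ R, G.Adj z p)
    (hzQ : ∀ p ∈ Q, ¬ G.Adj z p) (hxy : ¬ G.Adj x y) (hxz : ¬ G.Adj x z)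
    (hyz : ¬ G.Adj y z) : False :=
  hG (H1.pfM0 V G P Q R x y z cP cQ cR dPQ dPR dQR xP xQ xR yP yQ yR zP zQ zR tPQ tPR tQR
    hxP hxQ hxR hyQ hyP hyR hzP hzR hzQ hxy hxz hyz)

end Pool.Agent.MPd439b2.H1T
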