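import Pool.Agent.Lib.MP_d439b2_co.X3.H1T.Spec

/-!
# MP_d439b2_co, X3/H1T: Few (helper68)
-/

set_option autoImplicit false

namespace Pool.Agent.MPd439b2.H1T

open Pool.Agent.MPd439b2

private theorem enum {α : Type*} [Nonempty α] {T : Set α} (hT : T.Finite) {N : ℕ}
    (h : N ≤ T.ncard) :
    ∃ f : ℕ → α, (∀ i < N, f i ∈ T) ∧ ∀ i < N, ∀ j < N, f i = f j → i = j := by
  classical
  have hc : hT.toFinset.card = T.ncard := (Set.ncard_eq_toFinset_card T hT).symm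
  let e := hT.toFinset.equivFin.symm
  let f : ℕ → α := fun i => if hi : i < hT.toFinset.card then (e ⟨i, hi⟩ : α) else
    Classical.arbitrary α
  have hf : ∀ i (hi : i < hT.toFinset.card), f i = (e ⟨i, hi⟩ : α) := fun i hi => dif_pos hi
  refine ⟨f, fun i hi => ?_, fun i hi j hj hij => ?_⟩
  · rw [hf i (by omega)]
    exact hT.mem_toFinset.1 (e ⟨i, by omega⟩).2
  · rw [hf i (by omega), hf j (by omega)] at hij
    have := e.injective (Subtype.ext hij)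
    exact Fin.mk.inj_iff.1 this

theorem tFew (hBad : S_Bad) (hSv : S_Sv) : S_Few := by
  intro t b c
  obtain ⟨N, hN⟩ := hBad t b c
  refine ⟨N, ?_⟩
  intro n V _ G SS κ lg E A B hP hc
  obtain ⟨hXS, -, -, -⟩ := hSv V G t b n SS κ lg E
  by_contra hcon
  push Not at hcon
  have hne : (BF SS κ lg A B).Nonempty := by
    apply Set.nonempty_of_ncard_ne_zero
    omega
  obtain ⟨F0, s0, hs0, -, ⟨y0, hy0, -⟩, -⟩ := hne
  haveI : Nonempty V := ⟨y0⟩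
  obtain ⟨f, hf1, hf2⟩ := enum (Set.toFinite (BF SS κ lg A B)) hcon.le
  have hch : ∀ i, ∃ (s : Set V × Set V) (y : V) (r r' : ℕ), i < N → (s ∈ SS ∧ s.1 = f i ∧
      (y ∈ A ∧ y ∈ s.2 ∧ ∀ r < 3, y ≠ κ s r) ∧ r < 3 ∧ r' < 3 ∧ r ≠ r' ∧ lg s r ∈ B ∧
      lg s r' ∈ B) := by
    intro i
    by_cases hi : i < N
    · obtain ⟨s, hs, hsf, ⟨y, hy⟩, r, hr, r', hr', h⟩ := hf1 i hi
      exact ⟨s, y, r, r', fun _ => ⟨hs, hsf, hy, hr, hr', h⟩⟩
    · exact ⟨s0, y0, 0, 0, fun h => absurd h hi⟩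
  choose s y r r' hall using hch
  refine hN n V G A B (fun i => (s i).1) (fun i => (s i).2) y (fun i => κ (s i) (r i))
    (fun i => κ (s i) (r' i)) (fun i => lg (s i) (r i)) (fun i => lg (s i) (r' i)) E.hH E.hJ E.bn
    hc ?_
  have hzA : ∀ i < N, ∀ q < 3, κ (s i) q ∈ A ∨ κ (s i) q ∈ B := by
    intro i hi q hq
    have := hXS (s i) (hall i hi).1 (κ (s i) q) (E.kX (s i) (hall i hi).1 q hq)
    rw [← hP.1] at this
    exact this
  constructor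
  · intro i hi
    exact E.hs _ (hall i hi).1
  · intro i hi j hj hij
    apply hf2 i hi j hj
    rw [← (hall i hi).2.1, ← (hall j hj).2.1]
    exact hij
  · intro i hi
    obtain ⟨h1, h2, h3, h4, h5, h6, h7, h8⟩ := hall i hi
    exact ⟨h3.2.1, E.kX _ h1 _ h4, E.kX _ h1 _ h5⟩
  · intro i hi
    obtain ⟨h1, h2, h3, h4, h5, h6, h7, h8⟩ := hall i hi
    exact ⟨h3.2.2 _ h4, h3.2.2 _ h5, fun h => h6 (E.kI _ h1 _ h4 _ h5 h)⟩
  · intro i hi
    obtain ⟨h1, h2, h3, h4, h5, h6, h7, h8⟩ := hall i hi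
    exact ⟨E.lC _ h1 _ h4, E.lC _ h1 _ h5⟩
  · intro i hi
    obtain ⟨h1, h2, h3, h4, h5, h6, h7, h8⟩ := hall i hi
    exact ⟨E.lA _ h1 _ h4, E.lA _ h1 _ h5⟩
  · intro i hi
    obtain ⟨h1, h2, h3, h4, h5, h6, h7, h8⟩ := hall i hi
    exact ⟨h3.1, h7, h8⟩
  · intro i hi
    obtain ⟨h1, h2, h3, h4, h5, h6, h7, h8⟩ := hall i hi
    exact ⟨hzA i hi _ h4, hzA i hi _ h5⟩

end Pool.Agent.MPd439b2.H1T
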