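import Pool.Agent.Lib.MP_d439b2_co.X3.H1T.Spec

/-!
# MP_d439b2_co, X3/H1T: the properties of the hubs (assembly)
-/

set_option autoImplicit false

namespace Pool.Agent.MPd439b2.H1T

open Pool.Agent.MPd439b2

theorem tHub (h1 : S_Leg) (h2 : S_FL) (h3 : S_Tr) (h4 : S_FW) (h5 : S_Bd) (h6 : S_Sm)
    (h7 : S_Ne) : S_Hub := by
  intro t b
  obtain ⟨r, hr⟩ := h5 t
  refine ⟨2 * b + r + 5, fun n hn V _ G hH hJ hM F X hX => ?_⟩
  obtain ⟨hnX, l, hl, rfl⟩ := hX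
  have h5X : 5 ≤ X.ncard := by omega
  refine ⟨hnX, hl.cl, ?_, ?_, ?_, ?_, ?_, ?_, ?_⟩
  · intro x hx hxF
    obtain ⟨y, hy, hyx⟩ := pick1 (X := X) (by omega) x
    exact hyx ((hl.xl x hx y hy).mp (hxF y hy)).symm
  · intro x hx
    exact ⟨l x, h1 V G X l hH hl h5X x hx, (hl.xl x hx x hx).mpr rfl⟩
  · exact h2 V G X l hH hl h5X
  · exact h6 V G b X l hM hH hl (by omega)
  · exact h3 V G X l hH hl h5X
  · exact h4 V G X l hH hl h5X
  · exact h7 V G b r X l hM hH hl h5X (hr V G X l hH hJ hl h5X) (by omega)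

end Pool.Agent.MPd439b2.H1T
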