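import Pool.Agent.Lib.MP_d439b2_co.X3.H1T.Base
import Pool.Agent.Lib.MP_d439b2_co.Rep.RowX4

/-!
# MP_d439b2_co, X3/H1T: thin spiders in graphs without `K3:0,1,02` (helper90, note 2894, refereed in 2902)

**Theorem S.** Let `G` be without the induced minors `K3:0,1,02`, `J_t = co(P_3 + t P_2)`, and with `Link β c₀`.
There is a set of vertices such that the rest of the graph has no thin spider with `n` legs, and layouts of the rest
extend to layouts of `G` (`n` depends on `t`, `β 2` only).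

Everything is in `G`; `x ~ y` ('x sees y') means `G.Adj x y`.  Definitions: `Base.lean` (`Spd`, `Fs`, `CQ`, `Cell`, `Hb`,
`MHb`, `HS`, and the facts `cell_F`, `cell_X`, `cell_nb`, `cell_dis`, `cell_x`, `cell_two`, `pick1`, .., `pick5`, `rows_le`,
`rk_le_rows`, `rk_hg`, `ram`, `mdl`, `mdlV`).

'MODEL P | Q | R ; X, Y, Z' means: apply `mdl` (or `mdlV`, if `X`, `Y`, `Z` are vertices) with these sets; `P`, `Q`, `R`
touch pairwise, `X` touches `P` only, `Y` touches `Q` only, `Z` touches `P` and `R` and misses `Q`, and `X`, `Y`, `Z` miss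
each other; all sets are connected and pairwise disjoint.  (Different vertices: mostly because a third vertex sees
only one of them, or because one is in a cell, the other one in the clique or in the base.)

Every `S_X` is a statement to be proved in its own file `X.lean` of this folder; the docstring contains the complete
proof; the used statements `(Uses S_A, S_B)` are hypotheses: `theorem tX (h1 : S_A) (h2 : S_B) : S_X`.
-/

set_option autoImplicit false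

namespace Pool.Agent.MPd439b2.H1T

open Pool.Agent.MPd439b2

/-! ## 1. One spider -/

/-- **Tab** (150 lines).  Connected sets and a spider: (1) all legs or at most one, (2) if exactly one leg `l x` then at
most `x` in the clique, (3) if no leg then all of the clique or at most one element.

Proof. `Tch G S {v}` = `S` touches `v`.  `l` is injective on `X` (`x ~ l x = l y` gives `x = y`), `l y ∉ X`, `S` is disjoint from `X` and
the legs.
(1) Let `S` touch `l x`, `l y`, `x ≠ y`, and miss `l z`.  (a) `S` misses another leg `l w`, `w ≠ z`: MODEL `{y, w} | {z} | S ∪ {l x, x} ;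
{l w}, {l z}, {l y}`.  (`S ∪ {l x, x}` is connected: `S` touches `l x`, `l x ~ x`; `x ~ y, z`; `l w`, `l z` miss `S`.)  (b) Otherwise `S` touches
all the legs except for `l z`; let `u, w ∈ X` be different from `x, y, z` and each other (`pick4`, 5 elements): MODEL
`S | {z, w, l w} | {y, u, l u} ; {l x}, {l z}, {l y}`.  (`S` touches `l w`, `l u`; `z ~ y`.)
(2) Let `S` touch `l x` and `y ∈ X`, `y ≠ x`, and miss some leg; by (1) `l x` is the only leg which `S` touches.  Let `z ∈ X`, `z ≠ x, y`.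
`S` touches `z`: MODEL `{x, z} | {y} | S ; {l z}, {l y}, {l x}`.  `S` misses `z`: MODEL `{y} | {z} | {x} ; {l y}, {l z}, S ∪ {l x}`.
(3) `S` touches no leg, touches `x ≠ y` and misses `z`: MODEL `{x} | {z} | {y} ; {l x}, {l z}, S`. -/
def S_Tab : Prop := ∀ (V : Type) (G : SimpleGraph V) (X : Set V) (l : V → V) (S : Set V), FH G →
  Spd G X l → 5 ≤ X.ncard → Conn G S → (∀ x ∈ X, x ∉ S ∧ l x ∉ S) →
  ((∀ x ∈ X, Tch G S {l x}) ∨ ∀ x ∈ X, ∀ y ∈ X, Tch G S {l x} → Tch G S {l y} → x = y) ∧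
  ((∃ x ∈ X, ¬ Tch G S {l x}) → ∀ x ∈ X, ∀ y ∈ X, Tch G S {l x} → Tch G S {y} → y = x) ∧
  ((∀ x ∈ X, ¬ Tch G S {l x}) →
    (∀ x ∈ X, Tch G S {x}) ∨ ∀ x ∈ X, ∀ y ∈ X, Tch G S {x} → Tch G S {y} → x = y)

/-- **One** (70 lines).  Connected sets outside the base touch at most one leg.  (Uses `S_Tab`.)

Proof. Induction on `S.ncard`.  Suppose `S` touches `l x`, `l y`, `x ≠ y`; by Tab (1) it touches all the legs.  If `S = {v}` then
`v ∈ Fs G X l`.  Otherwise there is `v ∈ S` with `S \ {v}` connected (`growAux.shrink` of `B/Grow.lean`, for any `u ∈ S`).  `S \ {v}` touches at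
most one leg (induction), `{v}` touches at most one leg (Tab (1) for `{v}`, as `v ∉ Fs G X l`).  But `S` touches at least
three legs. -/
def S_One : Prop := ∀ (V : Type) [Finite V] (G : SimpleGraph V) (X : Set V) (l : V → V) (S : Set V),
  FH G → Spd G X l → 5 ≤ X.ncard → Conn G S → (∀ x ∈ X, x ∉ S ∧ l x ∉ S) →
    (∀ v ∈ S, v ∉ Fs G X l) → ∀ x ∈ X, ∀ y ∈ X, Tch G S {l x} → Tch G S {l y} → x = y

/-- **Leg** (90 lines).  The legs are in the cells.  (Uses `S_Tab`, `S_One`.)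

Proof. `F = Fs G X l`; `l x ∉ F`, and `y ∉ F` for `y ∈ X` (`y ≁ l z` for `z ≠ y`).  Let `Q` be the component of `l x` in the set `A` of the
vertices which are not in `F`, not in `X` and not a leg `l y`, `y ∈ X`, `y ≠ x` (`exists_comp`; `l x ∈ A`).
CLAIM: `Q` touches no leg `l y`, `y ≠ x`, and no `y ∈ X`, `y ≠ x`.  Let `q ∈ Q` be adjacent to one of them; `q ≠ l x`.  Let `K` be the
component of `q` in `Q \ {l x}`.  `K` touches `l x`: otherwise no vertex of `Q` is in `nb G K`, so `K = Q` (`Conn.eq_of_nb`), but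
`l x ∈ Q \ K`.  `K` is connected, disjoint from `X`, from the legs and from `F`.  By One `K` touches no leg except for `l x`, so by Tab (2)
it touches no `y ≠ x` in `X`: contradiction.
So `CQ G F X x Q`: `nb`: let `q ∈ Q`, `q ~ u`, `u ∉ Q`, `u ∉ F`: then `u ∉ A` (component), so `u` is a leg `l y`, `y ≠ x` (impossible), or in `X`,
so `u = x`.  `tx`: `l x ~ x`. -/
def S_Leg : Prop := ∀ (V : Type) [Finite V] (G : SimpleGraph V) (X : Set V) (l : V → V), FH G →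
  Spd G X l → 5 ≤ X.ncard → ∀ x ∈ X, l x ∈ Cell G (Fs G X l) X x

/-- **FL** (120 lines).  The base is complete to the cells.  (Uses `S_Leg`.)

Proof. `F = Fs G X l`; `X ∩ F = ∅`.  Let `f ∈ F`, `r ∈ Q`, `CQ G F X x Q`, `f ≁ r`.  `r ≠ l x`.  Let `K` be the component of `x` in `(insert x Q) \ {r}`
(`exists_comp`).  `K` touches `r`: otherwise `K` has no neighbours in `insert x Q`, which is connected (`tx`), so `K = insert x Q ∋ r`
(`Conn.eq_of_nb`).  Let `z, w, u ∈ X` be different from each other and from `x`.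
MODEL `{f} | K ∪ {l x} | {z, w, l w} ; l u, r, l z`.
(`K ∪ {l x}` is connected since `x ∈ K`; `f ~ l x, l w, l u, l z`; `x ~ z`; `l y ∈ Cell y` by Leg for all `y ∈ X`, `K ⊆ insert x Q` with `Q ⊆ Cell x`, so
`l u`, `l z`, `l w` miss `K` (`cell_dis`; `l u ≁ x`); `r ∈ Cell x` misses `z`, `w` (`cell_x`), `l w`, `l u`, `l z` (`cell_dis`).) -/
def S_FL : Prop := ∀ (V : Type) [Finite V] (G : SimpleGraph V) (X : Set V) (l : V → V), FH G →
  Spd G X l → 5 ≤ X.ncard → ∀ x ∈ X, ∀ r ∈ Cell G (Fs G X l) X x, ∀ f ∈ Fs G X l, G.Adj f r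

/-- **Tr** (40 lines).  The trace of a vertex.  (Uses `S_Tab`.)

Proof. If `v = l z`, `z ∈ X`: only `z` is adjacent to `v`.  Otherwise Tab for `S = {v}` (`Conn.singleton`; `v ∉ X`, no leg): `v` does not see
all the legs (`v ∉ Fs G X l`).  If it sees `l x`: (2) gives `y = x` for all `y ∈ X` which see `v`.  If it sees no leg: (3). -/
def S_Tr : Prop := ∀ (V : Type) [Finite V] (G : SimpleGraph V) (X : Set V) (l : V → V), FH G →
  Spd G X l → 5 ≤ X.ncard → ∀ v, v ∉ X → v ∉ Fs G X l →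
    (∀ x ∈ X, ∀ y ∈ X, G.Adj v x → G.Adj v y → x = y) ∨ ∀ x ∈ X, G.Adj v x

/-- **FW** (90 lines).  The base is complete to the vertices which see exactly one element of the clique.  (Uses
`S_Leg`, `S_FL`.)

Proof. `F = Fs G X l`, `X ∩ F = ∅`.  `v ∈ Cell x`: FL.  `v ∉ Cell y` for `y ≠ x` (`cell_x`: `x` sees `v`).  Suppose `v ∉ Cell x`: then `v` misses all cells (`cell_nb`:
if `r ∈ Cell y`, `r ~ v`, then `v ∈ Cell y`, `v ∈ F` or `v = y`).  The legs are in the cells (Leg).  Suppose `f ∈ F`, `f ≁ v`.  Let `z, u, w ∈ X` be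
different from each other and from `x`: MODEL `{f} | {x, l x} | {z, u, l u} ; l w, v, l z`. -/
def S_FW : Prop := ∀ (V : Type) [Finite V] (G : SimpleGraph V) (X : Set V) (l : V → V), FH G →
  Spd G X l → 5 ≤ X.ncard → ∀ v, v ∉ X → v ∉ Fs G X l → ∀ x ∈ X, G.Adj v x →
    (∀ y ∈ X, G.Adj v y → y = x) → ∀ f ∈ Fs G X l, G.Adj f v

/-- the elements of the clique with a private neighbour outside the cells -/
def Bd {V : Type} (G : SimpleGraph V) (F X : Set V) : Set V :=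
  {x | x ∈ X ∧ ∃ w, w ∉ X ∧ w ∉ F ∧ w ∉ Cell G F X x ∧ G.Adj w x ∧ ∀ y ∈ X, G.Adj w y → y = x}

/-- **Bd** (200 lines).  Few elements of the clique have a private neighbour outside the cells.  (Uses `S_Tab`, `S_Leg`,
`S_FW`; import `ON/JB.lean`, `ON/JFF.lean`: `ON.oJFF ON.oJB`, and `W.ramC`.)

Proof. `F = Fs G X l`, `X ∩ F = ∅`; `m = max 5 ((t + 3) ^ 2)`, `r` = the number of `W.ramC` for the colours `Bool` and `m`.  Suppose `Bd G F X` has at
least `r` elements; choose different elements `x i`, `i < r`, and `w i` as in the definition.  (1) `w i ∉ Cell y` for all `y ∈ X` (`y ≠ x i`: `cell_x`), so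
`w i` misses all cells (`cell_nb`), in particular the legs `l y ∈ Cell y` (Leg).  The `w i` are different.  `W.ramC` for `χ i j = (w i ~ w j)`: write
`x i`, `w i`, `i < m`, for the homogeneous subsequence.
(2) The `w i` are a clique.  `D = Gᶜ`: `Ind D m x`, `Ind D m w`, `Cam D m x w` (`D.Adj (x i) (w j)` iff `i ≠ j`: `x i ≠ w j`, `x i ~ w j` iff `i = j`).  This
contradicts `ON.FjF D t` (`ON.oJFF ON.oJB`; `Dᶜ = G`).
(3) The `w i` are stable.  `X' = {x i | i < m}`, `l' (x i) = w i`: `Spd G X' l'`; `F'' = Fs G X' l'`.  Let `Q` be the component of `w 0` in `(F ∪ X)ᶜ`.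
(3a) `Q ∩ Cell y = ∅` for `y ∈ X`: let `q ∈ Q ∩ Q'`, `CQ G F X y Q'`; `Q` is connected and disjoint from `F ∪ X`, so `Q ⊆ Q'` (by `nb` of `Q'`), so
`w 0 ∈ Cell y`, against (1).  So `Q` contains no leg, and touches no leg: `q ~ l y` gives `l y ∈ Q` (component, `l y ∉ F ∪ X`).
(3b) `Q` touches all elements of `X`: otherwise by Tab (3) it touches only `x 0` (`w 0 ~ x 0`), so `CQ G F X (x 0) Q` and `w 0 ∈ Cell (x 0)`.
(3c) There is `f ∈ Q ∩ F''`: otherwise let `CQ G F'' X' (x 0) Q''`, `w 0 ∈ Q''` (Leg for `X'`, `l'`); `Q` is connected, disjoint from `F''` and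
`X'`, so `Q ⊆ Q''`; by (3b) some `q ∈ Q` sees `x 1`, but `x 1 ∉ Q''`, `x 1 ∉ F''` (`x 1 ≁ w 0`), `x 1 ≠ x 0`: contradiction to `nb`.
(3d) `f` misses the legs `l y`, `f ∉ X`, `f` sees the `w i`: MODEL `{f} | {x 1, w 1} | {x 2, x 3, w 3} ; w 4, l (x 1), w 2`.
(`w i ≠ l y`: by (1), `w i ∉ Cell y`.) -/
def S_Bd : Prop := ∀ t : ℕ, ∃ r : ℕ, ∀ (V : Type) [Finite V] (G : SimpleGraph V) (X : Set V)
  (l : V → V), FH G → FJ t G → Spd G X l → 5 ≤ X.ncard → (Bd G (Fs G X l) X).ncard < r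

/-- what is used of `Link β c₀`, `b = β 2` -/
def MC2 {V : Type} (G : SimpleGraph V) (b : ℕ) : Prop :=
  ∀ Y : Set V, LK.cr G Y ≤ 2 → Y.ncard ≤ b ∨ Yᶜ.ncard ≤ b

/-- **Sm** (60 lines).  The cells are small.  (Uses `S_FL`.)

Proof. `Y = Cell G F X x`, `F = Fs G X l`.  For `r ∈ Y` the set `{v | v ∈ Yᶜ ∧ r ~ v}` is `F` or `insert x F`: `F ⊆ Yᶜ` (`cell_F`), `F` is complete to `Y`
(FL), `x ∉ Y` (`cell_X`), and `cell_nb`.  So `cr G Y ≤ 2` (`(LK.a1 V G).2.2.2.2.2` with `𝒯 = {F, insert x F}`), and `Y` or `Yᶜ ⊇ X` has at most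
`b` elements; `b < |X|`. -/
def S_Sm : Prop := ∀ (V : Type) [Finite V] (G : SimpleGraph V) (b : ℕ) (X : Set V) (l : V → V),
  MC2 G b → FH G → Spd G X l → b + 5 ≤ X.ncard → ∀ x ∈ X, (Cell G (Fs G X l) X x).ncard ≤ b

/-- **Ne** (130 lines).  The base is not complete to the clique without one element.  (Uses `S_FL`, `S_Tr`.)

Proof. `F = Fs G X l`, `X ∩ F = ∅`.  Suppose `F` is complete to `X \ {x}`.  Choose `I ⊆ X \ (Bd G F X ∪ {x})` with `b + 1` elements, and `i₀ ∈ I`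
(`|X| ≥ 2 b + r + 4`, `|Bd| < r`).  `Y = {v | v ∈ I ∨ ∃ i ∈ I, v ∈ Cell i}`.  Rows of `Y` on `Yᶜ`: (a) For `r ∈ Cell i`, `i ∈ I`, and `v ∉ Y`: `r ~ v` iff `v ∈ F`
(`cell_nb`, FL; `F ∩ Y = ∅`).  (b) For `i ∈ I` and `v ∉ Y`: `i ~ v` iff `i₀ ~ v`: if `v ∈ X` both are true (`v ∉ I`); if `v ∈ F` both are true (`i, i₀ ≠ x`);
if `v ∈ Cell y`, `y ∈ X`: then `y ∉ I`, both are false (`cell_x`); otherwise, if `i ~ v`: by Tr `v` sees all of `X` (so `i₀ ~ v`) or only `i`, and then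
`i ∈ Bd G F X`: contradiction; the same for `i₀`.
So there are at most two rows, `cr G Y ≤ 2` (as in Sm), and `Y ⊇ I` or `Yᶜ ⊇ X \ I` has at most `b` elements: both have at least `b + 1`. -/
def S_Ne : Prop := ∀ (V : Type) [Finite V] (G : SimpleGraph V) (b r : ℕ) (X : Set V) (l : V → V),
  MC2 G b → FH G → Spd G X l → 5 ≤ X.ncard → (Bd G (Fs G X l) X).ncard < r →
    2 * b + r + 4 ≤ X.ncard → ∀ x, ∃ f ∈ Fs G X l, ∃ y ∈ X, y ≠ x ∧ ¬ G.Adj f y

/-- **Hub.** The properties of the hubs.  (Assembly: Leg, FL, Tr, FW, Bd, Sm, Ne.) -/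
def S_Hub : Prop := ∀ t b : ℕ, ∃ n₀ : ℕ, ∀ n : ℕ, n₀ ≤ n → ∀ (V : Type) [Finite V]
  (G : SimpleGraph V), FH G → FJ t G → MC2 G b → ∀ F X : Set V, Hb G n F X → HS G b n F X

/-- **Mx** (80 lines).  Every spider is in a maximal hub, and its legs are in the cells of this hub.  (Uses `S_Leg`.)

Proof. `F = Fs G X l`.  The set `{X' | Hb G n F X' ∧ X ⊆ X'}` is finite and contains `X`; let `X'` be a maximal element
(`Set.Finite.exists_maximal`).  `MHb G n F X'`.  Let `x ∈ X`; `l x ∈ Q`, `CQ G F X x Q` (Leg).  Then `CQ G F X' x Q`: only `dX` is new: let `q ∈ Q ∩ X'`,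
and let `y ∈ X`, `y ≠ x`; `y ≠ q` (`q ∉ X`), so `q ~ y` (`X'` is a clique), and by `nb` `y ∈ Q` or `y ∈ F` or `y = x`: all impossible (`dX`; `y ≁ l x`). -/
def S_Mx : Prop := ∀ (V : Type) [Finite V] (G : SimpleGraph V) (n : ℕ) (X : Set V) (l : V → V),
  FH G → 5 ≤ n → n ≤ X.ncard → Spd G X l →
    ∃ X', MHb G n (Fs G X l) X' ∧ X ⊆ X' ∧ ∀ x ∈ X, l x ∈ Cell G (Fs G X l) X' x

/-! ## 2. Two hubs -/

/-- **A** (180 lines).  Maximal hubs with the same base are equal or disjoint.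

Proof. The situation is symmetric, so it is enough to show `X' ⊆ X`.  Let `z ∈ X' \ X` and `p ∈ X ∩ X'`.  `L x` = `Cell G F X x` (`x ∈ X`), `L' y` =
`Cell G F X' y` (`y ∈ X'`); use `HS` for both.
(1) `X' ∩ L x = ∅` (`x ∈ X`): let `u ∈ X' ∩ L x`; every `v ∈ X'`, `v ≠ u`, is adjacent to `u`, so in `L x`, in `F` (impossible) or `= x`.  So `X' ⊆ insert x (L x)`
has at most `b + 1 < n` elements.  In the same way `X ∩ L' y = ∅` (`y ∈ X'`).
(2) Let `y ∈ X' \ X`.  `y` misses `L x`, `x ∈ X` (`cell_nb`: `y ∈ L x` against (1), `y ∈ F`, `y = x`).  Every `x ∈ X` misses `L' y` (in the same way).  Let `c ∈ L' y`,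
`c ~ y`.  `c ∉ L x` (`y` misses `L x`), and `c` misses `L x` (`cell_nb`: `c ∈ L x`, `c ∈ F` or `c = x ∈ X ∩ L' y`, all impossible).
(3) Every `y ∈ X' \ X` is complete to `X`.  `y ∉ X`, `y ∉ F`, `y ~ p`; by `tr` it is enough to exclude that `p` is the only neighbour in `X`.  Suppose this; by `FW`
`F` is complete to `y`.  We show that `F` is complete to `X \ {p}`, against `ne`: let `f ∈ F`, `v ∈ X`, `v ≠ p`, `f ≁ v`.  `c_p ∈ L p`, `c_p ~ p`; `c_u ∈ L u`, `c_u ~ u` for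
some `u ∈ X`, `u ≠ p, v`; `c ∈ L' y`, `c ~ y`.  MODEL `{f} | {p, c_p} | {y} ; c_u, v, c`.  (`f` sees `c_p, y, c_u, c` (`FL` for both hubs); `p ~ y`; `c_u ≁ p, c_p, y, v, c`;
`v ~ p`, `v ≁ y, c`; `c ~ y`, `c ≁ p, c_p`; `v ≠ y, c` by (1) and `y ∉ X`.)
(4) `X ∪ X'` is a clique.  Choose `c x ∈ L x`, `c x ~ x` for `x ∈ X` and `c y ∈ L' y`, `c y ~ y` for `y ∈ X' \ X`.  `Spd G (X ∪ X') c`: `xl`: `cell_x` inside `X` and inside `X'`,
and (2); `ll`: `cell_dis` and (2); `nx`: (1), `cell_X`.  `Fs G (X ∪ X') c = F`: `⊇`: `FL` twice; `⊆`: `cell_two` for two elements of `X`.  So `Hb G n F (X ∪ X')`, and the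
maximality of `X` gives `z ∈ X`: contradiction. -/
def S_A : Prop := ∀ (V : Type) [Finite V] (G : SimpleGraph V) (b n : ℕ) (F X X' : Set V), FH G →
  (∀ F X : Set V, Hb G n F X → HS G b n F X) → b + 4 ≤ n → MHb G n F X → MHb G n F X' →
    (X ∩ X').Nonempty → X = X'

/-- **B** (130 lines).  The cliques do not meet the cells.

Proof. `L x` = `Cell G F X x`, `L' y` = `Cell G F' X' y`; `c_i ∈ L i` with `c_i ~ i` for `i ∈ X` (`leg`), `c'_j ∈ L' j` for `j ∈ X'`.  Suppose `x ∈ X ∩ L' x'`.  `J = {i ∈ X | i ∈ F'}`.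
Every `i ∈ X`, `i ≠ x`, sees `x`, so `i ∈ L' x'`, `i ∈ F'` or `i = x'` (`cell_nb`): `|J| ≥ n - b - 1 ≥ 3`.  `x ∉ F'` (`cell_F`), so `x ∉ J`.  For `i ∈ J`: `c_i ∉ F'`,
because `F'` is complete to `L' x'` (`FL`) and `c_i ≁ x`.  `c = c_x` sees `x ∈ L' x'`, so there are three cases.
(a) `c ∈ L' x'`: `i ∈ J` sees `c` (`FL`), against `cell_x` (`i ≠ x`).
(b) `c ∈ F'`.  Let `j ∈ X'`, `j ≠ x'`, `d = c'_j`.  `d ~ c` (`FL`), so `d ∈ L x`, `d ∈ F` or `d = x`.  `d ≠ x` (`cell_dis`).  `d ∈ L x`: `i ∈ J` sees `d` (`FL`), against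
`cell_x`.  So `d ∈ F`, and `d ~ c_i` for `i ∈ J` (`FL`); so `c_i ∈ L' j`, `c_i ∈ F'` (no) or `c_i = j`.  `c_i ∈ L' j`: another `i' ∈ J` sees `c_i` (`FL`, `i' ∈ F'`),
against `cell_x`.  So `c_i = j` for all `i ∈ J`: two different cells meet, against `cell_dis`.
(c) `c = x'`.  Let `j ∈ X'`, `j ≠ x'`, `d = c'_j`.  `d` sees the `i ∈ J` (`FL`), `d ≁ x` (`cell_dis` in the second hub), `d ≁ c = x'` (`cell_x`).  `d ∉ X` (`d ≠ x`
by `cell_dis`, and the elements of `X` see `x`).  `d ∉ F`, because `F` is complete to `L x ∋ c`.  `tr`: `d` sees at most one element of `X` (but it sees all of `J`) or all (but not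
`x`): contradiction. -/
def S_B : Prop := ∀ (V : Type) [Finite V] (G : SimpleGraph V) (b n : ℕ) (F X F' X' : Set V)
  (x x' : V), HS G b n F X → HS G b n F' X' → b + 4 ≤ n → x ∈ X → x' ∈ X' → x ∉ Cell G F' X' x'

/-- **C** (200 lines).  The cells of different hubs are disjoint.  (Uses `S_B`.)

Proof. `L`, `L'`, `c_i`, `c'_j` as in B.  Let `v ∈ R`, `CQ G F X x R`, `v ∈ R'`, `CQ G F' X' x' R'`.
(1) `R' ⊆ R`: otherwise there is `u ∈ R' \ R` with a neighbour in `R` (`R'` is connected), so `u ∈ F` or `u = x`; `u = x` is impossible by B.  So `u ∈ F ∩ L' x'` is complete to the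
cells of the first hub: every `c_i` is in `L' x'`, in `F'` or `= x'`; at least `n - b - 1 ≥ 3` of them are in `F'`; let `c_i ∈ F'`, `i ≠ x`; `c_i` sees `v ∈ L' x'` (`FL`), but `v ∈ L x`:
against `cell_dis`.  In the same way `R ⊆ R'`; so `R = R'`.
(2) `F ⊆ insert x' F'` (an element of `F` sees `v ∈ R'`, and is not in `R`), `x ∈ insert x' F'` (`x` touches `R`, `x ∉ R`); in the same way `F' ⊆ insert x F`, `x' ∈ insert x F`.
If `x = x'` then `F = F'` (`x ∉ F`, `x ∉ F'`): done.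
(3) Let `x ≠ x'`: `x ∈ F'`, `x' ∈ F`.  For `j ∈ X`, `j ≠ x`: `c_j ~ x'`, `c_j ≁ v` (`cell_dis`), so `c_j ∉ F'`; `c_j ∉ X'` (B).  For `l ∈ X'`, `l ≠ x'`: `d = c'_l` sees `x` (`FL`), `d ≁ v`, so
`d ∉ F`; `d ∉ X` (B); and `x` is the only element of `X` which `d` sees: otherwise by `tr` `d` sees all of `X`; take `j ∈ X`, `j ≠ x, l`: `j ∈ L' l` (no, B), `j ∈ F'` or `j = l`; so
`j ∈ F'` sees `v` (`FL`), against `cell_x`.  `d ≁ c_j` and `d ≠ c_j`: otherwise `c_j ∈ L' l`, or `c_j ∈ F'` (no), or `c_j = l ∈ X'` (no); and `c_j ∈ L' l` is impossible because `c_j ~ x'`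
(`cell_x`, `x' ≠ l`).
(4) Let `1, 2, 3 ∈ X` be different and `≠ x`, `l ∈ X'`, `l ≠ x'`, `d = c'_l`.  MODEL `{x'} | {x, v} | {1, 2, c_2} ; c_3, d, c_1`.
(`x' ∈ F` sees `v, c_2, c_3, c_1`; `x ~ v` because `x ∈ F'`; `x ~ 1`; `d ~ x`, `d ≁ x'` (`cell_x`), `d ≁ v, 1, 2, c_i`; the `c_i` miss `x`, `v`.) -/
def S_C : Prop := ∀ (V : Type) [Finite V] (G : SimpleGraph V) (b n : ℕ) (F X F' X' : Set V)
  (x x' v : V), FH G → HS G b n F X → HS G b n F' X' → b + 4 ≤ n → x ∈ X → x' ∈ X' →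
    v ∈ Cell G F X x → v ∈ Cell G F' X' x' → F = F' ∧ x = x'

/-- the cells of the hubs are complete to each other -/
def CoC {V : Type} (G : SimpleGraph V) (F X F' X' : Set V) : Prop :=
  ∀ x ∈ X, ∀ x' ∈ X', ∀ r ∈ Cell G F X x, ∀ r' ∈ Cell G F' X' x', G.Adj r r'

/-- the cells of the hubs do not touch -/
def AnC {V : Type} (G : SimpleGraph V) (F X F' X' : Set V) : Prop :=
  ∀ x ∈ X, ∀ x' ∈ X', ∀ r ∈ Cell G F X x, ∀ r' ∈ Cell G F' X' x', ¬ G.Adj r r'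

/-- the cells of the hubs are disjoint -/
def DiC {V : Type} (G : SimpleGraph V) (F X F' X' : Set V) : Prop :=
  ∀ x ∈ X, ∀ x' ∈ X', ∀ v, v ∈ Cell G F X x → v ∉ Cell G F' X' x'

/-- **D** (60 lines).  The cells of two hubs are complete to each other or do not touch.  (Uses `S_B`.)

Proof. Suppose `r₀ ∈ Cell G F X x₀`, `r₀' ∈ Cell G F' X' x₀'`, `r₀ ~ r₀'`.  `r₀' ∈ Cell G F X x₀` (no, `DiC`), `r₀' = x₀` (no, B), so `r₀' ∈ F` (`cell_nb`).  Let `r ∈ Cell G F X x`: `r₀' ~ r` (`FL`);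
`r ∈ Cell G F' X' x₀'` (no), `r = x₀'` (no, B), so `r ∈ F'`, and `r` sees every `r' ∈ Cell G F' X' x'` (`FL`). -/
def S_D : Prop := ∀ (V : Type) [Finite V] (G : SimpleGraph V) (b n : ℕ) (F X F' X' : Set V),
  HS G b n F X → HS G b n F' X' → b + 4 ≤ n → DiC G F X F' X' →
    CoC G F X F' X' ∨ AnC G F X F' X'

/-- **E** (140 lines).  There are no `t + 1` hubs whose cells are pairwise complete.  (Import `ON/JB.lean`: `ON.oJB`.)

Proof. `x₁, x₂, x₃ ∈ X 0` different, `c_a ∈ Cell x_a` with `c_a ~ x_a`; for `i < t` let `d i`, `e i` be elements of the cells (legs) of two different elements of `X (i + 1)`.  `ON.oJB` with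
`X 0 = {c₃}`, `X 1 = {x₁, c₁}`, `X 2 = {x₂, c₂}`, `Y i = {d i}`, `Z i = {e i}`.  (`c₃` misses `x₁, c₁, x₂, c₂`; `x₁ ~ x₂`; the `c_a` see all `d i`, `e i`; `d i ≁ e i` (`cell_dis`); for `i ≠ j` `d i ~ d j`, ...;
different vertices: adjacent ones are different, `d i ≠ x₁` since `d i ~ c₃`, `x₁ ≁ c₃`, the same for `x₂`, `e i`.) -/
def S_E : Prop := ∀ (t b n : ℕ) (V : Type) [Finite V] (G : SimpleGraph V) (F X : ℕ → Set V),
  FJ t G → 3 ≤ n → (∀ i < t + 1, HS G b n (F i) (X i)) →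
    (∀ i < t + 1, ∀ j < t + 1, i < j → CoC G (F i) (X i) (F j) (X j)) → False

/-- **TS** (200 lines).  Two hubs whose cells do not touch.  (Uses `S_B`.)

Proof. `L x` = `Cell G F X x`, `L' x` = `Cell G F' X' x`.  Suppose `a ∈ F`, `a ∉ F'`.
(1) At most one element of `X'` is in `F`: `k ∉ F'` (otherwise `k ~ k'` by `FL`, against `AnC`), `k ∉ X'` (B), `k` misses `y' ∈ X'`, so by `tr` `k` sees at most one element of `X'`; the elements of
`F` see `k` (`FL`).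
(2) At most one element of `X` is in `F'`: `k' ∉ F`, `k' ∉ X`, `k'` misses `y ∈ X`: the same.
(3) `y ~ x` for all `x ∈ X'`, `x ≠ y`: `y ∉ F'` (`y ≁ k'`, `FL`).  If `y ∈ X'` clear; otherwise `tr`, because `y` sees two elements of `X'`.
(4) Choose `x₁ ∈ X'` with `x₁ ≠ y`, `x₁ ∉ F`, `x₁ ≠ a`, `a ∉ L' x₁` (at most one element is excluded by each of the four conditions: (1), `cell_dis`), and `e ∈ L' x₁`, `e ~ x₁`.  `a ≁ e` (`cell_nb`: `a ∈ L' x₁`,
`a ∈ F'` or `a = x₁`), `a ≠ e`.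
(5) Choose different `x₂, x₃, x₄ ∈ X`, `≠ y, x₁`, not in `F'` (by (2)), with `c_i ∈ L x_i`, `c_i ~ x_i`, and `d ∈ L y`, `d ~ y`.
MODEL `{a} | {x₁, y, d} | {x₂, x₃, c₃} ; c₄, e, c₂`.
(`a` sees `d, c₃, c₄, c₂` (`FL`); `x₁ ~ y ~ d`, `y ~ x₂`; `c_i ≁ x₁`: `x₁ ∉ L x_i` (B), `x₁ ∉ F`, `x₁ ≠ x_i`, so `cell_nb`; `e ≁ a, y, d, c_i`: `e` misses the cells `L` (`AnC`), `e ≁ y`: `y ∉ L' x₁` (B), `y ∉ F'`, `y ≠ x₁`;
`e ≁ x₂, x₃`: the same, `x₂, x₃ ∉ F'`, `≠ x₁`.  Different vertices: `e ∉ X` (B), `e ∉ L` (`DiC`), `a ∉ X`, `a ∉ L` (`dF`, `cell_F`), `x₁ ∉ L` (B), `x₁ ≠ x_i, y`.) -/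
def S_TS : Prop := ∀ (V : Type) [Finite V] (G : SimpleGraph V) (b n : ℕ) (F X F' X' : Set V)
  (y y' z z' k k' : V), FH G → HS G b n F X → HS G b n F' X' → b + 10 ≤ n → DiC G F X F' X' →
    AnC G F X F' X' → y ∈ X → y' ∈ X' → z ∈ X → z' ∈ X' → k ∈ Cell G F X z →
    k' ∈ Cell G F' X' z' → ¬ G.Adj y k' → ¬ G.Adj y' k →
    (∃ u ∈ X', ∃ u' ∈ X', u ≠ u' ∧ G.Adj y u ∧ G.Adj y u') → F ⊆ F'

/-! ## 3. Bad hubs for a cut -/

/-- **Pz** (70 lines).  (`Hg`: homogeneous, `rk_hg`: Base.)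

Proof. `z 0 ∈ A`, ..., `z (m - 1) ∈ A` are equivalent (`hA`, `3 ≤ m`).  CASE 1: `z i ∈ B` for all `i`: `rk_hg` for `y`, `z`, `d = True`.  CASE 2: `z i ∈ A` for all `i`: `rk_hg` for `z`, `k`, `d = True`: `z i ~ k j` for all `i`, `j`.  If `z 0 = z 1` then
`z i = z j` for all `i, j` (`hz`), and `y i ~ z i = z j`.  Otherwise `z i ≠ z j` for `i ≠ j`, so `z i ~ k' j` by the hypothesis `h`; `rk_hg` for `z`, `k'`, `d = False` gives `z i ≁ k' j`: contradiction (`i = 0`, `j = 1`). -/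
def S_Pz : Prop := ∀ (c m : ℕ) (V : Type) [Finite V] (G : SimpleGraph V) (A B : Set V)
  (y z k k' : ℕ → V), 2 ^ c < m → 3 ≤ m → LK.rk G A B ≤ c →
  (∀ i < m, y i ∈ A ∧ k i ∈ B ∧ k' i ∈ B ∧ (z i ∈ A ∨ z i ∈ B)) →
  (∀ i < m, G.Adj (y i) (z i) ∧ G.Adj (z i) (k i) ∧ ¬ G.Adj (z i) (k' i)) →
  (∀ i < m, ∀ j < m, i ≠ j → G.Adj (z i) (k j) → z i = z j ∨ G.Adj (z i) (k' j)) →
  Hg m (fun i _ => z i ∈ A) → Hg m (fun i j => G.Adj (y i) (z j)) →
  Hg m (fun i j => G.Adj (z i) (k j)) → Hg m (fun i j => G.Adj (z i) (k' j)) →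
  Hg m (fun i j => z i = z j) → ∀ i < m, ∀ j < m, i ≠ j → G.Adj (y i) (z j)

/-- a family of `N` hubs with different bases which are bad for the cut `(A, B)` -/
structure BD {V : Type} (G : SimpleGraph V) (b n : ℕ) (A B : Set V) (N : ℕ) (F X : ℕ → Set V)
    (y z z' k k' : ℕ → V) : Prop where
  hs : ∀ i < N, HS G b n (F i) (X i)
  ne : ∀ i < N, ∀ j < N, F i = F j → i = j
  yX : ∀ i < N, y i ∈ X i ∧ z i ∈ X i ∧ z' i ∈ X i
  df : ∀ i < N, y i ≠ z i ∧ y i ≠ z' i ∧ z i ≠ z' i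
  kC : ∀ i < N, k i ∈ Cell G (F i) (X i) (z i) ∧ k' i ∈ Cell G (F i) (X i) (z' i)
  kz : ∀ i < N, G.Adj (z i) (k i) ∧ G.Adj (z' i) (k' i)
  yA : ∀ i < N, y i ∈ A ∧ k i ∈ B ∧ k' i ∈ B
  zA : ∀ i < N, (z i ∈ A ∨ z i ∈ B) ∧ (z' i ∈ A ∨ z' i ∈ B)

/-- **Bad** (180 lines).  There are few bad hubs with different bases.  (Uses `S_B`, `S_C`, `S_D`, `S_E`, `S_TS`, `S_Pz`.)

Proof. `m = 2 ^ c + t + 4`; `N` from `ram` for `m` and the relations (of `i`, `j`): `y i ~ k j`, `y i ~ k' j`, `y i ~ z j`, `y i ~ z' j`, `z i ~ k j`, `z i ~ k' j`, `z' i ~ k' j`, `z' i ~ k j`, `z i = z j`, `z' i = z' j`, `z i ∈ A`, `z' i ∈ A`,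
`CoC G (F i) (X i) (F j) (X j)` (13 relations, `![..]`).  Pass to the subsequence: `BD` of size `m`.
(1) For `i ≠ j` the cells of the hubs are disjoint (C: `F i ≠ F j`), `DiC`.
(2) `y i ≁ k j`, `y i ≁ k' j` for all `i, j < m`: `rk_hg`, `d = False` (`y i ≁ k i`, `cell_x`).
(3) Pz for `z, k, k'`, and Pz for `z', k', k`.  The hypotheses: `y i ~ z i` (`cl`), `z i ≁ k' i` (`cell_x`); if `z i ~ k j`, `i ≠ j`: `z i ∈ Cell (z j)` (no, B), `z i ∈ F j`, and then `z i ~ k' j` (`FL`), or `z i = z j`.  So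
`y i ~ z j`, `y i ~ z' j` for `i ≠ j`.
(4) `CoC` is not true for all pairs `i < j < t + 1` (E); by homogeneity it is false for all `i < j < m`; so `AnC` for `(0, 1)` (D), and for `(1, 0)` (symmetry of `Adj`).
(5) TS for the hubs `0`, `1` with `y 0`, `y 1`, `z 0`, `z 1`, `k 0`, `k 1` (`u = z 1`, `u' = z' 1`), and for `1`, `0`: `F 0 ⊆ F 1 ⊆ F 0`, against `ne`. -/
def S_Bad : Prop := ∀ t b c : ℕ, ∃ N : ℕ, ∀ (n : ℕ) (V : Type) [Finite V] (G : SimpleGraph V)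
  (A B : Set V) (F X : ℕ → Set V) (y z z' k k' : ℕ → V), FH G → FJ t G → b + 10 ≤ n →
    LK.rk G A B ≤ c → ¬ BD G b n A B N F X y z z' k k'

/-! ## 4. The removal -/

/-- the family `SS` of the maximal hubs `(F, X)`, and the kept cells: those of `κ s r`, `r < 3`, with the leg `lg s r` -/
structure EnS {V : Type} (G : SimpleGraph V) (t b n : ℕ) (SS : Set (Set V × Set V))
    (κ lg : Set V × Set V → ℕ → V) : Prop where
  hH : FH G
  hJ : FJ t G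
  bn : b + 10 ≤ n
  hs : ∀ s ∈ SS, HS G b n s.1 s.2
  un : ∀ s ∈ SS, ∀ s' ∈ SS, s.1 = s'.1 → (s.2 ∩ s'.2).Nonempty → s = s'
  kX : ∀ s ∈ SS, ∀ r < 3, κ s r ∈ s.2
  kI : ∀ s ∈ SS, ∀ r < 3, ∀ r' < 3, κ s r = κ s r' → r = r'
  lC : ∀ s ∈ SS, ∀ r < 3, lg s r ∈ Cell G s.1 s.2 (κ s r)
  lA : ∀ s ∈ SS, ∀ r < 3, G.Adj (κ s r) (lg s r)
  xc : ∀ s ∈ SS, ∀ s' ∈ SS, ∀ x ∈ s.2, ∀ x' ∈ s'.2, x ∉ Cell G s'.1 s'.2 x'
  dc : ∀ s ∈ SS, ∀ s' ∈ SS, ∀ x ∈ s.2, ∀ x' ∈ s'.2, ∀ v, v ∈ Cell G s.1 s.2 x →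
    v ∈ Cell G s'.1 s'.2 x' → s = s' ∧ x = x'
  co : ∀ s ∈ SS, ∀ s' ∈ SS, s ≠ s' → CoC G s.1 s.2 s'.1 s'.2 ∨ AnC G s.1 s.2 s'.1 s'.2

/-- `v` is in the removed cell of `x` of the hub `s` -/
def Rv {V : Type} (G : SimpleGraph V) (SS : Set (Set V × Set V)) (κ : Set V × Set V → ℕ → V)
    (s : Set V × Set V) (x v : V) : Prop :=
  s ∈ SS ∧ x ∈ s.2 ∧ (∀ r < 3, x ≠ κ s r) ∧ v ∈ Cell G s.1 s.2 x

/-- the vertices which are not removed -/
def Sv {V : Type} (G : SimpleGraph V) (SS : Set (Set V × Set V)) (κ : Set V × Set V → ℕ → V) :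
    Set V := {v | ∀ s x, ¬ Rv G SS κ s x v}

/-- `π v` is the place of the removed vertex `v` -/
def IsPl {V : Type} (G : SimpleGraph V) (SS : Set (Set V × Set V)) (κ : Set V × Set V → ℕ → V)
    (π : V → V) : Prop :=
  (∀ v ∉ Sv G SS κ, ∃ s, Rv G SS κ s (π v) v) ∧ ∀ v ∉ Sv G SS κ, π v ∈ Sv G SS κ

/-- **Sv** (60 lines).

Proof. (1) By `xc` an element of `s.2` is in no cell.  (2) `lg s r ∈ Cell (κ s r)`; if `Rv s' x' (lg s r)` then `s' = s`, `x' = κ s r` (`dc`), against the definition of `Rv`.  (3) `dc`.  (4) `v ∉ Sv`: there are `s`, `x` with `Rv s x v`; `π v = x` (choice);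
`x ∈ Sv` by (1). -/
def S_Sv : Prop := ∀ (V : Type) [Finite V] (G : SimpleGraph V) (t b n : ℕ)
  (SS : Set (Set V × Set V)) (κ lg : Set V × Set V → ℕ → V), EnS G t b n SS κ lg →
  (∀ s ∈ SS, ∀ x ∈ s.2, x ∈ Sv G SS κ) ∧ (∀ s ∈ SS, ∀ r < 3, lg s r ∈ Sv G SS κ) ∧
  (∀ s s' x x' v, Rv G SS κ s x v → Rv G SS κ s' x' v → s = s' ∧ x = x') ∧
  ∃ π, IsPl G SS κ π

/-- the bases of the hubs which are bad for `(A, B)`: a removed cell with partner in `A`, two kept legs in `B` -/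
def BF {V : Type} (SS : Set (Set V × Set V)) (κ lg : Set V × Set V → ℕ → V) (A B : Set V) :
    Set (Set V) :=
  {F | ∃ s ∈ SS, s.1 = F ∧ (∃ y ∈ A, y ∈ s.2 ∧ ∀ r < 3, y ≠ κ s r) ∧
    ∃ r < 3, ∃ r' < 3, r ≠ r' ∧ lg s r ∈ B ∧ lg s r' ∈ B}

/-- **Few** (80 lines).  (Uses `S_Bad`, `S_Sv`.)

Proof. `N` from Bad.  If `BF` has more than `N` elements choose different `F i`, `i < N`, in it (`Set.Finite`, an injection of `Fin N`), with hubs `s i`, `X i = (s i).2`, `y i`, `r`, `r'`; `z i = κ (s i) r`, `z' i = κ (s i) r'`, `k i = lg (s i) r`,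
`k' i = lg (s i) r'` (for `i ≥ N` take the values at some fixed index, or any vertices).  `z i, z' i ∈ Sv = A ∪ B` by Sv (1).  This is a `BD` of size `N`: contradiction.  (If `N = 0` Bad is applied to any functions; if `V` is empty `BF` is empty.) -/
def S_Few : Prop := ∀ t b c : ℕ, ∃ N : ℕ, ∀ (n : ℕ) (V : Type) [Finite V] (G : SimpleGraph V)
  (SS : Set (Set V × Set V)) (κ lg : Set V × Set V → ℕ → V), EnS G t b n SS κ lg →
    ∀ A B : Set V, ON.Pt (Sv G SS κ) A B → LK.rk G A B ≤ c → (BF SS κ lg A B).ncard ≤ N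

/-- **Lf** (90 lines).  Few vertices are removed at every place.  (Uses `S_Few`, `S_Sv`.)

Proof. `N` from Few for `c = 1`; `k = N * b`.  `A = {p}`, `B = Sv \ {p}`; `rk G A B ≤ 1` (`(LK.a1 V G).2.2.2.1`).  Let `v ∉ Sv`, `π v = p`: `Rv s p v`.  Then `s.1 ∈ BF A B` (`y = p`; the legs `lg s 0`, `lg s 1` are in `Sv`, and `≠ p` since
`p ∈ s.2` (`cell_X`)).  For `F ∈ BF A B` there is a hub `s` in `SS` with `s.1 = F`, `p ∈ s.2` (`A = {p}`), it is unique (`un`), and `Cell G F s.2 p` has at most `b` elements (`sm`).  So the set of the `v` is contained in the union of at most `N` sets with at most `b`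
elements. -/
def S_Lf : Prop := ∀ t b : ℕ, ∃ k : ℕ, ∀ (n : ℕ) (V : Type) [Finite V] (G : SimpleGraph V)
  (SS : Set (Set V × Set V)) (κ lg : Set V × Set V → ℕ → V), EnS G t b n SS κ lg →
    ∀ π, IsPl G SS κ π → ∀ p ∈ Sv G SS κ, ({v | v ∉ Sv G SS κ ∧ π v = p} : Set V).ncard ≤ k

/-- the traces on `B` of the bases of the hubs with a removed cell whose partner is in `A` -/
def TB {V : Type} (SS : Set (Set V × Set V)) (κ : Set V × Set V → ℕ → V) (A B : Set V) :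
    Set (Set V) :=
  {P | ∃ s ∈ SS, ∃ x ∈ s.2, (∀ r < 3, x ≠ κ s r) ∧ x ∈ A ∧ P = s.1 ∩ B}

/-- **TB** (80 lines).  (Uses `S_Sv`.)

Proof. `TB ⊆ {P ∩ P' | P, P' ∈ Rw G A B} ∪ {F ∩ B | F ∈ BF}`: let `s`, `x`.  If two of the legs `lg s 0, lg s 1, lg s 2` are in `B`: `s.1 ∈ BF` (`y = x`).  Otherwise two of them, `lg s r` and `lg s r'`, are in `A` (they are in `Sv = A ∪ B`), and
`s.1 ∩ B = {b ∈ B | lg s r ~ b} ∩ {b ∈ B | lg s r' ~ b}` by `FL` and `cell_two` (`κ s r ≠ κ s r'`).  (`Set.image2`, `Set.ncard_image_le`, products.) -/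
def S_TB : Prop := ∀ (V : Type) [Finite V] (G : SimpleGraph V) (t b n : ℕ)
  (SS : Set (Set V × Set V)) (κ lg : Set V × Set V → ℕ → V), EnS G t b n SS κ lg →
    ∀ A B : Set V, ON.Pt (Sv G SS κ) A B →
      (TB SS κ A B).ncard ≤ (Rw G A B).ncard * (Rw G A B).ncard + (BF SS κ lg A B).ncard

/-- **R1** (50 lines).  Removed rows on a kept part.  (Uses `S_Sv`.)

Proof. `T = {v | v ∉ Sv ∧ π v ∈ A}`.  Every row of `T` on `B` is in `TB` (`rk_le_rows`, `Set.ncard_le_ncard`): let `v ∈ T`, `Rv s (π v) v`; for `w ∈ B`: `v ~ w` iff `w ∈ s.1`: `w ∈ Cell (π v)` would give `w ∉ Sv`; `w ≠ π v` (`A`, `B` are disjoint); `FL`. -/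
def S_R1 : Prop := ∀ (V : Type) [Finite V] (G : SimpleGraph V) (t b n : ℕ)
  (SS : Set (Set V × Set V)) (κ lg : Set V × Set V → ℕ → V), EnS G t b n SS κ lg →
    ∀ π, IsPl G SS κ π → ∀ A B : Set V, ON.Pt (Sv G SS κ) A B →
      LK.rk G {v | v ∉ Sv G SS κ ∧ π v ∈ A} B ≤ (TB SS κ A B).ncard

/-- **R2** (140 lines).  Removed rows on removed columns.  (Uses `S_Sv`.)

Proof. `T = {v | v ∉ Sv ∧ π v ∈ A}`, `T' = {v | v ∉ Sv ∧ π v ∈ B}`.  For `v ∈ T`, `Rv s (π v) v`, and `w ∈ T'`, `Rv s' (π w) w`: (*) `v ~ w` iff `w ∈ s.1` iff `v ∈ s'.1`: `cell_nb`: `w ∈ Cell G s.1 s.2 (π v)` gives `π v = π w` (`dc`), but `A`, `B` are disjoint;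
`w = π v` is impossible (`π v ∈ Sv`, `w ∉ Sv`); `FL`; the other one by symmetry.
`T₁` = the `w ∈ T'` for which there are `s'`, `r < 3` with `Rv s' (π w) w` and `lg s' r ∈ B`, `T₂ = T' \ T₁`.
(a) `rk G T T₂ = rk G T₂ T ≤ |BF B A|`: the row of `w ∈ T₂` on `T` is `s'.1 ∩ T` by (*), and `s'.1 ∈ BF B A` (`y = π w ∈ B`; the legs are in `Sv = A ∪ B` (Sv (2)), not in `B`, so in `A`).
(b) `rk G T T₁ ≤ |TB A B|`: for `P : Set V` let `Φ P = {w ∈ T₁ | ∃ s' r, Rv s' (π w) w ∧ r < 3 ∧ lg s' r ∈ P}`.  The row of `v ∈ T` on `T₁` is `Φ (s.1 ∩ B)`, where `Rv s (π v) v` (so `s.1 ∩ B ∈ TB A B`): let `w ∈ T₁`.  If `v ~ w`: take `s'`, `r` from the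
definition of `T₁`; `w ∈ s.1` by (*), so `s ≠ s'` (`cell_F`), `co`: `CoC` (because `v ~ w`), so `v ~ lg s' r`, and `cell_nb`: `lg s' r ∈ Cell G s.1 s.2 (π v)` (no, `dc`, `s ≠ s'`) or `= π v` (no, `xc`) or `∈ s.1`.  So `lg s' r ∈ s.1 ∩ B`.  Conversely let
`Rv s' (π w) w`, `lg s' r ∈ s.1 ∩ B`: `v ~ lg s' r` (`FL`); `s ≠ s'` (`cell_F`); so `co` is `CoC`, and `v ~ w`.
`rk G T (T₁ ∪ T₂) ≤ rk G T T₁ + rk G T T₂` (`LK.a1`: (1), (3)). -/
def S_R2 : Prop := ∀ (V : Type) [Finite V] (G : SimpleGraph V) (t b n : ℕ)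
  (SS : Set (Set V × Set V)) (κ lg : Set V × Set V → ℕ → V), EnS G t b n SS κ lg →
    ∀ π, IsPl G SS κ π → ∀ A B : Set V, ON.Pt (Sv G SS κ) A B →
      LK.rk G {v | v ∉ Sv G SS κ ∧ π v ∈ A} {v | v ∉ Sv G SS κ ∧ π v ∈ B} ≤
        (TB SS κ A B).ncard + (BF SS κ lg B A).ncard

/-- **Cut.** The cut lemma.  (Uses `S_Few`, `S_TB`, `S_R1`, `S_R2`.)

Proof. `N` from Few for `c`; `M = 2 ^ c * 2 ^ c + N`; `g = c + 4 * M + N`.  `|TB A A'| ≤ M`, `|TB A' A| ≤ M` (TB, `rows_le`; `rk G A' A = rk G A A' ≤ c`).  `ON.hat S π A = A ∪ T`, `T = {v | v ∉ S ∧ π v ∈ A}`.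
`rk (A ∪ T) (A' ∪ T') ≤ rk A A' + rk T A' + rk A T' + rk T T' ≤ c + M + M + (M + N)`. -/
def S_Cut : Prop := ∀ t b c : ℕ, ∃ g : ℕ, ∀ (n : ℕ) (V : Type) [Finite V] (G : SimpleGraph V)
  (SS : Set (Set V × Set V)) (κ lg : Set V × Set V → ℕ → V), EnS G t b n SS κ lg →
    ∀ π, IsPl G SS κ π → ∀ A A' : Set V, ON.Pt (Sv G SS κ) A A' → LK.rk G A A' ≤ c →
      LK.rk G (ON.hat (Sv G SS κ) π A) (ON.hat (Sv G SS κ) π A') ≤ g

/-- **Theorem S**, in the form of `Rep.blt_remove`.  (Assembly.) -/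
def S_Th : Prop := ∀ (t : ℕ) (T : Set Rep.Ty) (m : ℕ) (β : ℕ → ℕ), ∃ n : ℕ, ∀ k : ℕ,
  ∃ c₀ k' : ℕ, ∀ (V : Type) [Finite V] (G : SimpleGraph V), Rep.Fr K302 (A0.JP t) G →
    Rep.NoT T m G → Rep.Link β c₀ G → ∃ F : Set V, Rep.NoTP (G.induce Fᶜ) n true false false ∧
      (Lay (G.induce Fᶜ) k Set.univ → Lay G k' Set.univ)

end Pool.Agent.MPd439b2.H1T
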