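import Pool.Agent.Lib.MP_d439b2_co.X3.H1T.Spec

/-!
# MP_d439b2_co, X3/H1T, Tab: connected sets and a spider
-/

set_option autoImplicit false

namespace Pool.Agent.MPd439b2.H1T

open Pool.Agent.MPd439b2

namespace tTabAux

variable {V : Type} {G : SimpleGraph V}

theorem tcv {S : Set V} {v : V} (h : Tch G S {v}) : ∃ s ∈ S, G.Adj s v := by
  obtain ⟨s, hs, _, rfl, h1⟩ := h
  exact ⟨s, hs, h1⟩

theorem ntcv {S : Set V} {v : V} (h : ¬ Tch G S {v}) : ∀ s ∈ S, ¬ G.Adj s v :=
  fun s hs h1 => h ⟨s, hs, v, rfl, h1⟩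

theorem dj {A B : Set V} (h : ∀ u ∈ A, ∀ w ∈ B, u ≠ w) : Disjoint A B := by
  rw [Set.disjoint_left]
  intro v hv hv'
  exact h v hv v hv' rfl

theorem tri {a b c : V} (h1 : G.Adj a b) (h2 : G.Adj a c ∨ G.Adj b c) :
    Conn G ({a, b, c} : Set V) := by
  have e : ({a, b, c} : Set V) = insert c {a, b} := by
    ext v
    simp only [Set.mem_insert_iff, Set.mem_singleton_iff]
    tauto
  rw [e]
  refine (Conn.pair h1).insert ?_
  rcases h2 with h2 | h2
  · exact ⟨a, Or.inl rfl, h2⟩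
  · exact ⟨b, Or.inr rfl, h2⟩

end tTabAux

open tTabAux

theorem tTab : S_Tab := by
  intro V G X l S hG hS h5 cS hdis
  have adj : ∀ x ∈ X, ∀ y ∈ X, x ≠ y → G.Adj x y := hS.cl
  have leg : ∀ x ∈ X, G.Adj x (l x) := fun x hx => (hS.xl x hx x hx).mpr rfl
  have nl : ∀ x ∈ X, ∀ y ∈ X, x ≠ y → ¬ G.Adj x (l y) := fun x hx y hy h h' =>
    h ((hS.xl x hx y hy).mp h')
  have nl' : ∀ x ∈ X, ∀ y ∈ X, x ≠ y → ¬ G.Adj (l y) x := fun x hx y hy h h' =>
    nl x hx y hy h h'.symm
  have ll := hS.ll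
  have lX : ∀ x ∈ X, ∀ y ∈ X, l x ≠ y := fun x hx y hy h => hS.nx x hx (h ▸ hy)
  have li : ∀ x ∈ X, ∀ y ∈ X, x ≠ y → l x ≠ l y := fun x hx y hy h h' =>
    nl x hx y hy h (h' ▸ leg x hx)
  have SX : ∀ s ∈ S, ∀ x ∈ X, s ≠ x := fun s hs x hx h => (hdis x hx).1 (h ▸ hs)
  have Sl : ∀ s ∈ S, ∀ x ∈ X, s ≠ l x := fun s hs x hx h => (hdis x hx).2 (h ▸ hs)
  have one : (∀ x ∈ X, Tch G S {l x}) ∨
      ∀ x ∈ X, ∀ y ∈ X, Tch G S {l x} → Tch G S {l y} → x = y := by
    by_contra hcon
    push Not at hcon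
    obtain ⟨⟨z, hz, tz⟩, x, hx, y, hy, tx, ty, hxy⟩ := hcon
    have hzx : z ≠ x := fun h => tz (h ▸ tx)
    have hzy : z ≠ y := fun h => tz (h ▸ ty)
    obtain ⟨sx, hsx, ax⟩ := tcv tx
    obtain ⟨sy, hsy, ay⟩ := tcv ty
    by_cases ha : ∃ w ∈ X, w ≠ z ∧ ¬ Tch G S {l w}
    · obtain ⟨w, hw, hwz, tw⟩ := ha
      have hwx : w ≠ x := fun h => tw (h ▸ tx)
      have hwy : w ≠ y := fun h => tw (h ▸ ty)
      have cR : Conn G (S ∪ {l x, x}) :=
        cS.union (Conn.pair (leg x hx).symm) (Or.inr ⟨sx, hsx, l x, Or.inl rfl, ax⟩)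
      refine mdlV hG (P := {y, w}) (Q := {z}) (R := S ∪ {l x, x}) (x := l w) (y := l z) (z := l y)
        (Conn.pair (adj y hy w hw hwy.symm)) (Conn.singleton _ _) cR (dj ?_) (dj ?_) (dj ?_)
        ?_ ?_ ?_ ?_ ?_ ?_ ?_ ?_ ?_
        ⟨y, Or.inl rfl, z, rfl, adj y hy z hz hzy.symm⟩
        ⟨y, Or.inl rfl, x, Or.inr (Or.inr rfl), adj y hy x hx hxy.symm⟩
        ⟨z, rfl, x, Or.inr (Or.inr rfl), adj z hz x hx hzx⟩
        ⟨w, Or.inr rfl, (leg w hw).symm⟩ ?_ ?_ ⟨z, rfl, (leg z hz).symm⟩ ?_ ?_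
        ⟨y, Or.inl rfl, (leg y hy).symm⟩ ⟨sy, Or.inl hsy, ay.symm⟩ ?_ (ll w hw z hz)
        (ll w hw y hy) (ll z hz y hy)
      · rintro _ (rfl | rfl) _ rfl
        · exact hzy.symm
        · exact hwz
      · rintro _ (rfl | rfl) u (hu | rfl | rfl)
        · exact (SX u hu _ hy).symm
        · exact (lX x hx _ hy).symm
        · exact hxy.symm
        · exact (SX u hu _ hw).symm
        · exact (lX x hx _ hw).symm
        · exact hwx
      · rintro _ rfl u (hu | rfl | rfl)
        · exact (SX u hu _ hz).symm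
        · exact (lX x hx _ hz).symm
        · exact hzx
      · rintro (h | h)
        · exact lX w hw y hy h
        · exact lX w hw w hw h
      · exact fun h => lX w hw z hz h
      · rintro (h | h | h)
        · exact (hdis w hw).2 h
        · exact li w hw x hx hwx h
        · exact lX w hw x hx h
      · rintro (h | h)
        · exact lX z hz y hy h
        · exact lX z hz w hw h
      · exact fun h => lX z hz z hz h
      · rintro (h | h | h)
        · exact (hdis z hz).2 h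
        · exact li z hz x hx hzx h
        · exact lX z hz x hx h
      · rintro (h | h)
        · exact lX y hy y hy h
        · exact lX y hy w hw h
      · exact fun h => lX y hy z hz h
      · rintro (h | h | h)
        · exact (hdis y hy).2 h
        · exact li y hy x hx hxy.symm h
        · exact lX y hy x hx h
      · rintro _ rfl
        exact nl' _ hz w hw hwz.symm
      · rintro p (hp | rfl | rfl)
        · exact fun h => ntcv tw p hp h.symm
        · exact ll w hw x hx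
        · exact nl' _ hx w hw hwx.symm
      · rintro _ (rfl | rfl)
        · exact nl' _ hy z hz hzy.symm
        · exact nl' _ hw z hz hwz
      · rintro p (hp | rfl | rfl)
        · exact fun h => ntcv tz p hp h.symm
        · exact ll z hz x hx
        · exact nl' _ hx z hz hzx.symm
      · rintro _ rfl
        exact nl' _ hz y hy hzy
    · push Not at ha
      obtain ⟨w, hw, hwx, hwy, hwz⟩ := pick3 (by omega : 4 ≤ X.ncard) x y z
      obtain ⟨u, hu, hux, huy, huz, huw⟩ := pick4 h5 x y z w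
      obtain ⟨sw, hsw, aw⟩ := tcv (ha w hw hwz)
      obtain ⟨su, hsu, au⟩ := tcv (ha u hu huz)
      refine mdlV hG (P := S) (Q := {z, w, l w}) (R := {y, u, l u}) (x := l x) (y := l z) (z := l y)
        cS (tri (adj z hz w hw hwz.symm) (Or.inr (leg w hw)))
        (tri (adj y hy u hu huy.symm) (Or.inr (leg u hu))) (dj ?_) (dj ?_) (dj ?_)
        (hdis x hx).2 ?_ ?_ (hdis z hz).2 ?_ ?_ (hdis y hy).2 ?_ ?_
        ⟨sw, hsw, l w, Or.inr (Or.inr rfl), aw⟩ ⟨su, hsu, l u, Or.inr (Or.inr rfl), au⟩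
        ⟨z, Or.inl rfl, y, Or.inl rfl, adj z hz y hy hzy⟩ ⟨sx, hsx, ax.symm⟩ ?_ ?_
        ⟨z, Or.inl rfl, (leg z hz).symm⟩ (fun p hp h => ntcv tz p hp h.symm) ?_
        ⟨sy, hsy, ay.symm⟩ ⟨y, Or.inl rfl, (leg y hy).symm⟩ ?_ (ll x hx z hz) (ll x hx y hy)
        (ll z hz y hy)
      · rintro s hs _ (rfl | rfl | rfl)
        · exact SX s hs _ hz
        · exact SX s hs _ hw
        · exact Sl s hs _ hw
      · rintro s hs _ (rfl | rfl | rfl)
        · exact SX s hs _ hy
        · exact SX s hs _ hu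
        · exact Sl s hs _ hu
      · rintro _ (rfl | rfl | rfl) _ (rfl | rfl | rfl)
        · exact hzy
        · exact huz.symm
        · exact (lX _ hu _ hz).symm
        · exact hwy
        · exact huw.symm
        · exact (lX _ hu _ hw).symm
        · exact lX _ hw _ hy
        · exact lX _ hw _ hu
        · exact li _ hw _ hu huw.symm
      · rintro (h | h | h)
        · exact lX x hx z hz h
        · exact lX x hx w hw h
        · exact li x hx w hw hwx.symm h
      · rintro (h | h | h)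
        · exact lX x hx y hy h
        · exact lX x hx u hu h
        · exact li x hx u hu hux.symm h
      · rintro (h | h | h)
        · exact lX z hz z hz h
        · exact lX z hz w hw h
        · exact li z hz w hw hwz.symm h
      · rintro (h | h | h)
        · exact lX z hz y hy h
        · exact lX z hz u hu h
        · exact li z hz u hu huz.symm h
      · rintro (h | h | h)
        · exact lX y hy z hz h
        · exact lX y hy w hw h
        · exact li y hy w hw hwy.symm h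
      · rintro (h | h | h)
        · exact lX y hy y hy h
        · exact lX y hy u hu h
        · exact li y hy u hu huy.symm h
      · rintro _ (rfl | rfl | rfl)
        · exact nl' _ hz x hx hzx
        · exact nl' _ hw x hx hwx
        · exact ll x hx _ hw
      · rintro _ (rfl | rfl | rfl)
        · exact nl' _ hy x hx hxy.symm
        · exact nl' _ hu x hx hux
        · exact ll x hx _ hu
      · rintro _ (rfl | rfl | rfl)
        · exact nl' _ hy z hz hzy.symm
        · exact nl' _ hu z hz huz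
        · exact ll z hz _ hu
      · rintro _ (rfl | rfl | rfl)
        · exact nl' _ hz y hy hzy
        · exact nl' _ hw y hy hwy
        · exact ll y hy _ hw
  refine ⟨one, ?_, ?_⟩
  · rintro ⟨z₀, hz₀, tz₀⟩ x hx y hy tx ty
    have uni : ∀ w ∈ X, Tch G S {l w} → w = x := by
      intro w hw tw
      rcases one with h | h
      · exact absurd (h z₀ hz₀) tz₀
      · exact h w hw x hx tw tx
    by_contra hyx
    obtain ⟨z, hz, hzx, hzy⟩ := pick2 (by omega : 3 ≤ X.ncard) x y
    have tly : ∀ s ∈ S, ¬ G.Adj (l y) s := fun s hs h =>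
      hyx (uni y hy ⟨s, hs, l y, rfl, h.symm⟩)
    have tlz : ∀ s ∈ S, ¬ G.Adj (l z) s := fun s hs h =>
      hzx (uni z hz ⟨s, hs, l z, rfl, h.symm⟩)
    obtain ⟨sx, hsx, ax⟩ := tcv tx
    obtain ⟨sy, hsy, ay⟩ := tcv ty
    by_cases tz : Tch G S {z}
    · obtain ⟨sz, hsz, az⟩ := tcv tz
      refine mdlV hG (P := {x, z}) (Q := {y}) (R := S) (x := l z) (y := l y) (z := l x)
        (Conn.pair (adj x hx z hz hzx.symm)) (Conn.singleton _ _) cS (dj ?_) (dj ?_) (dj ?_)
        ?_ ?_ (hdis z hz).2 ?_ ?_ (hdis y hy).2 ?_ ?_ (hdis x hx).2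
        ⟨x, Or.inl rfl, y, rfl, adj x hx y hy (Ne.symm hyx)⟩ ⟨z, Or.inr rfl, sz, hsz, az.symm⟩
        ⟨y, rfl, sy, hsy, ay.symm⟩ ⟨z, Or.inr rfl, (leg z hz).symm⟩ ?_ tlz
        ⟨y, rfl, (leg y hy).symm⟩ ?_ tly ⟨x, Or.inl rfl, (leg x hx).symm⟩ ⟨sx, hsx, ax.symm⟩ ?_
        (ll z hz y hy) (ll z hz x hx) (ll y hy x hx)
      · rintro _ (rfl | rfl) _ rfl
        · exact Ne.symm hyx
        · exact hzy
      · rintro _ (rfl | rfl) s hs
        · exact (SX s hs _ hx).symm
        · exact (SX s hs _ hz).symm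
      · rintro _ rfl s hs
        exact (SX s hs _ hy).symm
      · rintro (h | h)
        · exact lX z hz x hx h
        · exact lX z hz z hz h
      · exact fun h => lX z hz y hy h
      · rintro (h | h)
        · exact lX y hy x hx h
        · exact lX y hy z hz h
      · exact fun h => lX y hy y hy h
      · rintro (h | h)
        · exact lX x hx x hx h
        · exact lX x hx z hz h
      · exact fun h => lX x hx y hy h
      · rintro _ rfl
        exact nl' _ hy z hz hzy.symm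
      · rintro _ (rfl | rfl)
        · exact nl' _ hx y hy (Ne.symm hyx)
        · exact nl' _ hz y hy hzy
      · rintro _ rfl
        exact nl' _ hy x hx hyx
    · have s : ∀ v : V, Conn G ({v} : Set V) := fun v => Conn.singleton _ _
      have cZ : Conn G (S ∪ {l x}) :=
        cS.union (s _) (Or.inr ⟨sx, hsx, l x, rfl, ax⟩)
      refine mdl hG (P := {y}) (Q := {z}) (R := {x}) (X := {l y}) (Y := {l z}) (Z := S ∪ {l x})
        (s _) (s _) (s _) (s _) (s _) cZ (dj ?_) (dj ?_) (dj ?_) (dj ?_) (dj ?_) (dj ?_) (dj ?_)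
        (dj ?_) (dj ?_) (dj ?_) (dj ?_) (dj ?_) (dj ?_) (dj ?_) (dj ?_)
        ⟨y, rfl, z, rfl, adj y hy z hz hzy.symm⟩ ⟨y, rfl, x, rfl, adj y hy x hx hyx⟩
        ⟨z, rfl, x, rfl, adj z hz x hx hzx⟩ ⟨y, rfl, l y, rfl, leg y hy⟩ ?_ ?_ ?_
        ⟨z, rfl, l z, rfl, leg z hz⟩ ?_ ⟨y, rfl, sy, Or.inl hsy, ay.symm⟩ ?_
        ⟨x, rfl, l x, Or.inr rfl, leg x hx⟩ ?_ ?_ ?_
      · rintro _ rfl _ rfl; exact hzy.symm
      · rintro _ rfl _ rfl; exact hyx
      · rintro _ rfl _ rfl; exact hzx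
      · rintro _ rfl _ rfl; exact (lX _ hy _ hy).symm
      · rintro _ rfl _ rfl; exact (lX _ hy _ hz).symm
      · rintro _ rfl _ rfl; exact (lX _ hy _ hx).symm
      · rintro _ rfl _ rfl; exact (lX _ hz _ hy).symm
      · rintro _ rfl _ rfl; exact (lX _ hz _ hz).symm
      · rintro _ rfl _ rfl; exact (lX _ hz _ hx).symm
      · rintro _ rfl u (hu | rfl)
        · exact (SX u hu _ hy).symm
        · exact (lX _ hx _ hy).symm
      · rintro _ rfl u (hu | rfl)
        · exact (SX u hu _ hz).symm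
        · exact (lX _ hx _ hz).symm
      · rintro _ rfl u (hu | rfl)
        · exact (SX u hu _ hx).symm
        · exact (lX _ hx _ hx).symm
      · rintro _ rfl _ rfl; exact li _ hy _ hz hzy.symm
      · rintro _ rfl u (hu | rfl)
        · exact (Sl u hu _ hy).symm
        · exact li _ hy _ hx hyx
      · rintro _ rfl u (hu | rfl)
        · exact (Sl u hu _ hz).symm
        · exact li _ hz _ hx hzx
      · rintro ⟨_, rfl, _, rfl, h⟩; exact nl _ hz _ hy hzy h
      · rintro ⟨_, rfl, _, rfl, h⟩; exact nl _ hx _ hy (Ne.symm hyx) h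
      · rintro ⟨_, rfl, _, rfl, h⟩; exact nl _ hy _ hz hzy.symm h
      · rintro ⟨_, rfl, _, rfl, h⟩; exact nl _ hx _ hz hzx.symm h
      · rintro ⟨_, rfl, u, (hu | rfl), h⟩
        · exact ntcv tz u hu h.symm
        · exact nl _ hz _ hx hzx h
      · rintro ⟨_, rfl, _, rfl, h⟩; exact ll _ hy _ hz h
      · rintro ⟨_, rfl, u, (hu | rfl), h⟩
        · exact tly u hu h
        · exact ll _ hy _ hx h
      · rintro ⟨_, rfl, u, (hu | rfl), h⟩
        · exact tlz u hu h
        · exact ll _ hz _ hx h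
  · intro hno
    by_contra hcon
    push Not at hcon
    obtain ⟨⟨z, hz, tz⟩, x, hx, y, hy, tx, ty, hxy⟩ := hcon
    have hzx : z ≠ x := fun h => tz (h ▸ tx)
    have hzy : z ≠ y := fun h => tz (h ▸ ty)
    have s : ∀ v : V, Conn G ({v} : Set V) := fun v => Conn.singleton _ _
    refine mdl hG (P := {x}) (Q := {z}) (R := {y}) (X := {l x}) (Y := {l z}) (Z := S)
      (s _) (s _) (s _) (s _) (s _) cS (dj ?_) (dj ?_) (dj ?_) (dj ?_) (dj ?_) (dj ?_) (dj ?_)
      (dj ?_) (dj ?_) (dj ?_) (dj ?_) (dj ?_) (dj ?_) (dj ?_) (dj ?_)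
      ⟨x, rfl, z, rfl, adj x hx z hz hzx.symm⟩ ⟨x, rfl, y, rfl, adj x hx y hy hxy⟩
      ⟨z, rfl, y, rfl, adj z hz y hy hzy⟩ ⟨x, rfl, l x, rfl, leg x hx⟩ ?_ ?_ ?_
      ⟨z, rfl, l z, rfl, leg z hz⟩ ?_ tx.symm ?_ ty.symm ?_ ?_ ?_
    · rintro _ rfl _ rfl; exact hzx.symm
    · rintro _ rfl _ rfl; exact hxy
    · rintro _ rfl _ rfl; exact hzy
    · rintro _ rfl _ rfl; exact (lX _ hx _ hx).symm
    · rintro _ rfl _ rfl; exact (lX _ hx _ hz).symm
    · rintro _ rfl _ rfl; exact (lX _ hx _ hy).symm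
    · rintro _ rfl _ rfl; exact (lX _ hz _ hx).symm
    · rintro _ rfl _ rfl; exact (lX _ hz _ hz).symm
    · rintro _ rfl _ rfl; exact (lX _ hz _ hy).symm
    · rintro _ rfl u hu; exact (SX u hu _ hx).symm
    · rintro _ rfl u hu; exact (SX u hu _ hz).symm
    · rintro _ rfl u hu; exact (SX u hu _ hy).symm
    · rintro _ rfl _ rfl; exact li _ hx _ hz hzx.symm
    · rintro _ rfl u hu; exact (Sl u hu _ hx).symm
    · rintro _ rfl u hu; exact (Sl u hu _ hz).symm
    · rintro ⟨_, rfl, _, rfl, h⟩; exact nl _ hz _ hx hzx h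
    · rintro ⟨_, rfl, _, rfl, h⟩; exact nl _ hy _ hx (Ne.symm hxy) h
    · rintro ⟨_, rfl, _, rfl, h⟩; exact nl _ hx _ hz hzx.symm h
    · rintro ⟨_, rfl, _, rfl, h⟩; exact nl _ hy _ hz hzy.symm h
    · exact fun h => tz h.symm
    · rintro ⟨_, rfl, _, rfl, h⟩; exact ll _ hx _ hz h
    · exact fun h => hno x hx h.symm
    · exact fun h => hno z hz h.symm

end Pool.Agent.MPd439b2.H1T
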